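import Pool.Agent.Y342.SK.Gad

/-!
# Partial Hadamard matrices from systems of skew matrices
-/

set_option autoImplicit false
set_option linter.unusedSectionVars false

namespace Pool.Agent.N328.PH

open Matrix Finset
open scoped Kronecker
open Pool.Agent.Y342.SK

/-- a system of skew matrices with entries `0, ±1` whose supports partition the positions off the
diagonal -/
structure Sys (X : Type) [Fintype X] [DecidableEq X] (r : ℕ) [NeZero r] (ρ τ₀ τ : ℤ) where
  /-- the distinguished matrix -/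
  S : Matrix X X ℤ
  /-- the other matrices -/
  M : Fin r → Matrix X X ℤ
  ST : Sᵀ = -S
  MT : ∀ a, (M a)ᵀ = -M a
  SS : S * S = (1 - ρ) • (1 : Matrix X X ℤ)
  MM : ∀ a, M a * M a = (-(if a = 0 then τ₀ else τ)) • (1 : Matrix X X ℤ)
  SM : ∀ a, S * M a + M a * S = 0
  S0 : ∀ x, S x x = 0
  M0 : ∀ a x, M a x x = 0
  sup : ∀ x y, x ≠ y → (Sg (S x y) ∧ ∀ a, M a x y = 0) ∨
    (S x y = 0 ∧ ∃ a, Sg (M a x y) ∧ ∀ b, b ≠ a → M b x y = 0)

/-- a symmetric-type Hadamard matrix with first row constant -/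
structure IsK (r : ℕ) [NeZero r] (K : Matrix (Fin r) (Fin r) ℤ) : Prop where
  sg : ∀ a g, Sg (K a g)
  row : ∀ a b, ∑ g, K a g * K b g = if a = b then (r : ℤ) else 0
  col : ∀ g h, ∑ a, K a g * K a h = if g = h then (r : ℤ) else 0
  zero : ∀ g, K 0 g = 1

section

variable {r : ℕ} [NeZero r] {K : Matrix (Fin r) (Fin r) ℤ}

/-- the projection to a row -/
def pr (K : Matrix (Fin r) (Fin r) ℤ) (a : Fin r) : Matrix (Fin r) (Fin r) ℤ :=
  Matrix.of fun g h => K a g * K a h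

/-- all ones minus twice the identity -/
def bd (r : ℕ) : Matrix (Fin r) (Fin r) ℤ := Matrix.of fun g h => 1 - 2 * (if g = h then 1 else 0)

/-- all ones -/
def jj (r : ℕ) : Matrix (Fin r) (Fin r) ℤ := Matrix.of fun _ _ => 1

theorem bd_apply (g h : Fin r) : bd r g h = 1 - 2 * (if g = h then 1 else 0) := rfl
theorem pr_apply (a g h : Fin r) : pr K a g h = K a g * K a h := rfl

theorem prT (a : Fin r) : (pr K a)ᵀ = pr K a := by
  ext g h; simp only [transpose_apply, pr_apply]; ring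

theorem bdT : (bd r)ᵀ = bd r := by
  ext g h; simp only [transpose_apply, bd_apply, eq_comm]

theorem pr_pr (hK : IsK r K) (a b : Fin r) : pr K a * pr K b = if a = b then (r : ℤ) • pr K a else 0 := by
  ext g h
  rw [Matrix.mul_apply]
  have e : ∀ k, pr K a g k * pr K b k h = K a g * (K a k * K b k) * K b h := by
    intro k; rw [pr_apply, pr_apply]; ring
  rw [Finset.sum_congr rfl fun k _ => e k, ← Finset.sum_mul, ← Finset.mul_sum, hK.row]
  by_cases hab : a = b
  · subst hab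
    rw [if_pos rfl, if_pos rfl, Matrix.smul_apply, pr_apply, smul_eq_mul]; ring
  · rw [if_neg hab, if_neg hab, Matrix.zero_apply]; ring

/-- eigenvalue of `bd` -/
def lam (a : Fin r) : ℤ := (if a = 0 then (r : ℤ) else 0) - 2

theorem sumK (hK : IsK r K) (a : Fin r) : ∑ k, K a k = if a = 0 then (r : ℤ) else 0 := by
  rw [← hK.row a 0]
  exact Finset.sum_congr rfl fun k _ => by rw [hK.zero, mul_one]

theorem bd_pr (hK : IsK r K) (a : Fin r) : bd r * pr K a = lam a • pr K a := by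
  ext g h
  rw [Matrix.mul_apply]
  have e : ∀ k, bd r g k * pr K a k h = (K a k - 2 * (if g = k then K a k else 0)) * K a h := by
    intro k; rw [bd_apply, pr_apply]
    by_cases hg : g = k
    · rw [if_pos hg, if_pos hg]; ring
    · rw [if_neg hg, if_neg hg]; ring
  rw [Finset.sum_congr rfl fun k _ => e k, ← Finset.sum_mul, Finset.sum_sub_distrib, ← Finset.mul_sum,
    Finset.sum_ite_eq, if_pos (mem_univ _), sumK hK, Matrix.smul_apply, pr_apply, smul_eq_mul]
  unfold lam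
  by_cases ha : a = 0
  · subst ha
    rw [if_pos rfl, hK.zero, hK.zero]; ring
  · rw [if_neg ha]; ring

theorem pr_bd (hK : IsK r K) (a : Fin r) : pr K a * bd r = lam a • pr K a := by
  have h := congrArg Matrix.transpose (bd_pr hK a)
  rwa [transpose_mul, transpose_smul, prT, bdT] at h

theorem bd_bd : bd r * bd r = ((r : ℤ) - 4) • jj r + (4 : ℤ) • (1 : Matrix (Fin r) (Fin r) ℤ) := by
  ext g h
  rw [Matrix.mul_apply]
  have e : ∀ k, bd r g k * bd r k h = 1 - 2 * (if g = k then 1 else 0) - 2 * (if k = h then 1 else 0) +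
      4 * (if g = k then (if k = h then 1 else 0) else 0) := by
    intro k; rw [bd_apply, bd_apply]
    split_ifs <;> ring
  rw [Finset.sum_congr rfl fun k _ => e k, Finset.sum_add_distrib, Finset.sum_sub_distrib,
    Finset.sum_sub_distrib, ← Finset.mul_sum, ← Finset.mul_sum, ← Finset.mul_sum, Finset.sum_ite_eq,
    Finset.sum_ite_eq', Finset.sum_ite_eq]
  simp only [mem_univ, if_true, Finset.sum_const, Finset.card_univ, Fintype.card_fin, Matrix.add_apply,
    Matrix.smul_apply, jj, Matrix.of_apply, Matrix.one_apply, smul_eq_mul]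
  rw [nsmul_eq_mul]
  ring

theorem pr0 (hK : IsK r K) : pr K 0 = jj r := by
  ext g h; rw [pr_apply, hK.zero, hK.zero]; simp [jj]

theorem sum_pr (hK : IsK r K) : ∑ a, pr K a = (r : ℤ) • (1 : Matrix (Fin r) (Fin r) ℤ) := by
  ext g h
  rw [Matrix.sum_apply]
  simp only [pr_apply]
  rw [hK.col, Matrix.smul_apply, Matrix.one_apply, smul_eq_mul]
  by_cases hg : g = h
  · rw [if_pos hg, if_pos hg, mul_one]
  · rw [if_neg hg, if_neg hg, mul_zero]

variable {X : Type} [Fintype X] [DecidableEq X] {ρ τ₀ τ : ℤ}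

/-- the soft part -/
def Zm (K : Matrix (Fin r) (Fin r) ℤ) (s : Sys X r ρ τ₀ τ) : Matrix (X × Fin r) (X × Fin r) ℤ :=
  (1 + s.S) ⊗ₖ bd r + ∑ a, s.M a ⊗ₖ pr K a

theorem Zm_apply (s : Sys X r ρ τ₀ τ) (x y : X) (g h : Fin r) : Zm K s (x, g) (y, h) =
    (1 + s.S) x y * bd r g h + ∑ a, s.M a x y * pr K a g h := by
  simp only [Zm, Matrix.add_apply, kroneckerMap_apply, Matrix.sum_apply]

theorem ZmT (s : Sys X r ρ τ₀ τ) : (Zm K s)ᵀ = (1 - s.S) ⊗ₖ bd r - ∑ a, s.M a ⊗ₖ pr K a := by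
  unfold Zm
  rw [transpose_add, transpose_sum, ← kroneckerMap_transpose, transpose_add, transpose_one, s.ST, bdT,
    ← sub_eq_add_neg]
  have e : ∀ a, (s.M a ⊗ₖ pr K a)ᵀ = -(s.M a ⊗ₖ pr K a) := by
    intro a
    rw [← kroneckerMap_transpose, s.MT, prT]
    ext i j; simp [kroneckerMap_apply]
  rw [Finset.sum_congr rfl fun a _ => e a, Finset.sum_neg_distrib, ← sub_eq_add_neg]

theorem Zm_sg (hK : IsK r K) (s : Sys X r ρ τ₀ τ) : ∀ i j, Sg (Zm K s i j) := by
  rintro ⟨x, g⟩ ⟨y, h⟩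
  rw [Zm_apply]
  have hb : Sg (bd r g h) := by
    rw [bd_apply]
    by_cases hgh : g = h
    · rw [if_pos hgh]; right; norm_num
    · rw [if_neg hgh]; left; norm_num
  by_cases hxy : x = y
  · subst hxy
    simp only [s.M0, zero_mul, Finset.sum_const_zero, add_zero, Matrix.add_apply, one_apply_eq, s.S0,
      one_mul]
    exact hb
  · rw [Matrix.add_apply, one_apply_ne hxy, zero_add]
    rcases s.sup x y hxy with ⟨h1, h2⟩ | ⟨h1, a, h2, h3⟩
    · simp only [h2, zero_mul, Finset.sum_const_zero, add_zero]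
      exact h1.mul hb
    · rw [h1, zero_mul, zero_add, Finset.sum_eq_single a]
      · exact h2.mul ((hK.sg _ _).mul (hK.sg _ _))
      · intro b _ hb
        rw [h3 b hb, zero_mul]
      · intro h; exact absurd (mem_univ _) h

theorem Zm_mul (hK : IsK r K) (s : Sys X r ρ τ₀ τ) : Zm K s * (Zm K s)ᵀ =
    (1 : Matrix X X ℤ) ⊗ₖ ((4 * ρ + (r : ℤ) ^ 2 * τ) • (1 : Matrix (Fin r) (Fin r) ℤ) +
      (ρ * ((r : ℤ) - 4) + r * (τ₀ - τ)) • jj r) := by
  have h1 : ((1 + s.S) ⊗ₖ bd r) * ((1 - s.S) ⊗ₖ bd r) =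
      (1 : Matrix X X ℤ) ⊗ₖ ((ρ * ((r : ℤ) - 4)) • jj r + (4 * ρ) • (1 : Matrix (Fin r) (Fin r) ℤ)) := by
    have e : (1 + s.S) * (1 - s.S) = ρ • (1 : Matrix X X ℤ) := by
      rw [add_mul, one_mul, mul_sub, mul_one, s.SS, sub_smul, one_smul]
      abel
    rw [← mul_kronecker_mul, e, bd_bd, smul_kronecker, ← kronecker_smul, smul_add, smul_smul, smul_smul,
      mul_comm ρ 4]
  have h2 : (∑ a, s.M a ⊗ₖ pr K a) * ((1 - s.S) ⊗ₖ bd r) -
      ((1 + s.S) ⊗ₖ bd r) * (∑ a, s.M a ⊗ₖ pr K a) = 0 := by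
    rw [Finset.sum_mul, Finset.mul_sum, ← Finset.sum_sub_distrib]
    refine Finset.sum_eq_zero fun a _ => ?_
    rw [← mul_kronecker_mul, ← mul_kronecker_mul, pr_bd hK, bd_pr hK, kronecker_smul, kronecker_smul,
      ← smul_sub]
    have e : s.M a * (1 - s.S) = (1 + s.S) * s.M a := by
      have h := s.SM a
      rw [mul_sub, mul_one, add_mul, one_mul]
      rw [← sub_eq_zero]
      have e2 : s.M a - s.M a * s.S - (s.M a + s.S * s.M a) = -(s.S * s.M a + s.M a * s.S) := by abel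
      rw [e2, h, neg_zero]
    rw [e, sub_self, smul_zero]
  have h3 : (∑ a, s.M a ⊗ₖ pr K a) * (∑ a, s.M a ⊗ₖ pr K a) =
      -((1 : Matrix X X ℤ) ⊗ₖ (((r : ℤ) ^ 2 * τ) • (1 : Matrix (Fin r) (Fin r) ℤ) +
        (r * (τ₀ - τ)) • jj r)) := by
    have e1 : (∑ a, s.M a ⊗ₖ pr K a) * (∑ a, s.M a ⊗ₖ pr K a) =
        ∑ a, (s.M a * s.M a) ⊗ₖ ((r : ℤ) • pr K a) := by
      rw [Finset.sum_mul]
      refine Finset.sum_congr rfl fun a _ => ?_
      rw [Finset.mul_sum, Finset.sum_eq_single a]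
      · rw [← mul_kronecker_mul, pr_pr hK, if_pos rfl]
      · intro b _ hb
        rw [← mul_kronecker_mul, pr_pr hK, if_neg (Ne.symm hb), kronecker_zero]
      · intro h; exact absurd (mem_univ _) h
    have e2 : ∀ a, (s.M a * s.M a) ⊗ₖ ((r : ℤ) • pr K a) =
        -((1 : Matrix X X ℤ) ⊗ₖ (((r : ℤ) * τ) • pr K a + (if a = 0 then (r : ℤ) * (τ₀ - τ) else 0) • pr K a)) := by
      intro a
      rw [s.MM, smul_kronecker, kronecker_smul, smul_smul, ← add_smul, kronecker_smul, ← neg_smul]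
      congr 1
      by_cases ha : a = 0
      · rw [if_pos ha, if_pos ha]; ring
      · rw [if_neg ha, if_neg ha]; ring
    rw [e1, Finset.sum_congr rfl fun a _ => e2 a, Finset.sum_neg_distrib]
    congr 1
    have e3 : ∀ f : Fin r → Matrix (Fin r) (Fin r) ℤ, ∑ a, (1 : Matrix X X ℤ) ⊗ₖ f a =
        (1 : Matrix X X ℤ) ⊗ₖ ∑ a, f a := by
      intro f
      ext i j
      simp only [Matrix.sum_apply, kroneckerMap_apply, Finset.mul_sum]
    rw [e3, Finset.sum_add_distrib, ← Finset.smul_sum, sum_pr hK, smul_smul]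
    congr 1
    congr 1
    · congr 1; ring
    · rw [Finset.sum_eq_single 0]
      · rw [if_pos rfl, pr0 hK]
      · intro b _ hb
        rw [if_neg hb, zero_smul]
      · intro h; exact absurd (mem_univ _) h
  rw [ZmT]
  unfold Zm
  rw [add_mul, mul_sub, mul_sub, h1, h3]
  have e : ∀ a b c d : Matrix (X × Fin r) (X × Fin r) ℤ, a - b + (c - d) = a - d + (c - b) := by
    intro a b c d; abel
  rw [e, h2, add_zero, sub_neg_eq_add, ← kronecker_add]
  congr 1
  rw [add_smul, add_smul]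
  abel

/-- the partial Hadamard matrix -/
theorem big (hK : IsK r K) (s : Sys X r ρ τ₀ τ) {γ : Type} [Fintype γ] [DecidableEq γ]
    (H : Matrix X γ ℤ) (hH : ∀ x c, Sg (H x c))
    (hHH : H * Hᵀ = (r * (τ - τ₀ - ρ) + 4 * ρ) • (1 : Matrix X X ℤ)) :
    ∃ M : Matrix (X × Fin r) (γ ⊕ (X × Fin r)) ℤ, (∀ i j, Sg (M i j)) ∧
      M * Mᵀ = (4 * ρ + (r : ℤ) ^ 2 * τ) • (1 : Matrix (X × Fin r) (X × Fin r) ℤ) := by
  refine ⟨Matrix.of fun i j => Sum.elim (fun c => H i.1 c) (fun y => Zm K s i y) j, ?_, ?_⟩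
  · rintro i (c | y)
    · exact hH _ _
    · exact Zm_sg hK s _ _
  · ext i j
    have h1 := congrFun (congrFun hHH i.1) j.1
    have h2 := congrFun (congrFun (Zm_mul hK s) i) j
    rw [Matrix.mul_apply] at h1 h2
    rw [Matrix.mul_apply, Fintype.sum_sum_type]
    simp only [transpose_apply, Matrix.of_apply, Sum.elim_inl, Sum.elim_inr] at h1 h2 ⊢
    rw [h1, h2]
    obtain ⟨x, g⟩ := i
    obtain ⟨y, h⟩ := j
    simp only [kroneckerMap_apply, Matrix.add_apply, Matrix.smul_apply, jj, Matrix.of_apply, smul_eq_mul,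
      Matrix.one_apply, Prod.mk.injEq]
    by_cases hxy : x = y
    · by_cases hgh : g = h
      · rw [if_pos hxy, if_pos hgh, if_pos ⟨hxy, hgh⟩]; ring
      · rw [if_pos hxy, if_neg hgh, if_neg (show ¬(x = y ∧ g = h) from fun h' => hgh h'.2)]; ring
    · rw [if_neg hxy, if_neg (show ¬(x = y ∧ g = h) from fun h' => hxy h'.1)]; ring

end

end Pool.Agent.N328.PH
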