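import Pool.Agent.N328.PH.Gad
import Pool.Agent.N328.PH.Big

/-!
# Systems of skew matrices from gadgets and families of sequences
-/

set_option autoImplicit false
set_option linter.unusedSectionVars false

namespace Pool.Agent.N328.PH

open Matrix Finset
open scoped Kronecker
open Pool.Agent.Y342.SK

variable {ι κ : Type} [Fintype ι] [DecidableEq ι] [Fintype κ] [DecidableEq κ] {c : ℤ}

section wm

variable (G : Arms ι κ c) {q : ℕ} [NeZero q] (C C' : κ → Matrix (ZMod q) (ZMod q) ℤ)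

/-- the sum `∑ A a ⊗ C a` -/
def Qm : Matrix (ι × ZMod q) (ι × ZMod q) ℤ := ∑ a, G.A a ⊗ₖ C a

/-- the skew part -/
def Wm : Matrix (ι × ZMod q) (ι × ZMod q) ℤ := Qm G C - (Qm G C)ᵀ

theorem QmT : (Qm G C)ᵀ = ∑ a, (G.A a)ᵀ ⊗ₖ (C a)ᵀ := by
  unfold Qm
  rw [transpose_sum]
  exact Finset.sum_congr rfl fun a _ => (kroneckerMap_transpose _ _ _).symm

theorem Qm_mul : Qm G C * Qm G C' = ∑ a, ∑ b, (G.A a * G.A b) ⊗ₖ (C a * C' b) := by
  unfold Qm
  rw [Finset.sum_mul]
  refine Finset.sum_congr rfl fun a _ => ?_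
  rw [Finset.mul_sum]
  exact Finset.sum_congr rfl fun b _ => (mul_kronecker_mul _ _ _ _).symm

theorem Qm_Qm (hC : ∀ a b, C a * C' b = C' b * C a) : Qm G C * Qm G C' + Qm G C' * Qm G C = 0 := by
  rw [Qm_mul, Qm_mul, Finset.sum_comm (f := fun a b => (G.A a * G.A b) ⊗ₖ (C' a * C b)),
    ← Finset.sum_add_distrib]
  refine Finset.sum_eq_zero fun a _ => ?_
  rw [← Finset.sum_add_distrib]
  refine Finset.sum_eq_zero fun b _ => ?_
  have h3 := G.AA a b
  unfold Pool.Agent.Y342.SK.Rel at h3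
  rw [h3, hC a b, smul_kronecker, neg_one_smul, neg_add_cancel]

theorem Qm_QmT (hC : ∀ a b, C a * (C' b)ᵀ = (C' b)ᵀ * C a) {s : ℤ}
    (hs : ∑ a, C a * (C' a)ᵀ = s • (1 : Matrix (ZMod q) (ZMod q) ℤ)) :
    Qm G C * (Qm G C')ᵀ + (Qm G C')ᵀ * Qm G C =
      (c * s) • (1 : Matrix (ι × ZMod q) (ι × ZMod q) ℤ) := by
  have h1 : Qm G C * (Qm G C')ᵀ = ∑ a, ∑ b, (G.A a * (G.A b)ᵀ) ⊗ₖ (C a * (C' b)ᵀ) := by
    rw [QmT]
    unfold Qm
    rw [Finset.sum_mul]
    refine Finset.sum_congr rfl fun a _ => ?_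
    rw [Finset.mul_sum]
    exact Finset.sum_congr rfl fun b _ => (mul_kronecker_mul _ _ _ _).symm
  have h2 : (Qm G C')ᵀ * Qm G C = ∑ a, ∑ b, ((G.A b)ᵀ * G.A a) ⊗ₖ (C a * (C' b)ᵀ) := by
    rw [QmT]
    unfold Qm
    rw [Finset.mul_sum]
    refine Finset.sum_congr rfl fun a _ => ?_
    rw [Finset.sum_mul]
    refine Finset.sum_congr rfl fun b _ => ?_
    rw [hC a b]
    exact (mul_kronecker_mul _ _ _ _).symm
  rw [h1, h2, ← Finset.sum_add_distrib]
  have h3 : ∀ a, (∑ b, (G.A a * (G.A b)ᵀ) ⊗ₖ (C a * (C' b)ᵀ)) +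
      (∑ b, ((G.A b)ᵀ * G.A a) ⊗ₖ (C a * (C' b)ᵀ)) =
      (c • (1 : Matrix ι ι ℤ)) ⊗ₖ (C a * (C' a)ᵀ) := by
    intro a
    rw [← Finset.sum_add_distrib]
    rw [Finset.sum_eq_single a]
    · rw [← add_kronecker, G.AT, if_pos rfl]
    · intro b _ hb
      rw [← add_kronecker, G.AT, if_neg (Ne.symm hb), zero_kronecker]
    · intro h; exact absurd (mem_univ _) h
  rw [Finset.sum_congr rfl fun a _ => h3 a]
  have h4 : ∑ a, (c • (1 : Matrix ι ι ℤ)) ⊗ₖ (C a * (C' a)ᵀ) =
      (c • (1 : Matrix ι ι ℤ)) ⊗ₖ (∑ a, C a * (C' a)ᵀ) := by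
    ext i j
    simp only [Matrix.sum_apply, kroneckerMap_apply, Finset.mul_sum]
  rw [h4, hs, smul_one_kron]

theorem Wm_Wm (hC : ∀ a b, C a * C' b = C' b * C a) (hC' : ∀ a b, C a * (C' b)ᵀ = (C' b)ᵀ * C a)
    (hC'' : ∀ a b, C' a * (C b)ᵀ = (C b)ᵀ * C' a) {s : ℤ}
    (hs : ∑ a, C a * (C' a)ᵀ = s • (1 : Matrix (ZMod q) (ZMod q) ℤ)) :
    Wm G C * Wm G C' + Wm G C' * Wm G C =
      (-(2 * (c * s))) • (1 : Matrix (ι × ZMod q) (ι × ZMod q) ℤ) := by
  have hs' : ∑ a, C' a * (C a)ᵀ = s • (1 : Matrix (ZMod q) (ZMod q) ℤ) := by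
    have h := congrArg Matrix.transpose hs
    rw [transpose_sum, transpose_smul, transpose_one] at h
    rw [← h]
    exact Finset.sum_congr rfl fun a _ => by rw [transpose_mul, transpose_transpose]
  have h1 := Qm_Qm G C C' hC
  have h2 := Qm_QmT G C C' hC' hs
  have h3 := Qm_QmT G C' C hC'' hs'
  have h4 : (Qm G C)ᵀ * (Qm G C')ᵀ + (Qm G C')ᵀ * (Qm G C)ᵀ = 0 := by
    rw [← transpose_mul, ← transpose_mul, ← transpose_add, add_comm, h1, transpose_zero]
  have h5 : Wm G C * Wm G C' + Wm G C' * Wm G C = (Qm G C * Qm G C' + Qm G C' * Qm G C) +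
      ((Qm G C)ᵀ * (Qm G C')ᵀ + (Qm G C')ᵀ * (Qm G C)ᵀ) -
      (Qm G C * (Qm G C')ᵀ + (Qm G C')ᵀ * Qm G C) - (Qm G C' * (Qm G C)ᵀ + (Qm G C)ᵀ * Qm G C') := by
    unfold Wm
    rw [sub_mul, mul_sub, mul_sub, sub_mul, mul_sub, mul_sub]
    abel
  rw [h5, h1, h4, h2, h3, add_zero, zero_sub, ← neg_smul, ← sub_smul]
  congr 1
  ring

theorem Wm_sq (hC : ∀ a b, C a * C b = C b * C a) (hC' : ∀ a b, C a * (C b)ᵀ = (C b)ᵀ * C a) {s : ℤ}
    (hs : ∑ a, C a * (C a)ᵀ = s • (1 : Matrix (ZMod q) (ZMod q) ℤ)) :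
    Wm G C * Wm G C = (-(c * s)) • (1 : Matrix (ι × ZMod q) (ι × ZMod q) ℤ) := by
  have h := Wm_Wm G C C hC hC' hC' hs
  ext i j
  have h1 := congrFun (congrFun h i) j
  rw [Matrix.add_apply, Matrix.smul_apply, smul_eq_mul] at h1
  rw [Matrix.smul_apply, smul_eq_mul]
  linarith

theorem WmT : (Wm G C)ᵀ = -Wm G C := by
  unfold Wm
  rw [transpose_sub, transpose_transpose, neg_sub]

theorem one_Wm {X : Matrix ι ι ℤ} (hX : ∀ a, Rel (-1) X (G.A a)) (hT : Xᵀ = -X) :
    (X ⊗ₖ (1 : Matrix (ZMod q) (ZMod q) ℤ)) * Wm G C +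
      Wm G C * (X ⊗ₖ (1 : Matrix (ZMod q) (ZMod q) ℤ)) = 0 := by
  have h4 : (X ⊗ₖ (1 : Matrix (ZMod q) (ZMod q) ℤ)) * Qm G C +
      Qm G C * (X ⊗ₖ (1 : Matrix (ZMod q) (ZMod q) ℤ)) = 0 := by
    unfold Qm
    rw [Finset.mul_sum, Finset.sum_mul, ← Finset.sum_add_distrib]
    refine Finset.sum_eq_zero fun a _ => ?_
    have h := hX a
    unfold Pool.Agent.Y342.SK.Rel at h
    rw [← mul_kronecker_mul, ← mul_kronecker_mul, h, one_mul, mul_one, smul_kronecker, neg_one_smul,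
      neg_add_cancel]
  have h5 : (X ⊗ₖ (1 : Matrix (ZMod q) (ZMod q) ℤ)) * (Qm G C)ᵀ +
      (Qm G C)ᵀ * (X ⊗ₖ (1 : Matrix (ZMod q) (ZMod q) ℤ)) = 0 := by
    have h := congrArg Matrix.transpose h4
    have e : (X ⊗ₖ (1 : Matrix (ZMod q) (ZMod q) ℤ))ᵀ = -(X ⊗ₖ (1 : Matrix (ZMod q) (ZMod q) ℤ)) := by
      rw [← kroneckerMap_transpose, transpose_one, hT]
      ext i j; simp [kroneckerMap_apply]
    rw [transpose_add, transpose_mul, transpose_mul, e, mul_neg, neg_mul, transpose_zero] at h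
    rw [← neg_eq_zero, ← h]
    abel
  unfold Wm
  rw [mul_sub, sub_mul]
  have e : ∀ a b c d : Matrix (ι × ZMod q) (ι × ZMod q) ℤ, a - b + (c - d) = (a + c) - (b + d) := by
    intro a b c d; abel
  rw [e, h4, h5, sub_zero]

end wm

/-- families of functions for the arms -/
structure Fam (κ : Type) [Fintype κ] (S q r : ℕ) [NeZero q] (F : Option (Fin r) → κ → ZMod q → ℤ)
    (s : Option (Fin r) → ℤ) : Prop where
  hq : q = 2 * S + 1
  auto : ∀ t, ∑ a, circulant (F t a) * (circulant (F t a))ᵀ = s t • (1 : Matrix (ZMod q) (ZMod q) ℤ)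
  cross : ∀ b, ∑ a, circulant (F none a) * (circulant (F (some b) a))ᵀ =
    (0 : Matrix (ZMod q) (ZMod q) ℤ)
  zero : ∀ t a d, (d.val = 0 ∨ S < d.val) → F t a d = 0
  cover : ∀ a (d : ZMod q), 1 ≤ d.val → d.val ≤ S → ∃ t, Sg (F t a d) ∧ ∀ t', t' ≠ t → F t' a d = 0

section sys

variable {G : Arms ι κ c} {P Q : Matrix ι ι ℤ} {d : ℕ} {S q r : ℕ} [NeZero q] [NeZero r]
  {F : Option (Fin r) → κ → ZMod q → ℤ} {s : Option (Fin r) → ℤ}

theorem circ_comm (u v : ZMod q → ℤ) : circulant u * circulant v = circulant v * circulant u :=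
  circulant_mul_comm _ _

theorem circ_commT (u v : ZMod q → ℤ) : circulant u * (circulant v)ᵀ = (circulant v)ᵀ * circulant u := by
  rw [transpose_circulant]; exact circulant_mul_comm _ _

/-- the part at shift zero -/
def X0 (r : ℕ) [NeZero r] (P Q : Matrix ι ι ℤ) : Option (Fin r) → Matrix ι ι ℤ
  | none => P
  | some a => if a = 0 then Q else 0

/-- the skew matrices -/
def Mx (G : Arms ι κ c) (P Q : Matrix ι ι ℤ) (F : Option (Fin r) → κ → ZMod q → ℤ)
    (t : Option (Fin r)) : Matrix (ι × ZMod q) (ι × ZMod q) ℤ :=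
  X0 r P Q t ⊗ₖ (1 : Matrix (ZMod q) (ZMod q) ℤ) + Wm G fun a => circulant (F t a)

theorem X0T (h : IsPair G P Q d) (t : Option (Fin r)) : (X0 r P Q t)ᵀ = -X0 r P Q t := by
  rcases t with _ | a
  · exact h.hP.XT
  · unfold X0
    by_cases ha : a = 0
    · simp only [if_pos ha]; exact h.hQ.XT
    · simp only [if_neg ha]; simp

theorem X0A (h : IsPair G P Q d) (t : Option (Fin r)) (a : κ) : Rel (-1) (X0 r P Q t) (G.A a) := by
  rcases t with _ | b
  · exact h.hP.XA a
  · unfold X0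
    by_cases hb : b = 0
    · simp only [if_pos hb]; exact h.hQ.XA a
    · simp only [if_neg hb]; unfold Pool.Agent.Y342.SK.Rel; simp

/-- the weight of the part at shift zero -/
def w0 (ι : Type) [Fintype ι] (r : ℕ) [NeZero r] (d : ℕ) : Option (Fin r) → ℤ
  | none => d
  | some a => if a = 0 then (Fintype.card ι : ℤ) - 1 - d else 0

theorem X0sq (h : IsPair G P Q d) (t : Option (Fin r)) :
    X0 r P Q t * X0 r P Q t = (-(w0 ι r d t)) • (1 : Matrix ι ι ℤ) := by
  rcases t with _ | b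
  · exact h.hP.XX
  · unfold X0 w0
    by_cases hb : b = 0
    · simp only [if_pos hb]; exact h.hQ.XX
    · simp only [if_neg hb]; simp

theorem MxT (h : IsPair G P Q d) (t : Option (Fin r)) : (Mx G P Q F t)ᵀ = -Mx G P Q F t := by
  unfold Mx
  rw [transpose_add, WmT, ← kroneckerMap_transpose, transpose_one, X0T h]
  ext i j
  simp only [Matrix.add_apply, Matrix.neg_apply, kroneckerMap_apply]
  ring

theorem Mxsq (h : IsPair G P Q d) (hF : Fam κ S q r F s) (t : Option (Fin r)) :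
    Mx G P Q F t * Mx G P Q F t = (-(w0 ι r d t + c * s t)) • (1 : Matrix (ι × ZMod q) _ ℤ) := by
  have h1 := one_Wm G (fun a => circulant (F t a)) (X0A h t) (X0T h t)
  have h2 := Wm_sq G (fun a => circulant (F t a)) (fun a b => circ_comm _ _)
    (fun a b => circ_commT _ _) (hF.auto t)
  have h3 : (X0 r P Q t ⊗ₖ (1 : Matrix (ZMod q) (ZMod q) ℤ)) * (X0 r P Q t ⊗ₖ 1) =
      (-(w0 ι r d t)) • (1 : Matrix (ι × ZMod q) _ ℤ) := by
    rw [← mul_kronecker_mul, X0sq h, one_mul, smul_kronecker, one_kronecker_one]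
  unfold Mx
  rw [add_mul, mul_add, mul_add, h2, h3]
  have e : ∀ a b c d : Matrix (ι × ZMod q) (ι × ZMod q) ℤ, a + b + (c + d) = (b + c) + (a + d) := by
    intro a b c d; abel
  rw [e, h1, zero_add, ← add_smul]
  congr 1
  ring

theorem MxMx (h : IsPair G P Q d) (hF : Fam κ S q r F s) (b : Fin r) :
    Mx G P Q F none * Mx G P Q F (some b) + Mx G P Q F (some b) * Mx G P Q F none = 0 := by
  have h1 := one_Wm G (fun a => circulant (F (some b) a)) (X0A (r := r) h none) (X0T h none)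
  have h1' := one_Wm G (fun a => circulant (F none a)) (X0A h (some b)) (X0T h (some b))
  have h2 := Wm_Wm G (fun a => circulant (F none a)) (fun a => circulant (F (some b) a))
    (fun _ _ => circ_comm _ _) (fun _ _ => circ_commT _ _) (fun _ _ => circ_commT _ _) (s := 0)
    (by rw [hF.cross b, zero_smul])
  have h3 : (X0 r P Q none ⊗ₖ (1 : Matrix (ZMod q) (ZMod q) ℤ)) * (X0 r P Q (some b) ⊗ₖ 1) +
      (X0 r P Q (some b) ⊗ₖ (1 : Matrix (ZMod q) (ZMod q) ℤ)) * (X0 r P Q none ⊗ₖ 1) = 0 := by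
    rw [← mul_kronecker_mul, ← mul_kronecker_mul, ← add_kronecker]
    have e : X0 r P Q none * X0 r P Q (some b) + X0 r P Q (some b) * X0 r P Q none = 0 := by
      unfold X0
      by_cases hb : b = 0
      · simp only [if_pos hb]
        have := h.PQ
        unfold Pool.Agent.Y342.SK.Rel at this
        rw [this, neg_one_smul, neg_add_cancel]
      · simp only [if_neg hb]; simp
    rw [e, zero_kronecker]
  rw [mul_zero, mul_zero, neg_zero, zero_smul] at h2
  unfold Mx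
  rw [add_mul, mul_add, mul_add, add_mul, mul_add, mul_add]
  have e : ∀ a b c d a' b' c' d' : Matrix (ι × ZMod q) (ι × ZMod q) ℤ,
      a + b + (c + d) + (a' + b' + (c' + d')) = (a + a') + (b + c') + (b' + c) + (d + d') := by
    intro a b c d a' b' c' d'; abel
  rw [e, h3, h1, h1', h2]
  simp

theorem Mx_apply (t : Option (Fin r)) (x y : ι) (i j : ZMod q) : Mx G P Q F t (x, i) (y, j) =
    (if i = j then X0 r P Q t x y else 0) + ((∑ a, G.A a x y * F t a (i - j)) -
      ∑ a, G.A a y x * F t a (j - i)) := by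
  simp only [Mx, Wm, Qm, Matrix.add_apply, Matrix.sub_apply, transpose_apply, Matrix.sum_apply,
    kroneckerMap_apply, Matrix.one_apply, mul_ite, mul_one, mul_zero]
  rfl

theorem Mx_self (h : IsPair G P Q d) (hF : Fam κ S q r F s) (t : Option (Fin r)) (x : ι × ZMod q) :
    Mx G P Q F t x x = 0 := by
  obtain ⟨x, i⟩ := x
  rw [Mx_apply, if_pos rfl, sub_self]
  have h0 : ∀ a, F t a 0 = 0 := fun a => hF.zero t a 0 (Or.inl ZMod.val_zero)
  simp only [h0, mul_zero, Finset.sum_const_zero, sub_zero, add_zero]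
  rcases t with _ | a
  · exact h.P0 x
  · unfold X0
    by_cases ha : a = 0
    · simp only [if_pos ha]; exact h.Q0 x
    · simp only [if_neg ha]; rfl

theorem Mx_cover (h : IsPair G P Q d) (hF : Fam κ S q r F s) (x y : ι × ZMod q) (hne : x ≠ y) :
    ∃ t, Sg (Mx G P Q F t x y) ∧ ∀ t', t' ≠ t → Mx G P Q F t' x y = 0 := by
  obtain ⟨x, i⟩ := x
  obtain ⟨y, j⟩ := y
  simp only [Mx_apply]
  have h0 : ∀ t a, F t a 0 = 0 := fun t a => hF.zero t a 0 (Or.inl ZMod.val_zero)
  have hq := hF.hq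
  by_cases hij : i = j
  · subst hij
    have hxy : x ≠ y := fun h' => hne (by rw [h'])
    simp only [if_true, sub_self, h0, mul_zero, Finset.sum_const_zero, sub_zero, add_zero]
    rcases h.PQ1 x y hxy with ⟨h1, h2⟩ | ⟨h1, h2⟩
    · refine ⟨none, h1, fun t' ht' => ?_⟩
      rcases t' with _ | a
      · exact absurd rfl ht'
      · unfold X0
        by_cases ha : a = 0
        · simp only [if_pos ha]; exact h2
        · simp only [if_neg ha]; rfl
    · refine ⟨some 0, ?_, fun t' ht' => ?_⟩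
      · unfold X0
        simp only [if_true]; exact h2
      rcases t' with _ | a
      · exact h1
      · unfold X0
        have ha : a ≠ 0 := fun h' => ht' (by rw [h'])
        simp only [if_neg ha]; rfl
  · simp only [if_neg hij, zero_add]
    have hd : (i - j).val ≠ 0 := by
      rw [Ne, ZMod.val_eq_zero, sub_eq_zero]
      exact hij
    have hlt := ZMod.val_lt (i - j)
    have hneg : (j - i).val = q - (i - j).val := by
      have : j - i = -(i - j) := by ring
      rw [this, ZMod.neg_val, if_neg (sub_ne_zero.2 hij)]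
    by_cases hle : (i - j).val ≤ S
    · have h1 : ∀ t a, F t a (j - i) = 0 := fun t a => hF.zero t a _ (Or.inr (by omega))
      simp only [h1, mul_zero, Finset.sum_const_zero, sub_zero]
      obtain ⟨a, ha, hb⟩ := G.sup x y
      have h2 : ∀ t, ∑ b, G.A b x y * F t b (i - j) = G.A a x y * F t a (i - j) := by
        intro t
        rw [Finset.sum_eq_single a]
        · intro b _ hba
          rw [hb b hba, zero_mul]
        · intro h; exact absurd (mem_univ _) h
      simp only [h2]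
      obtain ⟨t, ht, ht'⟩ := hF.cover a (i - j) (by omega) hle
      exact ⟨t, ha.mul ht, fun t' h' => by rw [ht' t' h', mul_zero]⟩
    · have h1 : ∀ t a, F t a (i - j) = 0 := fun t a => hF.zero t a _ (Or.inr (by omega))
      simp only [h1, mul_zero, Finset.sum_const_zero, zero_sub]
      obtain ⟨a, ha, hb⟩ := G.sup y x
      have h2 : ∀ t, ∑ b, G.A b y x * F t b (j - i) = G.A a y x * F t a (j - i) := by
        intro t
        rw [Finset.sum_eq_single a]
        · intro b _ hba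
          rw [hb b hba, zero_mul]
        · intro h; exact absurd (mem_univ _) h
      simp only [h2]
      obtain ⟨t, ht, ht'⟩ := hF.cover a (j - i) (by omega) (by omega)
      exact ⟨t, (ha.mul ht).neg, fun t' h' => by rw [ht' t' h', mul_zero, neg_zero]⟩

/-- the system -/
def toSys (h : IsPair G P Q d) (hF : Fam κ S q r F s) {τ : ℤ} (hτ : ∀ a, a ≠ 0 → c * s (some a) = τ) :
    Sys (ι × ZMod q) r (1 + d + c * s none) ((Fintype.card ι : ℤ) - 1 - d + c * s (some 0)) τ where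
  S := Mx G P Q F none
  M := fun a => Mx G P Q F (some a)
  ST := MxT h none
  MT := fun a => MxT h (some a)
  SS := by
    rw [Mxsq h hF none]
    congr 1
    unfold w0
    ring
  MM := fun a => by
    rw [Mxsq h hF (some a)]
    congr 1
    unfold w0
    by_cases ha : a = 0
    · simp only [if_pos ha]; rw [ha]
    · simp only [if_neg ha]; rw [zero_add, hτ a ha]
  SM := fun a => MxMx h hF a
  S0 := Mx_self h hF none
  M0 := fun a => Mx_self h hF (some a)
  sup := fun x y hxy => by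
    obtain ⟨t, h1, h2⟩ := Mx_cover h hF x y hxy
    rcases t with _ | a
    · left
      exact ⟨h1, fun a => h2 (some a) (by simp)⟩
    · right
      exact ⟨h2 none (by simp), a, h1, fun b hb => h2 (some b) (by simpa using hb)⟩

end sys

end Pool.Agent.N328.PH
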