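import Pool.Agent.Y342.SK.Gad

/-!
# Gadgets with two complementary skew parts

Arms: matrices `A a` with entries `0, ±1` whose supports partition the positions and which satisfy the
canonical anticommutation relations, with two commuting symmetric Hadamard matrices `E`, `Y`.
A pair: two anticommuting skew matrices `P`, `Q` with entries `0, ±1`, whose supports partition the
positions off the diagonal, of weights `d` and `n - 1 - d`, which anticommute with `E`, `Y` and the arms.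
-/

set_option autoImplicit false
set_option linter.unusedSectionVars false

namespace Pool.Agent.N328.PH

open Matrix Finset
open scoped Kronecker
open Pool.Agent.Y342.SK

/-- arms -/
structure Arms (ι κ : Type) [Fintype ι] [DecidableEq ι] [Fintype κ] [DecidableEq κ] (c : ℤ) where
  /-- the arms -/
  A : κ → Matrix ι ι ℤ
  /-- Hadamard matrix -/
  E : Matrix ι ι ℤ
  /-- Hadamard matrix -/
  Y : Matrix ι ι ℤ
  sup : ∀ x y, ∃ a, Sg (A a x y) ∧ ∀ b, b ≠ a → A b x y = 0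
  AA : ∀ a b, Rel (-1) (A a) (A b)
  AT : ∀ a b, A a * (A b)ᵀ + (A b)ᵀ * A a = if a = b then c • (1 : Matrix ι ι ℤ) else 0
  hc : c * (Fintype.card κ : ℤ) = 2 * (Fintype.card ι : ℤ)
  ET : Eᵀ = E
  Es : ∀ x y, Sg (E x y)
  EE : E * E = (Fintype.card ι : ℤ) • (1 : Matrix ι ι ℤ)
  EA : ∀ a, Rel (-1) E (A a)
  YT : Yᵀ = Y
  Ys : ∀ x y, Sg (Y x y)
  YY : Y * Y = (Fintype.card ι : ℤ) • (1 : Matrix ι ι ℤ)
  YA : ∀ a, Rel 1 Y (A a)
  EY : Rel 1 E Y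

variable {ι κ : Type} [Fintype ι] [DecidableEq ι] [Fintype κ] [DecidableEq κ] {c : ℤ}

/-- a skew matrix of weight `w` which anticommutes with everything -/
structure IsD (G : Arms ι κ c) (X : Matrix ι ι ℤ) (w : ℤ) : Prop where
  XT : Xᵀ = -X
  XX : X * X = (-w) • (1 : Matrix ι ι ℤ)
  XA : ∀ a, Rel (-1) X (G.A a)
  XE : Rel (-1) X G.E
  XY : Rel (-1) X G.Y

/-- a complementary pair -/
structure IsPair (G : Arms ι κ c) (P Q : Matrix ι ι ℤ) (d : ℕ) : Prop where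
  hP : IsD G P d
  hQ : IsD G Q ((Fintype.card ι : ℤ) - 1 - d)
  PQ : Rel (-1) P Q
  P0 : ∀ x, P x x = 0
  Q0 : ∀ x, Q x x = 0
  PQ1 : ∀ x y, x ≠ y → (Sg (P x y) ∧ Q x y = 0) ∨ (P x y = 0 ∧ Sg (Q x y))

namespace Arms

variable (G G' : Arms ι κ c)

theorem AE (a : κ) : Rel (-1) (G.A a) G.E := (G.EA a).symm (by norm_num)
theorem AY (a : κ) : Rel 1 (G.A a) G.Y := (G.YA a).symm (by norm_num)
theorem YE : Rel 1 G.Y G.E := G.EY.symm (by norm_num)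

theorem AtY (a : κ) : Rel 1 (G.A a)ᵀ G.Y := by
  have := (G.AY a).transpose (by norm_num)
  rwa [G.YT] at this

theorem AtE (a : κ) : Rel (-1) (G.A a)ᵀ G.E := by
  have := (G.AE a).transpose (by norm_num)
  rwa [G.ET] at this

/-- the new arms -/
def stepA (p : Fin 2 × κ) : Matrix (Fin 2 × (ι × ι)) (Fin 2 × (ι × ι)) ℤ :=
  if p.1 = 0 then (1 : Matrix (Fin 2) (Fin 2) ℤ) ⊗ₖ (G.A p.2 ⊗ₖ G'.Y) else ep ⊗ₖ (G.E ⊗ₖ G'.A p.2)

theorem stepA0 (a : κ) : stepA G G' (0, a) = (1 : Matrix (Fin 2) (Fin 2) ℤ) ⊗ₖ (G.A a ⊗ₖ G'.Y) := rfl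

theorem stepA1 (a : κ) : stepA G G' (1, a) = ep ⊗ₖ (G.E ⊗ₖ G'.A a) := rfl

theorem step_AA (p q : Fin 2 × κ) : Rel (-1) (stepA G G' p) (stepA G G' q) := by
  obtain ⟨i, a⟩ := p
  obtain ⟨j, b⟩ := q
  fin_cases i <;> fin_cases j
  · change Rel (-1) ((1 : Matrix (Fin 2) (Fin 2) ℤ) ⊗ₖ (G.A a ⊗ₖ G'.Y))
      ((1 : Matrix (Fin 2) (Fin 2) ℤ) ⊗ₖ (G.A b ⊗ₖ G'.Y))
    simpa using (Rel.one_left (1 : Matrix (Fin 2) (Fin 2) ℤ)).kron ((G.AA a b).kron (Rel.refl G'.Y))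
  · change Rel (-1) ((1 : Matrix (Fin 2) (Fin 2) ℤ) ⊗ₖ (G.A a ⊗ₖ G'.Y)) (ep ⊗ₖ (G.E ⊗ₖ G'.A b))
    simpa using (Rel.one_left ep).kron ((G.AE a).kron (G'.YA b))
  · change Rel (-1) (ep ⊗ₖ (G.E ⊗ₖ G'.A a)) ((1 : Matrix (Fin 2) (Fin 2) ℤ) ⊗ₖ (G.A b ⊗ₖ G'.Y))
    simpa using (Rel.one_right ep).kron ((G.EA b).kron (G'.AY a))
  · change Rel (-1) (ep ⊗ₖ (G.E ⊗ₖ G'.A a)) (ep ⊗ₖ (G.E ⊗ₖ G'.A b))
    simpa using (Rel.refl ep).kron ((Rel.refl G.E).kron (G'.AA a b))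

theorem card_step : (Fintype.card (Fin 2 × (ι × ι)) : ℤ) =
    2 * ((Fintype.card ι : ℤ) * (Fintype.card ι : ℤ)) := by
  rw [Fintype.card_prod, Fintype.card_prod, Fintype.card_fin]
  push_cast
  ring

theorem step_AT (p q : Fin 2 × κ) : stepA G G' p * (stepA G G' q)ᵀ + (stepA G G' q)ᵀ * stepA G G' p =
    if p = q then (c * (Fintype.card ι : ℤ)) • (1 : Matrix (Fin 2 × (ι × ι)) _ ℤ) else 0 := by
  obtain ⟨i, a⟩ := p
  obtain ⟨j, b⟩ := q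
  have t0 : ∀ b, ((1 : Matrix (Fin 2) (Fin 2) ℤ) ⊗ₖ (G.A b ⊗ₖ G'.Y))ᵀ =
      (1 : Matrix (Fin 2) (Fin 2) ℤ) ⊗ₖ ((G.A b)ᵀ ⊗ₖ G'.Y) := by
    intro b
    rw [← kroneckerMap_transpose, ← kroneckerMap_transpose, transpose_one, G'.YT]
  have t1 : ∀ b, (ep ⊗ₖ (G.E ⊗ₖ G'.A b))ᵀ = (-ep) ⊗ₖ (G.E ⊗ₖ (G'.A b)ᵀ) := by
    intro b
    rw [← kroneckerMap_transpose, ← kroneckerMap_transpose, epT, G.ET]
  have hAT := G.AT a b
  have hAT' := G'.AT a b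
  fin_cases i <;> fin_cases j
  · change ((1 : Matrix (Fin 2) (Fin 2) ℤ) ⊗ₖ (G.A a ⊗ₖ G'.Y)) *
      ((1 : Matrix (Fin 2) (Fin 2) ℤ) ⊗ₖ (G.A b ⊗ₖ G'.Y))ᵀ +
      ((1 : Matrix (Fin 2) (Fin 2) ℤ) ⊗ₖ (G.A b ⊗ₖ G'.Y))ᵀ *
      ((1 : Matrix (Fin 2) (Fin 2) ℤ) ⊗ₖ (G.A a ⊗ₖ G'.Y)) =
      if ((0 : Fin 2), a) = (0, b) then _ else 0
    rw [t0, ← mul_kronecker_mul, ← mul_kronecker_mul, ← mul_kronecker_mul, ← mul_kronecker_mul,
      one_mul, ← kronecker_add, ← add_kronecker, hAT, G'.YY]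
    by_cases h : a = b
    · subst h
      rw [if_pos rfl, if_pos rfl, smul_one_kron, kronecker_smul, one_kronecker_one]
    · rw [if_neg h, if_neg (fun h' => h (Prod.ext_iff.1 h').2), zero_kronecker, kronecker_zero]
  · change ((1 : Matrix (Fin 2) (Fin 2) ℤ) ⊗ₖ (G.A a ⊗ₖ G'.Y)) * (ep ⊗ₖ (G.E ⊗ₖ G'.A b))ᵀ +
      (ep ⊗ₖ (G.E ⊗ₖ G'.A b))ᵀ * ((1 : Matrix (Fin 2) (Fin 2) ℤ) ⊗ₖ (G.A a ⊗ₖ G'.Y)) =
      if ((0 : Fin 2), a) = (1, b) then _ else 0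
    have h1 : Rel (-1) ((1 : Matrix (Fin 2) (Fin 2) ℤ) ⊗ₖ (G.A a ⊗ₖ G'.Y))
        ((-ep) ⊗ₖ (G.E ⊗ₖ (G'.A b)ᵀ)) := by
      simpa using (Rel.one_left (-ep)).kron ((G.AE a).kron ((G'.AtY b).symm (by norm_num)))
    rw [t1, if_neg (fun h' => by simpa using (Prod.ext_iff.1 h').1)]
    unfold Pool.Agent.Y342.SK.Rel at h1
    rw [h1, neg_one_smul, neg_add_cancel]
  · change (ep ⊗ₖ (G.E ⊗ₖ G'.A a)) * ((1 : Matrix (Fin 2) (Fin 2) ℤ) ⊗ₖ (G.A b ⊗ₖ G'.Y))ᵀ +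
      ((1 : Matrix (Fin 2) (Fin 2) ℤ) ⊗ₖ (G.A b ⊗ₖ G'.Y))ᵀ * (ep ⊗ₖ (G.E ⊗ₖ G'.A a)) =
      if ((1 : Fin 2), a) = (0, b) then _ else 0
    have h1 : Rel (-1) (ep ⊗ₖ (G.E ⊗ₖ G'.A a))
        ((1 : Matrix (Fin 2) (Fin 2) ℤ) ⊗ₖ ((G.A b)ᵀ ⊗ₖ G'.Y)) := by
      simpa using (Rel.one_right ep).kron (((G.AtE b).symm (by norm_num)).kron (G'.AY a))
    rw [t0, if_neg (fun h' => by simpa using (Prod.ext_iff.1 h').1)]
    unfold Pool.Agent.Y342.SK.Rel at h1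
    rw [h1, neg_one_smul, neg_add_cancel]
  · change (ep ⊗ₖ (G.E ⊗ₖ G'.A a)) * (ep ⊗ₖ (G.E ⊗ₖ G'.A b))ᵀ +
      (ep ⊗ₖ (G.E ⊗ₖ G'.A b))ᵀ * (ep ⊗ₖ (G.E ⊗ₖ G'.A a)) = if ((1 : Fin 2), a) = (1, b) then _ else 0
    have e1 : ep * -ep = 1 := by rw [mul_neg, ep_ep, neg_neg]
    have e2 : -ep * ep = 1 := by rw [neg_mul, ep_ep, neg_neg]
    rw [t1, ← mul_kronecker_mul, ← mul_kronecker_mul, ← mul_kronecker_mul, ← mul_kronecker_mul,
      e1, e2, ← kronecker_add, ← kronecker_add, hAT', G.EE]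
    by_cases h : a = b
    · subst h
      rw [if_pos rfl, if_pos rfl, smul_one_kron, kronecker_smul, one_kronecker_one, mul_comm]
    · rw [if_neg h, if_neg (fun h' => h (Prod.ext_iff.1 h').2), kronecker_zero, kronecker_zero]

theorem step_sup (x y : Fin 2 × (ι × ι)) :
    ∃ a, Sg (stepA G G' a x y) ∧ ∀ b, b ≠ a → stepA G G' b x y = 0 := by
  obtain ⟨i, x, x'⟩ := x
  obtain ⟨j, y, y'⟩ := y
  by_cases hij : i = j
  · subst hij
    obtain ⟨a, ha, hb⟩ := G.sup x y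
    refine ⟨(0, a), ?_, ?_⟩
    · rw [stepA0]
      simp only [kroneckerMap_apply, Matrix.one_apply_eq, one_mul]
      exact ha.mul (G'.Ys _ _)
    · rintro ⟨k, b⟩ hkb
      fin_cases k
      · change stepA G G' (0, b) _ _ = 0
        rw [stepA0]
        simp only [kroneckerMap_apply, Matrix.one_apply_eq, one_mul]
        rw [hb b (fun h => hkb (by rw [h]; rfl)), zero_mul]
      · change stepA G G' (1, b) _ _ = 0
        rw [stepA1]
        simp only [kroneckerMap_apply, ep_self, zero_mul]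
  · obtain ⟨a, ha, hb⟩ := G'.sup x' y'
    refine ⟨(1, a), ?_, ?_⟩
    · rw [stepA1]
      simp only [kroneckerMap_apply]
      exact (ep_ne _ _ hij).mul ((G.Es _ _).mul ha)
    · rintro ⟨k, b⟩ hkb
      fin_cases k
      · change stepA G G' (0, b) _ _ = 0
        rw [stepA0]
        simp only [kroneckerMap_apply, Matrix.one_apply_ne hij, zero_mul]
      · change stepA G G' (1, b) _ _ = 0
        rw [stepA1]
        simp only [kroneckerMap_apply]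
        rw [hb b (fun h => hkb (by rw [h]; rfl)), mul_zero, mul_zero]

theorem hh_ep : Rel (-1) hh ep := ep_hh.symm (by norm_num)

theorem had_kron {P Q : Matrix ι ι ℤ} (hP : P * P = (Fintype.card ι : ℤ) • (1 : Matrix ι ι ℤ))
    (hQ : Q * Q = (Fintype.card ι : ℤ) • (1 : Matrix ι ι ℤ)) :
    (hh ⊗ₖ (P ⊗ₖ Q)) * (hh ⊗ₖ (P ⊗ₖ Q)) =
      (Fintype.card (Fin 2 × (ι × ι)) : ℤ) • (1 : Matrix (Fin 2 × (ι × ι)) _ ℤ) := by
  rw [← mul_kronecker_mul, ← mul_kronecker_mul, hP, hQ, hh_hh, smul_one_kron, smul_one_kron,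
    card_step]

theorem hh_kron_T {P Q : Matrix ι ι ℤ} (hP : Pᵀ = P) (hQ : Qᵀ = Q) :
    (hh ⊗ₖ (P ⊗ₖ Q))ᵀ = hh ⊗ₖ (P ⊗ₖ Q) := by
  rw [← kroneckerMap_transpose, ← kroneckerMap_transpose, hP, hQ, hhT]

theorem hh_kron_sg {P Q : Matrix ι ι ℤ} (hP : ∀ x y, Sg (P x y)) (hQ : ∀ x y, Sg (Q x y)) :
    ∀ x y, Sg ((hh ⊗ₖ (P ⊗ₖ Q)) x y) := by
  rintro ⟨i, x, x'⟩ ⟨j, y, y'⟩
  simp only [kroneckerMap_apply]
  exact (hh_sg _ _).mul ((hP _ _).mul (hQ _ _))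

theorem step_EA (p : Fin 2 × κ) : Rel (-1) (hh ⊗ₖ (G.E ⊗ₖ G'.Y)) (stepA G G' p) := by
  obtain ⟨i, a⟩ := p
  fin_cases i
  · change Rel (-1) _ ((1 : Matrix (Fin 2) (Fin 2) ℤ) ⊗ₖ (G.A a ⊗ₖ G'.Y))
    simpa using (Rel.one_right hh).kron ((G.EA a).kron (Rel.refl G'.Y))
  · change Rel (-1) _ (ep ⊗ₖ (G.E ⊗ₖ G'.A a))
    simpa using hh_ep.kron ((Rel.refl G.E).kron (G'.YA a))

theorem step_YA (p : Fin 2 × κ) : Rel 1 (hh ⊗ₖ (G.Y ⊗ₖ G'.E)) (stepA G G' p) := by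
  obtain ⟨i, a⟩ := p
  fin_cases i
  · change Rel 1 _ ((1 : Matrix (Fin 2) (Fin 2) ℤ) ⊗ₖ (G.A a ⊗ₖ G'.Y))
    simpa using (Rel.one_right hh).kron ((G.YA a).kron G'.EY)
  · change Rel 1 _ (ep ⊗ₖ (G.E ⊗ₖ G'.A a))
    simpa using hh_ep.kron (G.YE.kron (G'.EA a))

theorem step_EY : Rel 1 (hh ⊗ₖ (G.E ⊗ₖ G'.Y)) (hh ⊗ₖ (G.Y ⊗ₖ G'.E)) := by
  simpa using (Rel.refl hh).kron (G.EY.kron G'.YE)

/-- from two gadgets of order `n` with `r` arms to a gadget of order `2 n ^ 2` with `2 r` arms -/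
def step : Arms (Fin 2 × (ι × ι)) (Fin 2 × κ) (c * (Fintype.card ι : ℤ)) where
  A := stepA G G'
  E := hh ⊗ₖ (G.E ⊗ₖ G'.Y)
  Y := hh ⊗ₖ (G.Y ⊗ₖ G'.E)
  sup := step_sup G G'
  AA := step_AA G G'
  AT := step_AT G G'
  hc := by
    rw [card_step, Fintype.card_prod, Fintype.card_fin]
    push_cast
    have := G.hc
    linear_combination (2 * (Fintype.card ι : ℤ)) * this
  ET := hh_kron_T G.ET G'.YT
  Es := hh_kron_sg G.Es G'.Ys
  EE := had_kron G.EE G'.YY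
  EA := step_EA G G'
  YT := hh_kron_T G.YT G'.ET
  Ys := hh_kron_sg G.Ys G'.Es
  YY := had_kron G.YY G'.EE
  YA := step_YA G G'
  EY := step_EY G G'

/-- the diagonal part of a new skew matrix -/
def dg (G' : Arms ι κ c) (X X' : Matrix ι ι ℤ) : Matrix (ι × ι) (ι × ι) ℤ :=
  X ⊗ₖ G'.Y + (1 : Matrix ι ι ℤ) ⊗ₖ X'

/-- a new skew matrix -/
def part (X X' : Matrix ι ι ℤ) (t : ℤ) : Matrix (Fin 2 × (ι × ι)) (Fin 2 × (ι × ι)) ℤ :=
  (1 : Matrix (Fin 2) (Fin 2) ℤ) ⊗ₖ dg G' X X' + t • (ep ⊗ₖ (G.E ⊗ₖ G'.E))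

variable {G G'}

/-- sign calculus for `X ⊗ Y + 1 ⊗ X'` -/
theorem dg_rel {X X' P Q : Matrix ι ι ℤ} {s t : ℤ} (h1 : Rel s X P) (h2 : Rel t G'.Y Q)
    (hst : s * t = -1) (h3 : Rel (-1) X' Q) :
    Rel (-1) (dg G' X X') (P ⊗ₖ Q) := by
  refine Rel.add_left ?_ ?_
  · rw [← hst]; exact h1.kron h2
  · simpa using (Rel.one_left P).kron h3

theorem rel_smul_left {κ : Type} [Fintype κ] {X Z : Matrix κ κ ℤ} {s : ℤ} (t : ℤ) (h : Rel s X Z) :
    Rel s (t • X) Z := by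
  unfold Pool.Agent.Y342.SK.Rel at *
  rw [smul_mul_assoc, h, mul_smul_comm, smul_comm]

theorem rel_smul_right {κ : Type} [Fintype κ] {X Z : Matrix κ κ ℤ} {s : ℤ} (t : ℤ) (h : Rel s X Z) :
    Rel s X (t • Z) := by
  unfold Pool.Agent.Y342.SK.Rel at *
  rw [smul_mul_assoc, mul_smul_comm, h, smul_comm]

theorem part_A {X X' : Matrix ι ι ℤ} {w w' : ℤ} (hX : IsD G X w) (hX' : IsD G' X' w') (t : ℤ)
    (p : Fin 2 × κ) : Rel (-1) (part G G' X X' t) (stepA G G' p) := by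
  obtain ⟨i, a⟩ := p
  refine Rel.add_left ?_ (rel_smul_left t ?_)
  · fin_cases i
    · change Rel (-1) _ ((1 : Matrix (Fin 2) (Fin 2) ℤ) ⊗ₖ (G.A a ⊗ₖ G'.Y))
      have := dg_rel (G' := G') (hX.XA a) (Rel.refl G'.Y) (by norm_num) hX'.XY
      simpa using (Rel.one_left (1 : Matrix (Fin 2) (Fin 2) ℤ)).kron this
    · change Rel (-1) _ (ep ⊗ₖ (G.E ⊗ₖ G'.A a))
      have := dg_rel (G' := G') hX.XE (G'.YA a) (by norm_num) (hX'.XA a)
      simpa using (Rel.one_left ep).kron this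
  · fin_cases i
    · change Rel (-1) _ ((1 : Matrix (Fin 2) (Fin 2) ℤ) ⊗ₖ (G.A a ⊗ₖ G'.Y))
      simpa using (Rel.one_right ep).kron ((G.EA a).kron G'.EY)
    · change Rel (-1) _ (ep ⊗ₖ (G.E ⊗ₖ G'.A a))
      simpa using (Rel.refl ep).kron ((Rel.refl G.E).kron (G'.EA a))

theorem part_E {X X' : Matrix ι ι ℤ} {w w' : ℤ} (hX : IsD G X w) (hX' : IsD G' X' w') (t : ℤ) :
    Rel (-1) (part G G' X X' t) (hh ⊗ₖ (G.E ⊗ₖ G'.Y)) := by
  refine Rel.add_left ?_ (rel_smul_left t ?_)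
  · have := dg_rel (G' := G') hX.XE (Rel.refl G'.Y) (by norm_num) hX'.XY
    simpa using (Rel.one_left hh).kron this
  · simpa using ep_hh.kron ((Rel.refl G.E).kron G'.EY)

theorem part_Y {X X' : Matrix ι ι ℤ} {w w' : ℤ} (hX : IsD G X w) (hX' : IsD G' X' w') (t : ℤ) :
    Rel (-1) (part G G' X X' t) (hh ⊗ₖ (G.Y ⊗ₖ G'.E)) := by
  refine Rel.add_left ?_ (rel_smul_left t ?_)
  · have := dg_rel (G' := G') hX.XY G'.YE (by norm_num) hX'.XE
    simpa using (Rel.one_left hh).kron this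
  · simpa using ep_hh.kron (G.EY.kron (Rel.refl G'.E))

theorem part_T {X X' : Matrix ι ι ℤ} (hX : Xᵀ = -X) (hX' : X'ᵀ = -X') (t : ℤ) :
    (part G G' X X' t)ᵀ = -part G G' X X' t := by
  unfold part dg
  rw [transpose_add, ← kroneckerMap_transpose, transpose_add, transpose_smul,
    ← kroneckerMap_transpose, ← kroneckerMap_transpose, ← kroneckerMap_transpose,
    ← kroneckerMap_transpose, transpose_one, transpose_one, hX, hX', G'.YT, G.ET, G'.ET, epT]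
  ext i j
  simp only [Matrix.add_apply, Matrix.neg_apply, Matrix.smul_apply, kroneckerMap_apply, smul_eq_mul]
  ring

theorem rel_ee {X X' : Matrix ι ι ℤ} {w w' : ℤ} (hX : IsD G X w) (hX' : IsD G' X' w') :
    Rel (-1) ((1 : Matrix (Fin 2) (Fin 2) ℤ) ⊗ₖ dg G' X X') (ep ⊗ₖ (G.E ⊗ₖ G'.E)) := by
  have := dg_rel (G' := G') hX.XE G'.YE (by norm_num) hX'.XE
  simpa using (Rel.one_left ep).kron this

theorem part_sq {X X' : Matrix ι ι ℤ} {w w' : ℤ} (hX : IsD G X w) (hX' : IsD G' X' w') {t : ℤ}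
    (ht : t = 0 ∨ t = 1) : part G G' X X' t * part G G' X X' t =
    (-(w * (Fintype.card ι : ℤ) + w' + t * ((Fintype.card ι : ℤ) * (Fintype.card ι : ℤ)))) •
      (1 : Matrix (Fin 2 × (ι × ι)) (Fin 2 × (ι × ι)) ℤ) := by
  have h1 : Rel (-1) ((1 : Matrix (Fin 2) (Fin 2) ℤ) ⊗ₖ dg G' X X') (t • (ep ⊗ₖ (G.E ⊗ₖ G'.E))) :=
    rel_smul_right t (rel_ee hX hX')
  have h0 : Rel (-1) (X ⊗ₖ G'.Y) ((1 : Matrix ι ι ℤ) ⊗ₖ X') := by
    simpa using (Rel.one_right X).kron (hX'.XY.symm (by norm_num))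
  have h2 : dg G' X X' * dg G' X X' = (-(w * (Fintype.card ι : ℤ) + w')) •
      (1 : Matrix (ι × ι) (ι × ι) ℤ) := by
    unfold dg
    rw [sq_add h0, ← mul_kronecker_mul, ← mul_kronecker_mul, hX.XX, G'.YY, hX'.XX, smul_one_kron,
      one_mul, kronecker_smul, one_kronecker_one, ← add_smul]
    congr 1
    ring
  have h3 : (t • (ep ⊗ₖ (G.E ⊗ₖ G'.E))) * (t • (ep ⊗ₖ (G.E ⊗ₖ G'.E))) =
      (-(t * ((Fintype.card ι : ℤ) * (Fintype.card ι : ℤ)))) •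
        (1 : Matrix (Fin 2 × (ι × ι)) (Fin 2 × (ι × ι)) ℤ) := by
    have e1 : (-1 : Matrix (Fin 2) (Fin 2) ℤ) = (-1 : ℤ) • 1 := by simp
    rw [smul_mul_smul_comm, ← mul_kronecker_mul, ← mul_kronecker_mul, ep_ep, G.EE, G'.EE,
      smul_one_kron, e1, smul_one_kron, smul_smul]
    congr 1
    rcases ht with rfl | rfl <;> ring
  unfold part
  rw [sq_add h1, ← mul_kronecker_mul, h2, h3, one_mul, kronecker_smul, one_kronecker_one, ← add_smul]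
  congr 1
  ring

theorem isD_step {X X' : Matrix ι ι ℤ} {w w' : ℤ} (hX : IsD G X w) (hX' : IsD G' X' w') {t : ℤ}
    (ht : t = 0 ∨ t = 1) : IsD (step G G') (part G G' X X' t)
    (w * (Fintype.card ι : ℤ) + w' + t * ((Fintype.card ι : ℤ) * (Fintype.card ι : ℤ))) where
  XT := part_T hX.XT hX'.XT t
  XX := part_sq hX hX' ht
  XA := part_A hX hX' t
  XE := part_E hX hX' t
  XY := part_Y hX hX' t

theorem part_part {P P' Q Q' : Matrix ι ι ℤ} {a a' b b' : ℤ} (hP : IsD G P a) (hP' : IsD G' P' a')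
    (hQ : IsD G Q b) (hQ' : IsD G' Q' b') (h : Rel (-1) P Q) (h' : Rel (-1) P' Q') {t u : ℤ}
    (htu : t * u = 0) : Rel (-1) (part G G' P P' t) (part G G' Q Q' u) := by
  refine Rel.add_left (Rel.add_right ?_ ?_) (Rel.add_right ?_ ?_)
  · have h1 : Rel (-1) (dg G' P P') (dg G' Q Q') := by
      refine Rel.add_left (Rel.add_right ?_ ?_) (Rel.add_right ?_ ?_)
      · simpa using h.kron (Rel.refl G'.Y)
      · simpa using (Rel.one_right P).kron (hQ'.XY.symm (by norm_num))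
      · simpa using (Rel.one_left Q).kron hP'.XY
      · simpa using (Rel.refl (1 : Matrix ι ι ℤ)).kron h'
    simpa using (Rel.refl (1 : Matrix (Fin 2) (Fin 2) ℤ)).kron h1
  · exact rel_smul_right u (rel_ee hP hP')
  · exact rel_smul_left t ((rel_ee hQ hQ').symm (by norm_num))
  · unfold Pool.Agent.Y342.SK.Rel
    rw [smul_mul_smul_comm, smul_mul_smul_comm, mul_comm u t, htu, zero_smul, smul_zero]

theorem part_apply (X X' : Matrix ι ι ℤ) (t : ℤ) (i : Fin 2) (x x' : ι) (j : Fin 2) (y y' : ι) :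
    part G G' X X' t (i, (x, x')) (j, (y, y')) = (if i = j then
      X x y * G'.Y x' y' + (if x = y then X' x' y' else 0) else 0) +
      t * (ep i j * (G.E x y * G'.E x' y')) := by
  simp only [part, dg, Matrix.add_apply, Matrix.smul_apply, kroneckerMap_apply, Matrix.one_apply,
    smul_eq_mul]
  congr 1
  by_cases h : i = j
  · rw [if_pos h, if_pos h, one_mul]
    congr 1
    by_cases h' : x = y
    · rw [if_pos h', if_pos h', one_mul]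
    · rw [if_neg h', if_neg h', zero_mul]
  · rw [if_neg h, if_neg h, zero_mul]

theorem part_self {X X' : Matrix ι ι ℤ} (h : ∀ x, X x x = 0) (h' : ∀ x, X' x x = 0) (t : ℤ)
    (x : Fin 2 × (ι × ι)) : part G G' X X' t x x = 0 := by
  obtain ⟨i, x, x'⟩ := x
  rw [part_apply, if_pos rfl, if_pos rfl, h, h', ep_self]
  ring

/-- a pair for the product -/
theorem isPair_step {P P' Q Q' : Matrix ι ι ℤ} {d d' : ℕ} (h : IsPair G P Q d)
    (h' : IsPair G' P' Q' d') {e : ℕ} (he : e < 2) :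
    ∃ R S, IsPair (step G G') R S (d * Fintype.card ι + d' + e * (Fintype.card ι * Fintype.card ι)) := by
  obtain ⟨t, u, htu, ht, hu, hte, hue, hor⟩ : ∃ t u : ℤ, t * u = 0 ∧ (t = 0 ∨ t = 1) ∧ (u = 0 ∨ u = 1) ∧
      t = e ∧ u = 1 - e ∧ ((t = 0 ∧ u = 1) ∨ (t = 1 ∧ u = 0)) := by
    have : e = 0 ∨ e = 1 := by omega
    rcases this with rfl | rfl
    · exact ⟨0, 1, by norm_num, Or.inl rfl, Or.inr rfl, by simp, by simp, Or.inl ⟨rfl, rfl⟩⟩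
    · exact ⟨1, 0, by norm_num, Or.inr rfl, Or.inl rfl, by simp, by simp, Or.inr ⟨rfl, rfl⟩⟩
  refine ⟨part G G' P P' t, part G G' Q Q' u, ?_, ?_, part_part h.hP h'.hP h.hQ h'.hQ h.PQ h'.PQ htu,
    part_self h.P0 h'.P0 t, part_self h.Q0 h'.Q0 u, ?_⟩
  · have := isD_step h.hP h'.hP ht
    rw [hte] at this ⊢
    convert this using 1
    push_cast
    ring
  · have := isD_step h.hQ h'.hQ hu
    rw [hue] at this ⊢
    convert this using 1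
    rw [card_step]
    push_cast
    ring
  · rintro ⟨i, x, x'⟩ ⟨j, y, y'⟩ hne
    rw [part_apply, part_apply]
    by_cases hij : i = j
    · subst hij
      simp only [if_pos, ep_self, zero_mul, mul_zero, add_zero]
      by_cases hxy : x = y
      · subst hxy
        simp only [if_pos, h.P0, h.Q0, zero_mul, zero_add]
        exact h'.PQ1 x' y' fun h' => hne (by rw [h'])
      · rw [if_neg hxy, if_neg hxy, add_zero, add_zero]
        rcases h.PQ1 x y hxy with ⟨h1, h2⟩ | ⟨h1, h2⟩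
        · left
          exact ⟨h1.mul (G'.Ys _ _), by rw [h2, zero_mul]⟩
        · right
          exact ⟨by rw [h1, zero_mul], h2.mul (G'.Ys _ _)⟩
    · rw [if_neg hij, if_neg hij, zero_add, zero_add]
      have hs : Sg (ep i j * (G.E x y * G'.E x' y')) :=
        (ep_ne _ _ hij).mul ((G.Es _ _).mul (G'.Es _ _))
      rcases hor with ⟨h1, h2⟩ | ⟨h1, h2⟩
      · right
        rw [h1, h2, zero_mul, one_mul]
        exact ⟨rfl, hs⟩
      · left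
        rw [h1, h2, zero_mul, one_mul]
        exact ⟨hs, rfl⟩

end Arms

end Pool.Agent.N328.PH
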