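import Pool.Agent.Y342.SK.Base
import Pool.Agent.N328.PH.Gad

/-!
# The basic gadget with all splittings of its skew matrix
-/

set_option autoImplicit false
set_option linter.unusedSectionVars false

namespace Pool.Agent.N328.PH

open Matrix Finset
open Pool.Agent.Y342.SK

/-- the index of the part of the skew matrix to which a position belongs -/
def dig (i j : Fin 16) : ℕ := (3334655584417591109032187829971915814516882387342613995593710403529926014894074039422080096437178519601469070919343271294493936583001282897340458464045820 >>> (2 * (16 * i.val + j.val))) % 4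

/-- the part of weight `d` of the skew matrix -/
def bP (d : Fin 16) : Matrix (Fin 16) (Fin 16) ℤ :=
  Matrix.of fun i j => if d.val.testBit (dig i j) then bD i j else 0

/-- the complementary weight -/
def cmp (d : Fin 16) : Fin 16 := ⟨15 - d.val, by omega⟩

set_option maxRecDepth 100000 in
theorem q_PP : ∀ d i j : Fin 16, ∑ k : Fin 16, bP d i k * bP d k j = if i = j then -(d.val : ℤ) else 0 := by
  decide +kernel

set_option maxRecDepth 100000 in
theorem q_PT : ∀ d i j : Fin 16, bP d j i = - bP d i j := by decide +kernel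

set_option maxRecDepth 100000 in
theorem q_P0 : ∀ d i : Fin 16, bP d i i = 0 := by decide +kernel

/-- one of the two numbers is `0`, the other `1` or `-1` -/
def ok1 (a b : ℤ) : Bool := (a == 1 && b == 0) || (a == -1 && b == 0) || (a == 0 && b == 1) ||
  (a == 0 && b == -1)

set_option maxRecDepth 100000 in
theorem q_sup' : ∀ d i j : Fin 16, (i == j || ok1 (bP d i j) (bP (cmp d) i j)) = true := by
  decide +kernel

theorem q_sup (d i j : Fin 16) (h : i ≠ j) : (Sg (bP d i j) ∧ bP (cmp d) i j = 0) ∨
    (bP d i j = 0 ∧ Sg (bP (cmp d) i j)) := by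
  have h1 := q_sup' d i j
  simp only [ok1, Bool.or_eq_true, Bool.and_eq_true, beq_iff_eq] at h1
  unfold Sg
  tauto

set_option maxRecDepth 100000 in
theorem q_PF : ∀ d i j : Fin 16, ∑ k : Fin 16, (bP d i k * bF k j + bF i k * bP d k j) = 0 := by
  decide +kernel

set_option maxRecDepth 100000 in
theorem q_PE : ∀ d i j : Fin 16, ∑ k : Fin 16, (bP d i k * bE k j + bE i k * bP d k j) = 0 := by
  decide +kernel

set_option maxRecDepth 100000 in
theorem q_PY : ∀ d i j : Fin 16, ∑ k : Fin 16, (bP d i k * bY k j + bY i k * bP d k j) = 0 := by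
  decide +kernel

set_option maxRecDepth 100000 in
theorem q_PQ : ∀ d i j : Fin 16, ∑ k : Fin 16, (bP d i k * bP (cmp d) k j +
    bP (cmp d) i k * bP d k j) = 0 := by
  decide +kernel

/-- the basic arms -/
def bArms : Arms (Fin 16) (Fin 1) 32 where
  A := base.A
  E := base.E
  Y := base.Y
  sup := base.sup
  AA := base.AA
  AT := base.AT
  hc := base.hc
  ET := base.ET
  Es := base.Es
  EE := base.EE
  EA := base.EA
  YT := base.YT
  Ys := base.Ys
  YY := base.YY
  YA := base.YA
  EY := base.EY

theorem bP_isD (d : Fin 16) : IsD bArms (bP d) (d.val : ℤ) where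
  XT := by
    ext i j
    exact q_PT d i j
  XX := sq_eq (q_PP d)
  XA := fun _ => rel_neg (q_PF d)
  XE := rel_neg (q_PE d)
  XY := rel_neg (q_PY d)

theorem bPair (d : Fin 16) : IsPair bArms (bP d) (bP (cmp d)) d.val where
  hP := bP_isD d
  hQ := by
    have h := bP_isD (cmp d)
    have e : ((cmp d).val : ℤ) = (Fintype.card (Fin 16) : ℤ) - 1 - (d.val : ℤ) := by
      have : (cmp d).val = 15 - d.val := rfl
      rw [this, Fintype.card_fin]
      have := d.isLt
      omega
    rwa [e] at h
  PQ := rel_neg (q_PQ d)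
  P0 := q_P0 d
  Q0 := q_P0 (cmp d)
  PQ1 := q_sup d

/-- gadgets with `2 ^ k` arms of order `2 ^ (5 * 2 ^ k - 1)` and pairs of all weights -/
theorem exists_arms (k : ℕ) : ∃ (ι κ : Type) (_ : Fintype ι) (_ : DecidableEq ι) (_ : Fintype κ)
    (_ : DecidableEq κ) (c : ℤ), Fintype.card ι = 2 ^ (5 * 2 ^ k - 1) ∧ Fintype.card κ = 2 ^ k ∧
      ∀ d : ℕ, d < Fintype.card ι → ∃ (G : Arms ι κ c) (P Q : Matrix ι ι ℤ), IsPair G P Q d := by
  induction k with
  | zero =>
    refine ⟨Fin 16, Fin 1, inferInstance, inferInstance, inferInstance, inferInstance, 32,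
      by simp, by simp, fun d hd => ?_⟩
    rw [Fintype.card_fin] at hd
    exact ⟨bArms, _, _, bPair ⟨d, hd⟩⟩
  | succ k ih =>
    obtain ⟨ι, κ, i1, i2, i3, i4, c, h1, h2, h3⟩ := ih
    refine ⟨Fin 2 × (ι × ι), Fin 2 × κ, inferInstance, inferInstance, inferInstance,
      inferInstance, c * (Fintype.card ι : ℤ), ?_, ?_, fun d hd => ?_⟩
    · rw [Fintype.card_prod, Fintype.card_prod, Fintype.card_fin, h1, ← pow_add, ← pow_succ']
      congr 1
      have : 1 ≤ 2 ^ k := Nat.one_le_two_pow
      rw [pow_succ]
      omega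
    · rw [Fintype.card_prod, Fintype.card_fin, h2, pow_succ']
    · rw [Fintype.card_prod, Fintype.card_prod, Fintype.card_fin] at hd
      obtain ⟨J, hJ⟩ : ∃ J, J = Fintype.card ι := ⟨_, rfl⟩
      rw [← hJ] at hd h3
      have hJ0 : 0 < J := by
        rcases Nat.eq_zero_or_pos J with h | h
        · rw [h] at hd; omega
        · exact h
      have hlt : d % (J * J) / J < J := Nat.div_lt_of_lt_mul (Nat.mod_lt _ (by positivity))
      obtain ⟨G, P, Q, hG⟩ := h3 (d % (J * J) / J) hlt
      obtain ⟨G', P', Q', hG'⟩ := h3 (d % (J * J) % J) (Nat.mod_lt _ hJ0)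
      have he : d / (J * J) < 2 := Nat.div_lt_of_lt_mul (by linarith)
      obtain ⟨R, S, hRS⟩ := Arms.isPair_step hG hG' he
      refine ⟨Arms.step G G', R, S, ?_⟩
      subst hJ
      obtain ⟨J, hJ⟩ : ∃ J, J = Fintype.card ι := ⟨_, rfl⟩
      have e : d % (Fintype.card ι * Fintype.card ι) / Fintype.card ι * Fintype.card ι +
          d % (Fintype.card ι * Fintype.card ι) % Fintype.card ι +
          d / (Fintype.card ι * Fintype.card ι) * (Fintype.card ι * Fintype.card ι) = d := by
        rw [← hJ]
        have e1 := Nat.div_add_mod (d % (J * J)) J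
        have e2 := Nat.div_add_mod d (J * J)
        rw [mul_comm J] at e1
        rw [mul_comm (J * J)] at e2
        omega
      rwa [e] at hRS

end Pool.Agent.N328.PH
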