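import Pool.Agent.W851.Had.Tower

/-!
# Growth: the size of the matrices against the iterated logarithm
-/

set_option autoImplicit false

namespace Pool.Agent.N328.PH

open Pool.Agent.W851.Had (tow tow_succ tow_pos tow_zero)
open Pool.Agent.H108R3.Had (PUk)

theorem sq_le_two_pow (M : ℕ) (h : 4 ≤ M) : M * M ≤ 2 ^ M := by
  induction M, h using Nat.le_induction with
  | base => norm_num
  | succ M hM ih =>
    calc (M + 1) * (M + 1) ≤ 2 * (M * M) := by nlinarith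
      _ ≤ 2 * 2 ^ M := Nat.mul_le_mul_left _ ih
      _ = 2 ^ (M + 1) := by rw [pow_succ]; ring

theorem tow_ge (M : ℕ) : M + 1 ≤ tow M := by
  induction M with
  | zero => exact le_rfl
  | succ M ih =>
    rw [tow_succ]
    have : M + 1 < 2 ^ (M + 1) := Nat.lt_two_pow_self
    have h2 := Nat.pow_le_pow_right (n := 2) (by norm_num) ih
    omega

theorem tow_mono {a b : ℕ} (h : a ≤ b) : tow a ≤ tow b := by
  induction b, h using Nat.le_induction with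
  | base => exact le_rfl
  | succ b _ ih =>
    rw [tow_succ]
    exact ih.trans Nat.lt_two_pow_self.le

theorem tow_big (C : ℕ) : ∃ M0 : ℕ, ∀ M : ℕ, M0 ≤ M → C ^ (M + 5) + 5 ≤ tow M := by
  obtain ⟨c, hc⟩ : ∃ c : ℕ, C ≤ 2 ^ c := ⟨C, Nat.lt_two_pow_self.le⟩
  refine ⟨8 * c + 12, fun M hM => ?_⟩
  obtain ⟨M', rfl⟩ : ∃ M', M = M' + 2 := ⟨M - 2, by omega⟩
  rw [tow_succ, tow_succ]
  have h1 : M' + 1 ≤ tow M' := tow_ge M'
  have h2 : (M' + 1) * (M' + 1) ≤ 2 ^ tow M' :=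
    (sq_le_two_pow (M' + 1) (by omega)).trans (Nat.pow_le_pow_right (by norm_num) h1)
  have h3 : c * (M' + 7) + 3 ≤ 2 ^ tow M' := by nlinarith
  have h4 : C ^ (M' + 2 + 5) ≤ 2 ^ (c * (M' + 7)) := by
    rw [pow_mul]; exact Nat.pow_le_pow_left hc _
  have h5 : 5 ≤ 2 ^ (c * (M' + 7)) * 7 := by
    have : 1 ≤ 2 ^ (c * (M' + 7)) := Nat.one_le_two_pow
    omega
  calc C ^ (M' + 2 + 5) + 5 ≤ 2 ^ (c * (M' + 7)) + 2 ^ (c * (M' + 7)) * 7 := Nat.add_le_add h4 h5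
    _ = 2 ^ (c * (M' + 7) + 3) := by rw [pow_add]; ring
    _ ≤ 2 ^ 2 ^ tow M' := Nat.pow_le_pow_right (by norm_num) h3

/-- for large `n` there are para-unitary matrices of all lengths up to `n` of a size which is tiny
compared with `log n` -/
theorem growth : ∃ N0 : ℕ, ∀ n : ℕ, N0 ≤ n → ∃ k : ℕ, (∀ l ≤ n, PUk k l) ∧
    ((2 ^ (5 * 2 ^ (k + 2) - 1) : ℕ) : ℝ) ≤ Real.log n := by
  obtain ⟨C, -, hC⟩ := Pool.Agent.W851.Had.main_pu
  obtain ⟨M0, hM0⟩ := tow_big C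
  refine ⟨tow (M0 + 4) + 1, fun n hn => ?_⟩
  -- the least `T` with `n ≤ tow T`
  have hex : ∃ T, n ≤ tow T := ⟨n, (Nat.le_succ n).trans (tow_ge n)⟩
  classical
  obtain ⟨T, hT, hmin⟩ : ∃ T, n ≤ tow T ∧ ∀ T' < T, ¬ n ≤ tow T' :=
    ⟨Nat.find hex, Nat.find_spec hex, fun T' h => Nat.find_min hex h⟩
  have hTM : M0 + 4 < T := by
    by_contra h
    have := tow_mono (not_lt.1 h)
    omega
  obtain ⟨M, rfl⟩ : ∃ M, T = M + 4 := ⟨T - 4, by omega⟩
  refine ⟨C ^ (M + 4 + 1), fun l hl => hC (M + 4) l _ (hl.trans hT) le_rfl, ?_⟩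
  have h1 : tow (M + 3) < n := not_le.1 (hmin (M + 3) (by omega))
  have h2 := hM0 M (by omega)
  have h3 : 5 * 2 ^ (C ^ (M + 4 + 1) + 2) ≤ tow (M + 1) := by
    rw [tow_succ]
    calc 5 * 2 ^ (C ^ (M + 4 + 1) + 2) ≤ 2 ^ 3 * 2 ^ (C ^ (M + 4 + 1) + 2) :=
          Nat.mul_le_mul_right _ (by norm_num)
      _ = 2 ^ (C ^ (M + 5) + 5) := by
          rw [← pow_add]; congr 1
          have : C ^ (M + 4 + 1) = C ^ (M + 5) := rfl
          omega
      _ ≤ 2 ^ tow M := Nat.pow_le_pow_right (by norm_num) h2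
  have h4 : 2 ^ (5 * 2 ^ (C ^ (M + 4 + 1) + 2) - 1) * 2 ≤ tow (M + 2) := by
    rw [tow_succ, ← pow_succ]
    refine Nat.pow_le_pow_right (by norm_num) ?_
    have : 0 < 2 ^ (C ^ (M + 4 + 1) + 2) := by positivity
    omega
  have h5 : Real.log (tow (M + 3) : ℕ) = tow (M + 2) * Real.log 2 := by
    rw [tow_succ (M + 2), Nat.cast_pow, Real.log_pow]
    norm_num
  have h6 : Real.log (tow (M + 3) : ℕ) ≤ Real.log n := by
    apply Real.log_le_log
    · exact_mod_cast tow_pos _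
    · exact_mod_cast h1.le
  have h7 := Real.log_two_gt_d9
  have h8 : ((2 ^ (5 * 2 ^ (C ^ (M + 4 + 1) + 2) - 1) * 2 : ℕ) : ℝ) ≤ (tow (M + 2) : ℕ) := by
    exact_mod_cast h4
  rw [Nat.cast_mul, Nat.cast_ofNat] at h8
  have h9 : (0 : ℝ) ≤ (tow (M + 2) : ℕ) := Nat.cast_nonneg _
  rw [h5] at h6
  nlinarith

end Pool.Agent.N328.PH
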