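import Pool.Agent.N328.PH.Two

/-!
# Partial Hadamard matrices on two levels
-/

set_option autoImplicit false

namespace Pool.Agent.N328.PH

open Pool.Agent.H108R3.Had (PUk HasHad)

/-- the lower level -/
theorem lower {k K J q n n₁ n₂ e σ : ℕ} (hk : 1 ≤ k) (hK : K = 2 ^ k) (hq : q % 2 = 1)
    (hJ : J = 2 ^ (5 * 2 ^ (k + 2) - 1)) (hPU : ∀ l ≤ n, PUk k l) (hqn : q ≤ n) (hn1 : n₁ ≤ n)
    (h4 : 4 ∣ n₁) (h4e : 4 ∣ e) (he1 : 1 ≤ e) (he2 : e ≤ K * (K * q) * J)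
    (hσ : n₁ = e + (K * q) * (K * q) * J * σ)
    (hd : (2 * (K * q) * J : ℤ) ∣ (n₁ : ℤ) - n₂ - K * q * J) (h12 : n₂ < n₁)
    (hlo : K * q * n₂ + K * ((K * q) * (K * q) * (K * q)) * J ≤ n₁)
    (hhi : n₁ ≤ (K * q + 1) * n₂) (hH : HasPH n₂ n₂) : HasPH (n₁ - n₂) n₁ := by
  have hK2 : 2 ≤ K := by
    rw [hK]
    calc 2 = 2 ^ 1 := rfl
      _ ≤ 2 ^ k := Nat.pow_le_pow_right (by norm_num) hk
  have hJ1 : 1 ≤ J := by rw [hJ]; exact Nat.one_le_two_pow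
  have hq1 : 1 ≤ q := by omega
  obtain ⟨r, hr⟩ : ∃ r, r = K * q := ⟨_, rfl⟩
  have hr1 : 1 ≤ r := by rw [hr]; exact Nat.mul_pos (by omega) hq1
  rw [← hr] at hlo hhi he2 hσ
  have hd' : (2 * r * J : ℤ) ∣ (n₁ : ℤ) - n₂ - r * J := by
    rw [hr]; push_cast; exact hd
  have : NeZero r := ⟨by omega⟩
  have hHad : HasHad r := by
    rw [hr, hK]
    exact Pool.Agent.H108R3.Had.t_P7 k q (hPU q hqn)
  obtain ⟨KK, hKK⟩ := isK_of_had hHad
  -- the length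
  obtain ⟨S, hS⟩ : ∃ S, n₂ + r * (J * (2 * S + 1)) = n₁ := by
    obtain ⟨t, ht⟩ := hd'
    have hrJ : (0 : ℤ) < r * J := by positivity
    have ht0 : 0 ≤ t := by
      by_contra hneg
      have h1 : t ≤ -1 := by omega
      have h2 : (2 * r * J : ℤ) * t ≤ (2 * r * J) * (-1) :=
        mul_le_mul_of_nonneg_left h1 (by positivity)
      have h3 : (n₂ : ℤ) < n₁ := by exact_mod_cast h12
      linarith
    obtain ⟨S, rfl⟩ := Int.eq_ofNat_of_zero_le ht0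
    refine ⟨S, ?_⟩
    have : (n₂ : ℤ) + r * (J * (2 * S + 1)) = n₁ := by linear_combination -ht
    exact_mod_cast this
  -- the parameters
  obtain ⟨m, hm⟩ := h4
  obtain ⟨ρ, hρ⟩ := h4e
  obtain ⟨q4, hq4⟩ : ∃ q4, 4 * q4 = r * r := by
    obtain ⟨k', rfl⟩ : ∃ k', k = k' + 1 := ⟨k - 1, by omega⟩
    refine ⟨2 ^ k' * q * (2 ^ k' * q), ?_⟩
    rw [hr, hK, pow_succ]
    ring
  have hm' : m = ρ + J * (q4 * σ) := by
    have h1 : 4 * m = 4 * (ρ + J * (q4 * σ)) := by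
      rw [← hm, hσ, hρ, ← hq4]; ring
    omega
  have hρ1 : 1 ≤ ρ := by omega
  have hD : J * ((ρ - 1) / J) ≤ ρ - 1 := Nat.mul_div_le _ _
  obtain ⟨D, hDdef⟩ : ∃ D, D = (ρ - 1) / J := ⟨_, rfl⟩
  rw [← hDdef] at hD
  have hQ : (m - 1) / J = D + q4 * (σ - σ / 2 + σ / 2) := by
    have e1 : m - 1 = (ρ - 1) + J * (q4 * σ) := by omega
    have e2 : σ - σ / 2 + σ / 2 = σ := by omega
    rw [e1, Nat.add_mul_div_left _ _ (by omega), e2, ← hDdef]
  have hx : (r - 1) * (σ - σ / 2) + D ≤ S := by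
    apply arith2 (σ := σ) hr1 hJ1 hS _ (by rw [hσ]; exact Nat.le_add_left _ _) (by omega)
    -- `r n₂ + r ^ 3 J + 2 r ^ 2 J D ≤ n₁`
    refine le_trans ?_ hlo
    have h1 : 4 * (J * D) ≤ K * r * J := by omega
    have h2 : r * r * (4 * (J * D)) ≤ r * r * (K * r * J) := Nat.mul_le_mul_left _ h1
    have h3 : 2 * (r * r * r * J) ≤ K * (r * r * r * J) := Nat.mul_le_mul_right _ hK2
    have h4 : r * r * (4 * (J * D)) = 2 * (2 * (r * r * J * D)) := by ring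
    have h5 : r * r * (K * r * J) = K * (r * r * r * J) := by ring
    have h6 : K * (r * r * r) * J = K * (r * r * r * J) := by ring
    rw [h4, h5] at h2
    rw [h6]
    omega
  have hfin := param2 (k := k) (r := r) (m := m) (S := S) (ν := n₂) hKK hq4 (by omega)
    (fun l hl => hPU l (by
      have e1 : S ≤ r * (J * (2 * S + 1)) := by
        calc S ≤ 1 * (1 * (2 * S + 1)) := by omega
          _ ≤ r * (J * (2 * S + 1)) := Nat.mul_le_mul hr1 (Nat.mul_le_mul hJ1 le_rfl)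
      omega)) hJ (by rw [← hm]; exact hS) (hH.mono (by
      have e1 : r * (J * (2 * S + 1)) ≤ r * n₂ := by
        have : (r + 1) * n₂ = r * n₂ + n₂ := by ring
        omega
      exact Nat.le_of_mul_le_mul_left e1 (by omega))) (x := σ - σ / 2) (y := σ / 2) hQ (by omega) hx
  rw [← hm] at hfin
  have e : r * (J * (2 * S + 1)) = n₁ - n₂ := by omega
  rw [e] at hfin
  exact hfin

/-- the upper level -/
theorem upper {k J s r n n₁ k₁ : ℕ} (hk : 1 ≤ k) (hr : r = 2 ^ s) (hs : 1 ≤ s)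
    (hJ : J = 2 ^ (5 * 2 ^ (k + 2) - 1)) (hPU : ∀ l ≤ n, PUk k l) (h4 : 4 ∣ n) (hn0 : 0 < n)
    (hd : (2 * r * J : ℤ) ∣ (n : ℤ) - n₁ - r * J) (h1n : n₁ < n)
    (hB : r * n₁ + r * r * r * r * J ≤ n) (hA : n ≤ n₁ + r * k₁) (hH : HasPH k₁ n₁) :
    HasPH (n - n₁) n := by
  have hJ1 : 1 ≤ J := by rw [hJ]; exact Nat.one_le_two_pow
  have hr2 : 2 ≤ r := by
    rw [hr]
    calc 2 = 2 ^ 1 := rfl
      _ ≤ 2 ^ s := Nat.pow_le_pow_right (by norm_num) hs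
  obtain ⟨S, hS⟩ : ∃ S, n₁ + r * (J * (2 * S + 1)) = n := by
    obtain ⟨t, ht⟩ := hd
    have hrJ : (0 : ℤ) < r * J := by positivity
    have ht0 : 0 ≤ t := by
      by_contra hneg
      have h1 : t ≤ -1 := by omega
      have h2 : (2 * r * J : ℤ) * t ≤ (2 * r * J) * (-1) :=
        mul_le_mul_of_nonneg_left h1 (by positivity)
      have h3 : (n₁ : ℤ) < n := by exact_mod_cast h1n
      linarith
    obtain ⟨S, rfl⟩ := Int.eq_ofNat_of_zero_le ht0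
    refine ⟨S, ?_⟩
    have : (n₁ : ℤ) + r * (J * (2 * S + 1)) = n := by linear_combination -ht
    exact_mod_cast this
  obtain ⟨m, hm⟩ := h4
  have hm1 : 1 ≤ m := by omega
  obtain ⟨q4, hq4, hq40⟩ : ∃ q4, 4 * q4 = r * r ∧ 0 < q4 := by
    obtain ⟨s', rfl⟩ : ∃ s', s = s' + 1 := ⟨s - 1, by omega⟩
    refine ⟨2 ^ s' * 2 ^ s', ?_, by positivity⟩
    rw [hr, pow_succ]
    ring
  obtain ⟨Q, hQ⟩ : ∃ Q, Q = (m - 1) / J := ⟨_, rfl⟩
  have hdm := Nat.div_add_mod Q q4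
  have hmod := Nat.mod_lt Q hq40
  obtain ⟨σ, hσ⟩ : ∃ σ, σ = Q / q4 := ⟨_, rfl⟩
  obtain ⟨D, hD⟩ : ∃ D, D = Q % q4 := ⟨_, rfl⟩
  rw [← hσ, ← hD] at hdm
  rw [← hD] at hmod
  have hx : (r - 1) * (σ - σ / 2) + D ≤ S := by
    apply arith2 (σ := σ) (by omega) hJ1 hS _ _ (by omega)
    · refine le_trans ?_ hB
      have h1 : 4 * D + 4 ≤ r * r := by omega
      have h2 : r * r * J * (4 * D + 4) ≤ r * r * J * (r * r) := Nat.mul_le_mul_left _ h1
      have h3 : 2 * (r * r * r * J) ≤ r * r * J * (r * r) := by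
        calc 2 * (r * r * r * J) = r * r * J * (r * 2) := by ring
          _ ≤ r * r * J * (r * r) := Nat.mul_le_mul_left _ (Nat.mul_le_mul_left _ hr2)
      have h4 : r * r * J * (4 * D + 4) = 2 * (2 * (r * r * J * D)) + 4 * (r * r * J) := by ring
      have h5 : r * r * J * (r * r) = r * r * r * r * J := by ring
      rw [h4, h5] at h2
      rw [h5] at h3
      omega
    · have h1 : q4 * σ ≤ Q := by omega
      have h2 : J * Q ≤ m - 1 := by rw [hQ]; exact Nat.mul_div_le _ _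
      have h3 : J * (q4 * σ) ≤ J * Q := Nat.mul_le_mul_left _ h1
      have h4 : r * r * J * σ = 4 * (J * (q4 * σ)) := by rw [← hq4]; ring
      omega
  have hrK : NeZero r := ⟨by omega⟩
  have hK : ∃ K : Matrix (Fin r) (Fin r) ℤ, IsK r K := by
    subst hr
    exact ⟨_, isK_syl s⟩
  obtain ⟨K, hK⟩ := hK
  have hfin := param2 (k := k) (r := r) (m := m) (S := S) (ν := n₁) (D := D) hK hq4 hm1
    (fun l hl => hPU l (by
      have e1 : S ≤ r * (J * (2 * S + 1)) := by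
        calc S ≤ 1 * (1 * (2 * S + 1)) := by omega
          _ ≤ r * (J * (2 * S + 1)) := Nat.mul_le_mul (by omega) (Nat.mul_le_mul hJ1 le_rfl)
      omega)) hJ (by rw [← hm]; exact hS) (hH.mono (by
      have e1 : r * (J * (2 * S + 1)) ≤ r * k₁ := by omega
      exact Nat.le_of_mul_le_mul_left e1 (by omega))) (x := σ - σ / 2) (y := σ / 2) (by
        have e2 : σ - σ / 2 + σ / 2 = σ := by omega
        rw [e2, ← hQ]
        omega) (by omega) hx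
  rw [← hm] at hfin
  have e : r * (J * (2 * S + 1)) = n - n₁ := by omega
  rw [e] at hfin
  exact hfin

/-- two levels -/
theorem two_level {n k s p J K r : ℕ} (hk : 1 ≤ k) (hs : 2 * k ≤ s) (hPU : ∀ l ≤ n, PUk k l)
    (hJ : J = 2 ^ (5 * 2 ^ (k + 2) - 1)) (hK : K = 2 ^ k) (hr : r = 2 ^ s) (h4 : 4 ∣ n)
    (hp : p.Prime) (hmod : (2 * K * J : ℤ) ∣ (n : ℤ) - (p + 1 : ℕ) - K * J)
    (hX1 : n ≤ 32 * K * r * r * (p + 1)) (hX2 : 8 * K * r * r * (p + 1) ≤ n)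
    (hbig : 2 ^ 22 * K ^ 5 * J * r ^ 5 ≤ n) :
    ∃ n₁, n₁ ≤ n ∧ r * n₁ ≤ n ∧ HasPH (n - n₁) n := by
  obtain ⟨n₂, hn₂⟩ : ∃ n₂, n₂ = p + 1 := ⟨_, rfl⟩
  rw [← hn₂] at hmod hX1 hX2
  have hn₂1 : 1 ≤ n₂ := by omega
  have hK2 : 2 ≤ K := by
    rw [hK]
    calc 2 = 2 ^ 1 := rfl
      _ ≤ 2 ^ k := Nat.pow_le_pow_right (by norm_num) hk
  have hr4 : 4 ≤ r := by
    rw [hr]
    calc 4 = 2 ^ 2 := rfl
      _ ≤ 2 ^ s := Nat.pow_le_pow_right (by norm_num) (by omega)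
  have hJ1 : 1 ≤ J := by rw [hJ]; exact Nat.one_le_two_pow
  have hJ2 : 2 ∣ J := by
    rw [hJ]
    apply dvd_pow_self
    have : 0 < 2 ^ (k + 2) := by positivity
    omega
  have hK2' : 2 ∣ K := by
    rw [hK]
    exact dvd_pow_self 2 (by omega)
  have hr2' : 2 ∣ r := by
    rw [hr]
    exact dvd_pow_self 2 (by omega)
  have hKJ4 : 4 ∣ K * J := mul_dvd_mul hK2' hJ2
  have hrJ4 : 4 ∣ r * J := mul_dvd_mul hr2' hJ2
  have hn0 : 0 < n := by
    have : 0 < 8 * K * r * r * n₂ := by positivity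
    omega
  have hp4 : p % 4 = 3 := by
    obtain ⟨a, ha⟩ := hKJ4
    obtain ⟨b, hb⟩ := h4
    obtain ⟨c, hc⟩ := hmod
    have ha' : (K : ℤ) * J = 4 * a := by exact_mod_cast ha
    have h1 : (n₂ : ℤ) = 4 * (b - a - 2 * a * c) := by
      have hb' : (n : ℤ) = 4 * b := by exact_mod_cast hb
      linear_combination -hc + hb' - (1 + 2 * c) * ha'
    have h2 : (4 : ℤ) ∣ n₂ := ⟨_, h1⟩
    have h3 : 4 ∣ n₂ := by exact_mod_cast h2
    omega
  -- the number `q`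
  obtain ⟨u, hu⟩ : ∃ u, u = (n - r * r * r * r * J) / (r * n₂) := ⟨_, rfl⟩
  have hrn : 0 < r * n₂ := Nat.mul_pos (by omega) (by omega)
  have hA1 : r * r * r * r * J * 2 ≤ n := by
    refine le_trans ?_ hbig
    have e1 : 2 ^ 22 * K ^ 5 * J * r ^ 5 = (r * r * r * r * J) * (2 ^ 22 * K ^ 5 * r) := by ring
    rw [e1]
    apply Nat.mul_le_mul_left
    have : 0 < K ^ 5 * r := by positivity
    nlinarith
  have hu1 : r * n₂ * u ≤ n - r * r * r * r * J := by rw [hu]; exact Nat.mul_div_le _ _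
  have hu2 : n - r * r * r * r * J < r * n₂ * (u + 1) := by
    rw [hu]; exact Nat.lt_mul_div_succ _ hrn
  have hu3 : 2 * K + 1 ≤ u := by
    rw [hu, Nat.le_div_iff_mul_le hrn]
    have h1 : (2 * K + 1) * (r * n₂) * 2 ≤ 8 * K * r * r * n₂ := by
      calc (2 * K + 1) * (r * n₂) * 2 ≤ (8 * K * r) * (r * n₂) := by
            rw [mul_assoc, mul_comm (r * n₂) 2, ← mul_assoc]
            apply Nat.mul_le_mul_right
            nlinarith
        _ = 8 * K * r * r * n₂ := by ring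
    omega
  obtain ⟨q, hq1, hq2, hq3⟩ := choose_q (by omega) hu3
  have hF1 : r * n₂ * (K * q + 1) + r * r * r * r * J ≤ n := by
    have := Nat.mul_le_mul_left (r * n₂) hq2
    omega
  have hF2 : n < r * r * r * r * J + r * n₂ * (K * q + 2 * K + 1) := by
    have : r * n₂ * (u + 1) ≤ r * n₂ * (K * q + 2 * K + 1) := Nat.mul_le_mul_left _ (by omega)
    omega
  obtain ⟨hz1, hz2, hz3⟩ := sizes hK2 hJ1 hr4 hn₂1 hX1 hX2 hbig hF1 hF2
  -- the residues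
  obtain ⟨e, he1, he2, he3, he4⟩ := choose_e hk hK hq1 hJ1 hmod
  obtain ⟨μ, σ₀, hμ, hσ₀, hσ⟩ := choose_σ hK hr hs hq1 he3
  have hμ0 : 0 < μ := by
    rcases Nat.eq_zero_or_pos μ with h | h
    · rw [h, mul_zero] at hμ; omega
    · exact h
  obtain ⟨lo, hlo⟩ : ∃ lo, lo = K * q * n₂ + K * ((K * q) * (K * q) * (K * q)) * J := ⟨_, rfl⟩
  obtain ⟨M, hM⟩ : ∃ M, M = (K * q) * (K * q) * J * μ := ⟨_, rfl⟩
  have hM' : M = 2 * r * q * q * J := by
    have : M = (K * K * μ) * (q * q * J) := by rw [hM]; ring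
    rw [this, hμ]; ring
  have hq0 : 0 < q := by omega
  have hM0 : 0 < M := by rw [hM']; positivity
  have hKq1 : 2 ≤ K * q := by nlinarith
  have hb : e + (K * q) * (K * q) * J * σ₀ ≤ lo := by
    have h1 : (K * q) * (K * q) * J * σ₀ ≤ M := by
      rw [hM]; exact Nat.mul_le_mul_left _ hσ₀.le
    have h2 : M ≤ n₂ := by rw [hM']; omega
    have h3 : n₂ ≤ K * q * n₂ := Nat.le_mul_of_pos_left _ (by omega)
    have h4 : K * (K * q) * J ≤ K * ((K * q) * (K * q) * (K * q)) * J := by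
      apply Nat.mul_le_mul_right
      apply Nat.mul_le_mul_left
      have : 1 ≤ (K * q) * (K * q) := Nat.mul_pos (by omega) (by omega)
      exact Nat.le_mul_of_pos_left _ this
    omega
  obtain ⟨j, hj1, hj2⟩ := walk hM0 hb
  obtain ⟨σ, hσdef⟩ : ∃ σ, σ = σ₀ + μ * j := ⟨_, rfl⟩
  have hσd := hσ j
  rw [← hσdef] at hσd
  obtain ⟨n₁, hn₁⟩ : ∃ n₁, n₁ = e + (K * q) * (K * q) * J * σ := ⟨_, rfl⟩
  have hn₁' : n₁ = e + (K * q) * (K * q) * J * σ₀ + M * j := by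
    rw [hn₁, hσdef, hM]; ring
  rw [← hn₁'] at hj1 hj2
  have hdn : (2 * r * J : ℤ) ∣ (n : ℤ) - n₁ - r * J := by
    have e1 : (n₁ : ℤ) = e + (K * q) * (K * q) * J * σ := by exact_mod_cast hn₁
    rw [e1]
    exact hσd
  -- the interval
  have hM2 : K * ((K * q) * (K * q) * (K * q)) * J + M + 1 ≤ n₂ := by rw [hM']; exact hz2
  have hhi : n₁ ≤ (K * q + 1) * n₂ := by
    have : (K * q + 1) * n₂ = K * q * n₂ + n₂ := by ring
    omega
  have hB : r * n₁ + r * r * r * r * J ≤ n := by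
    have h1 : r * n₁ ≤ r * ((K * q + 1) * n₂) := Nat.mul_le_mul_left _ hhi
    have h2 : r * ((K * q + 1) * n₂) = r * n₂ * (K * q + 1) := by ring
    omega
  have hrn1 : r * n₁ ≤ n := by omega
  have h12 : n₂ < n₁ := by
    have h1 : 2 * n₂ ≤ K * q * n₂ := Nat.mul_le_mul_right _ hKq1
    omega
  have h1n : n₁ < n := by
    have h1 : 4 * n₁ ≤ r * n₁ := Nat.mul_le_mul_right _ hr4
    omega
  have hqn : q ≤ n := by
    have h1 : q ≤ K * q * n₂ := by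
      calc q = 1 * q * 1 := by ring
        _ ≤ K * q * n₂ := Nat.mul_le_mul (Nat.mul_le_mul_right _ (by omega)) hn₂1
    omega
  -- divisibility by four
  have h4n : 4 ∣ n₁ := by
    obtain ⟨a, ha⟩ := hrJ4
    obtain ⟨b, hb⟩ := h4
    obtain ⟨c, hc⟩ := hdn
    have ha' : (r : ℤ) * J = 4 * a := by exact_mod_cast ha
    have hb' : (n : ℤ) = 4 * b := by exact_mod_cast hb
    have h1 : (4 : ℤ) ∣ n₁ := ⟨b - a - 2 * a * c, by linear_combination -hc + hb' - (1 + 2 * c) * ha'⟩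
    exact_mod_cast h1
  have h4e : 4 ∣ e := by
    obtain ⟨a, ha⟩ := mul_dvd_mul hK2' (dvd_mul_of_dvd_left hK2' J)
    obtain ⟨b, hb⟩ := h4
    obtain ⟨c, hc⟩ := he3
    have ha' : (K : ℤ) * (K * J) = 2 * 2 * a := by exact_mod_cast ha
    have hb' : (n : ℤ) = 4 * b := by exact_mod_cast hb
    have h1 : (4 : ℤ) ∣ e := ⟨b - a * c, by linear_combination -hc + hb' - c * ha'⟩
    exact_mod_cast h1
  have hd2 : (2 * (K * q) * J : ℤ) ∣ (n₁ : ℤ) - n₂ - K * q * J := by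
    obtain ⟨a, ha⟩ := he4
    obtain ⟨b, hb⟩ := hK2'
    have hb' : (K : ℤ) = 2 * b := by exact_mod_cast hb
    have e1 : (n₁ : ℤ) = e + (K * q) * (K * q) * J * σ := by exact_mod_cast hn₁
    refine ⟨a + b * q * σ, ?_⟩
    rw [e1]
    linear_combination ha + (K : ℤ) * q * q * J * σ * hb'
  have hlow := lower hk hK hq1 hJ hPU hqn h1n.le h4n h4e he1 he2 hn₁ hd2 h12 (by rw [← hlo]; exact hj1)
    hhi (hn₂ ▸ hasPH_paley hp hp4)
  refine ⟨n₁, h1n.le, hrn1, upper hk hr (by omega) hJ hPU h4 hn0 hdn h1n hB ?_ hlow⟩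
  -- enough rows
  have h1 : (r + 1) * (K * q * n₂) ≤ (r + 1) * n₁ := Nat.mul_le_mul_left _ (by omega)
  have h2 : r * (n₁ - n₂) = r * n₁ - r * n₂ := Nat.mul_sub _ _ _
  have h3 : (r + 1) * n₁ = r * n₁ + n₁ := by ring
  have h4 : r * n₂ ≤ r * n₁ := Nat.mul_le_mul_left _ h12.le
  omega

end Pool.Agent.N328.PH
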