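import Pool.Agent.H373R2.T7.LamMaj

/-!
# Primes in progressions and short intervals
-/

set_option autoImplicit false

namespace Pool.Agent.N328.PH

open Finset Filter Topology
open ArithmeticFunction (vonMangoldt)

/-- powers of the logarithm against the square root -/
theorem log_pow_le (K : ℕ) : ∃ N0 : ℕ, ∀ n : ℕ, N0 ≤ n → Real.log n ^ K ≤ Real.sqrt n := by
  have h1 : ∀ᶠ y : ℝ in atTop, Real.log y ^ K ≤ y ^ (1 / 2 : ℝ) := by
    have h2 := (isLittleO_log_rpow_rpow_atTop (K : ℝ) (show (0 : ℝ) < 1 / 2 by norm_num)).bound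
      (show (0 : ℝ) < 1 by norm_num)
    filter_upwards [h2, eventually_ge_atTop 1] with y hy hy1
    have hl : 0 ≤ Real.log y := Real.log_nonneg hy1
    rw [Real.rpow_natCast, Real.norm_of_nonneg (by positivity),
      Real.norm_of_nonneg (Real.rpow_nonneg (by linarith) _), one_mul] at hy
    exact hy
  have h3 := tendsto_natCast_atTop_atTop (R := ℝ) |>.eventually h1
  obtain ⟨N0, h4⟩ := eventually_atTop.1 h3
  exact ⟨N0, fun n hn => by rw [Real.sqrt_eq_rpow]; exact h4 n hn⟩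

/-- a prime in a residue class and a short interval -/
theorem prime_ap (A : ℕ) : ∃ N0 : ℕ, ∀ n : ℕ, N0 ≤ n → ∀ q c y z : ℕ, 1 ≤ q →
    (q : ℝ) ≤ Real.log n ^ A → c.Coprime q → y ≤ z → z ≤ n →
    (n : ℝ) / Real.log n ^ A ≤ (z : ℝ) - y → ∃ p, p.Prime ∧ y < p ∧ p ≤ z ∧ p ≡ c [MOD q] := by
  obtain ⟨N1, h1⟩ := Pool.Agent.H373R2.T7.lam_ap A (2 * A + 1)
  obtain ⟨N2, h2⟩ := log_pow_le (2 * A + 2)
  refine ⟨max (max N1 N2) ⌈Real.exp 10⌉₊, fun n hn q c y z hq hqA hc hyz hzn hlen => ?_⟩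
  have hn1 : N1 ≤ n := (le_trans (le_max_left _ _) (le_max_left _ _)).trans hn
  have hn2 : N2 ≤ n := (le_trans (le_max_right _ _) (le_max_left _ _)).trans hn
  have hn3 : Real.exp 10 ≤ n := (Nat.le_ceil _).trans (by exact_mod_cast (le_max_right _ _).trans hn)
  have hn0 : (0 : ℝ) < n := lt_of_lt_of_le (Real.exp_pos _) hn3
  have hL : 10 ≤ Real.log n := by
    rw [Real.le_log_iff_exp_le hn0]; exact hn3
  set L := Real.log n with hLdef
  have hL0 : 0 < L := by linarith
  by_contra hcon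
  push Not at hcon
  -- the sum over the interval
  have e1 := h1 n hn1 q hq hqA c y (hyz.trans hzn)
  have e2 := h1 n hn1 q hq hqA c z hzn
  rw [if_pos hc] at e1 e2
  have hφ : (0 : ℝ) < (Nat.totient q : ℝ) := by exact_mod_cast Nat.totient_pos.2 hq
  have hφq : (Nat.totient q : ℝ) ≤ L ^ A := le_trans (by exact_mod_cast Nat.totient_le q) hqA
  have hsub : (Icc 1 y).filter (fun n => n ≡ c [MOD q]) ⊆ (Icc 1 z).filter (fun n => n ≡ c [MOD q]) :=
    filter_subset_filter _ (Icc_subset_Icc le_rfl hyz)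
  have hdiff : ∑ k ∈ (Icc 1 z).filter (fun n => n ≡ c [MOD q]), vonMangoldt k -
      ∑ k ∈ (Icc 1 y).filter (fun n => n ≡ c [MOD q]), vonMangoldt k ≤ 2 * √n * L := by
    rw [← Finset.sum_sdiff hsub, add_sub_cancel_right]
    refine le_trans ?_ (Chebyshev.psi_sub_theta_le (x := n) (by linarith [Real.add_one_le_exp (10 : ℝ)]))
    rw [Chebyshev.psi_sub_theta_eq_sum_not_prime, Nat.floor_natCast]
    have hnn : ∀ i : ℕ, 0 ≤ vonMangoldt i := fun i => ArithmeticFunction.vonMangoldt_nonneg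
    apply Finset.sum_le_sum_of_subset_of_nonneg
    · intro k hk
      rw [Finset.mem_sdiff, Finset.mem_filter, Finset.mem_filter, Finset.mem_Icc, Finset.mem_Icc] at hk
      rw [Finset.mem_filter, Finset.mem_Ioc]
      obtain ⟨⟨⟨hk1, hk2⟩, hk3⟩, hk4⟩ := hk
      have hyk : y < k := by
        by_contra h
        exact hk4 ⟨⟨hk1, not_lt.1 h⟩, hk3⟩
      exact ⟨⟨by omega, by omega⟩, fun hp => hcon k hp hyk hk2 hk3⟩
    · intro k _ _
      exact hnn k
  have hs0 : 0 < √(n : ℝ) := Real.sqrt_pos.2 hn0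
  have hss : √(n : ℝ) * √(n : ℝ) = n := Real.mul_self_sqrt hn0.le
  have e3 := h2 n hn2
  rw [← hLdef] at e3
  rw [abs_le] at e1 e2
  -- main term
  have hmain : (n : ℝ) / (L ^ A * L ^ A) ≤ ((z : ℝ) - y) / (Nat.totient q : ℝ) := by
    rw [div_le_div_iff₀ (by positivity) hφ]
    rw [div_le_iff₀ (by positivity)] at hlen
    calc (n : ℝ) * (Nat.totient q : ℝ) ≤ (((z : ℝ) - y) * L ^ A) * L ^ A := by
          apply mul_le_mul hlen hφq hφ.le
          have : 0 ≤ ((z : ℝ) - y) := by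
            have : (y : ℝ) ≤ z := by exact_mod_cast hyz
            linarith
          positivity
      _ = _ := by ring
  have hkey : (n : ℝ) / (L ^ A * L ^ A) ≤ 2 * (n / L ^ (2 * A + 1)) + 2 * √n * L := by
    have e4 : ((z : ℝ) - y) / (Nat.totient q : ℝ) = (z : ℝ) / (Nat.totient q : ℝ) - y / (Nat.totient q : ℝ) :=
      sub_div _ _ _
    linarith
  -- contradiction
  have hA : L ^ A * L ^ A = L ^ (2 * A) := by rw [← pow_add]; congr 1; ring
  have e5 : (n : ℝ) / L ^ (2 * A + 1) = (n / L ^ (2 * A)) / L := by rw [pow_succ]; field_simp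
  have e6 : √(n : ℝ) * L ≤ (n / L ^ (2 * A)) / L := by
    rw [← e5, le_div_iff₀ (by positivity)]
    calc √(n : ℝ) * L * L ^ (2 * A + 1) = √n * L ^ (2 * A + 2) := by ring
      _ ≤ √n * √n := by gcongr
      _ = n := hss
  rw [hA, e5] at hkey
  set X := (n : ℝ) / L ^ (2 * A) with hX
  have hX0 : 0 < X := by positivity
  have e7 : X / L ≤ X / 10 := by
    apply div_le_div_of_nonneg_left hX0.le (by norm_num) hL
  linarith

end Pool.Agent.N328.PH
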