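import Pool.Agent.N328.PH.Par
import Pool.Agent.N328.PH.Growth
import Pool.Agent.N328.PH.Prime

/-!
# Partial Hadamard matrices with `n - n / (log n) ^ A` rows
-/

set_option autoImplicit false

namespace Pool.Agent.N328.PH

open Pool.Agent.H108R3.Had (PUk)

/-- the arithmetic of the parameters -/
theorem arith {r J S n p m σ D x q4 : ℕ} (hr : 2 ≤ r) (hJ : 1 ≤ J) (hq4 : 4 * q4 = r * r)
    (h0 : p + 1 + r * (J * (2 * S + 1)) = n) (h1 : r * (p + 1) + r * r * r * r * J ≤ n)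
    (hn : n = 4 * m) (hσ : q4 * σ * J + 1 ≤ m) (hD : D < q4) (hx : 2 * x ≤ σ + 1) :
    (r - 1) * x + D ≤ S := by
  obtain ⟨r', rfl⟩ : ∃ r', r = r' + 1 := ⟨r - 1, by omega⟩
  rw [Nat.add_sub_cancel]
  have hr' : 1 ≤ r' := by omega
  set R : ℤ := (r' : ℤ) + 1 with hR
  have hR2 : (2 : ℤ) ≤ R := by rw [hR]; omega
  -- everything over the integers
  have g0 : (p : ℤ) + 1 + R * (J * (2 * S + 1)) = n := by rw [hR]; exact_mod_cast h0
  have g1 : R * (p + 1) + R * R * R * R * J ≤ n := by rw [hR]; exact_mod_cast h1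
  have gq : 4 * (q4 : ℤ) = R * R := by rw [hR]; exact_mod_cast hq4
  have gσ : (q4 : ℤ) * σ * J + 1 ≤ m := by exact_mod_cast hσ
  have gn : (n : ℤ) = 4 * m := by exact_mod_cast hn
  have gD : (D : ℤ) + 1 ≤ q4 := by exact_mod_cast hD
  have gx : 2 * (x : ℤ) ≤ σ + 1 := by exact_mod_cast hx
  have gJ : (1 : ℤ) ≤ J := by exact_mod_cast hJ
  have gσ0 : (0 : ℤ) ≤ σ := by positivity
  have gp0 : (0 : ℤ) ≤ p := by positivity
  -- `R R J σ ≤ n`
  have a1 : R * R * J * σ ≤ n := by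
    have : R * R * J * σ = 4 * (q4 * σ * J) := by rw [← gq]; ring
    linarith
  have a2 : R * R * J * (2 * S) ≥ (R - 1) * n + R * R * R * R * J - R * R * J := by
    have e : R * (p + 1 + R * (J * (2 * S + 1))) = R * n := by rw [g0]
    nlinarith
  have a3 : R * R * J * (2 * (r' * x + D)) ≤ R * R * J * (2 * S) := by
    have b1 : 2 * ((r' : ℤ) * x) ≤ r' * (σ + 1) := by
      have : (0 : ℤ) ≤ r' := by positivity
      nlinarith
    have b2 : (4 : ℤ) * D + 4 ≤ R * R := by linarith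
    have hRJ : (0 : ℤ) ≤ R * R * J := by positivity
    have b3 : R * R * J * (2 * ((r' : ℤ) * x)) ≤ R * R * J * (r' * (σ + 1)) :=
      mul_le_mul_of_nonneg_left b1 hRJ
    have b4 : R * R * J * (2 * (2 * (D : ℤ))) ≤ R * R * J * (R * R - 4) :=
      mul_le_mul_of_nonneg_left (by linarith) hRJ
    have b5 : (r' : ℤ) * (R * R * J * σ) ≤ r' * n :=
      mul_le_mul_of_nonneg_left a1 (by positivity)
    have b6 : (r' : ℤ) = R - 1 := by rw [hR]; ring
    have b7 : R * R * J * (R * R) ≥ 2 * (R * R * J * R) := by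
      have : R * R * J * (R * R) - 2 * (R * R * J * R) = (R * R * J) * (R * (R - 2)) := by ring
      have h2 : 0 ≤ (R * R * J) * (R * (R - 2)) := by
        apply mul_nonneg hRJ
        apply mul_nonneg <;> linarith
      linarith
    rw [b6] at b3 b5 ⊢
    nlinarith
  have hpos : (0 : ℤ) < R * R * J := by positivity
  have a4 := le_of_mul_le_mul_left a3 hpos
  have : (r' : ℤ) * x + D ≤ S := by linarith
  exact_mod_cast this

theorem select {A : ℕ} {L n : ℝ} (hL : 16 ≤ L) {r J : ℝ} (hr : 2 ≤ r) (hr2 : r ≤ 2 * L ^ A)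
    (hJ : J ≤ L) (hJ0 : 1 ≤ J) (hn : L ^ (5 * A + 8) ≤ √n) (hn0 : 0 < n) :
    n / L ^ (2 * A + 3) ≤ n / (r * (r + 1)) - (r ^ 3 * J + 3) := by
  have hs0 : 0 < √n := Real.sqrt_pos.2 hn0
  have hss : √n * √n = n := Real.mul_self_sqrt hn0.le
  have hL0 : 0 < L := by linarith
  have hLA : 1 ≤ L ^ A := one_le_pow₀ (by linarith)
  have h1 : r * (r + 1) ≤ 8 * L ^ (2 * A) := by
    have e : L ^ (2 * A) = L ^ A * L ^ A := by rw [← pow_add]; congr 1; ring
    rw [e]
    nlinarith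
  have h2 : n / (8 * L ^ (2 * A)) ≤ n / (r * (r + 1)) :=
    div_le_div_of_nonneg_left hn0.le (by positivity) h1
  have h3 : n / L ^ (2 * A + 3) ≤ n / (16 * L ^ (2 * A)) := by
    apply div_le_div_of_nonneg_left hn0.le (by positivity)
    rw [pow_add, mul_comm]
    apply mul_le_mul_of_nonneg_left _ (by positivity)
    nlinarith [sq_nonneg L, pow_pos hL0 3]
  have h4 : r ^ 3 * J + 3 ≤ 11 * L ^ (3 * A + 1) := by
    have e1 : r ^ 3 ≤ (2 * L ^ A) ^ 3 := pow_le_pow_left₀ (by linarith) hr2 3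
    have e2 : (2 * L ^ A) ^ 3 = 8 * L ^ (3 * A) := by rw [mul_pow, ← pow_mul, mul_comm A 3]; norm_num
    have e3 : r ^ 3 * J ≤ 8 * L ^ (3 * A) * L := by
      rw [← e2]
      exact mul_le_mul e1 hJ (by linarith) (by positivity)
    have e4 : 1 ≤ L ^ (3 * A + 1) := one_le_pow₀ (by linarith)
    have e5 : L ^ (3 * A + 1) = L ^ (3 * A) * L := pow_succ _ _
    nlinarith
  have h5 : 11 * L ^ (3 * A + 1) ≤ n / (16 * L ^ (2 * A)) := by
    rw [le_div_iff₀ (by positivity)]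
    calc 11 * L ^ (3 * A + 1) * (16 * L ^ (2 * A)) = 176 * L ^ (5 * A + 1) := by
          have : L ^ (5 * A + 1) = L ^ (3 * A + 1) * L ^ (2 * A) := by rw [← pow_add]; congr 1; ring
          rw [this]; ring
      _ ≤ L ^ 2 * L ^ (5 * A + 1) := by
          apply mul_le_mul_of_nonneg_right _ (by positivity)
          nlinarith
      _ = L ^ (5 * A + 3) := by rw [← pow_add]; congr 1; ring
      _ ≤ L ^ (5 * A + 8) := pow_le_pow_right₀ (by linarith) (by omega)
      _ ≤ √n := hn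
      _ ≤ √n * √n := by
          have : 1 ≤ √n := le_trans (one_le_pow₀ (by linarith)) hn
          nlinarith
      _ = n := hss
  have h6 : n / (8 * L ^ (2 * A)) = n / (16 * L ^ (2 * A)) + n / (16 * L ^ (2 * A)) := by
    field_simp; ring
  linarith

/-- partial Hadamard matrices with `n - n / (log n) ^ A` rows -/
theorem main (A : ℕ) : ∃ N0 : ℕ, ∀ n : ℕ, N0 ≤ n → 4 ∣ n →
    ∃ k : ℕ, (n : ℝ) - n / Real.log n ^ A ≤ k ∧ HasPH k n := by
  obtain ⟨N1, h1⟩ := growth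
  obtain ⟨N2, h2⟩ := prime_ap (2 * A + 3)
  obtain ⟨N3, h3⟩ := log_pow_le (5 * A + 8)
  refine ⟨max (max N1 N2) (max N3 ⌈Real.exp 16⌉₊), fun n hn h4 => ?_⟩
  have hn1 : N1 ≤ n := (le_trans (le_max_left _ _) (le_max_left _ _)).trans hn
  have hn2 : N2 ≤ n := (le_trans (le_max_right _ _) (le_max_left _ _)).trans hn
  have hn3 : N3 ≤ n := (le_trans (le_max_left _ _) (le_max_right _ _)).trans hn
  have hn4 : Real.exp 16 ≤ n :=
    (Nat.le_ceil _).trans (by exact_mod_cast (le_trans (le_max_right _ _) (le_max_right _ _)).trans hn)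
  have hn0 : (0 : ℝ) < n := lt_of_lt_of_le (Real.exp_pos _) hn4
  have hn0' : 0 < n := by exact_mod_cast hn0
  have hL : 16 ≤ Real.log n := by
    rw [Real.le_log_iff_exp_le hn0]; exact hn4
  obtain ⟨k, hPU, hJL⟩ := h1 n hn1
  obtain ⟨J, hJdef⟩ : ∃ J : ℕ, J = 2 ^ (5 * 2 ^ (k + 2) - 1) := ⟨_, rfl⟩
  rw [← hJdef] at hJL
  have hsq := h3 n hn3
  have hpr := h2 n hn2
  obtain ⟨L, hLdef⟩ : ∃ L : ℝ, L = Real.log n := ⟨_, rfl⟩
  rw [← hLdef] at hL hJL hsq hpr ⊢
  have hL0 : 0 < L := by linarith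
  have hLA : 1 ≤ L ^ A := one_le_pow₀ (by linarith)
  -- the number of repetitions
  obtain ⟨s', hs1, hs2⟩ := exists_nat_pow_near hLA (show (1 : ℝ) < 2 by norm_num)
  obtain ⟨s, hs⟩ : ∃ s, s = s' + 1 := ⟨_, rfl⟩
  obtain ⟨r, hr⟩ : ∃ r : ℕ, r = 2 ^ s := ⟨_, rfl⟩
  have hr2 : 2 ≤ r := by
    rw [hr, hs, pow_succ]
    have : 1 ≤ 2 ^ s' := Nat.one_le_two_pow
    omega
  have hrR : (r : ℝ) = 2 ^ s' * 2 := by rw [hr, hs]; push_cast; rw [pow_succ]
  have hrL : (r : ℝ) ≤ 2 * L ^ A := by rw [hrR]; linarith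
  have hLr : L ^ A ≤ r := by rw [hrR, ← pow_succ]; exact hs2.le
  have hr2R : (2 : ℝ) ≤ r := by exact_mod_cast hr2
  have hJ1 : 1 ≤ J := by rw [hJdef]; exact Nat.one_le_two_pow
  have hJ1R : (1 : ℝ) ≤ J := by exact_mod_cast hJ1
  have hsel := select (A := A) hL hr2R hrL hJL hJ1R hsq hn0
  -- the interval
  have hr0 : (0 : ℝ) < r := by linarith
  obtain ⟨y, hy⟩ : ∃ y, y = n / (r + 1) := ⟨_, rfl⟩
  obtain ⟨z, hz⟩ : ∃ z, z = n / r - (r * r * r * J + 1) := ⟨_, rfl⟩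
  have hyR : (y : ℝ) ≤ n / (r + 1) := by
    rw [hy]
    have := Nat.cast_div_le (α := ℝ) (m := n) (n := r + 1)
    push_cast at this
    exact this
  have hzR : (n : ℝ) / r - 1 ≤ (n / r : ℕ) := by
    have e1 := Nat.lt_div_mul_add (a := n) (b := r) (by omega)
    have e2 : (n : ℝ) < (n / r : ℕ) * r + r := by exact_mod_cast e1
    have e3 : (n : ℝ) / r < (n / r : ℕ) + 1 := by
      rw [div_lt_iff₀ hr0]; linarith
    linarith
  have hnr : (n : ℝ) / r - n / (r + 1) = n / (r * (r + 1)) := by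
    field_simp; ring
  have hlen0 : 0 < (n : ℝ) / L ^ (2 * A + 3) := by positivity
  have hy0 : (0 : ℝ) ≤ n / (r + 1) := by positivity
  have hzz : (r * r * r * J + 1 : ℕ) ≤ n / r := by
    have e1 : ((r * r * r * J + 1 : ℕ) : ℝ) ≤ (n / r : ℕ) := by
      push_cast
      have e2 : (r : ℝ) ^ 3 * J = r * r * r * J := by ring
      push_cast at hzR
      linarith
    exact_mod_cast e1
  have hzR2 : (z : ℝ) = (n / r : ℕ) - (r ^ 3 * J + 1) := by
    rw [hz, Nat.cast_sub hzz]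
    push_cast
    ring
  have hlen : (n : ℝ) / L ^ (2 * A + 3) ≤ (z : ℝ) - y := by
    rw [hzR2]; linarith
  have hyz : y ≤ z := by
    have : (y : ℝ) ≤ z := by linarith
    exact_mod_cast this
  have hzn : z ≤ n := by
    rw [hz]
    exact (Nat.sub_le _ _).trans (Nat.div_le_self _ _)
  -- the prime
  have hq : ((2 * r * J : ℕ) : ℝ) ≤ L ^ (2 * A + 3) := by
    push_cast
    calc (2 : ℝ) * r * J ≤ 2 * (2 * L ^ A) * L := by
          apply mul_le_mul _ hJL (by linarith) (by positivity)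
          linarith
      _ = 4 * (L ^ A * L) := by ring
      _ ≤ L * (L ^ A * L) := by
          apply mul_le_mul_of_nonneg_right _ (by positivity)
          linarith
      _ = L ^ (A + 2) := by ring
      _ ≤ L ^ (2 * A + 3) := pow_le_pow_right₀ (by linarith) (by omega)
  have h4r : 4 ∣ r * J := by
    have e1 : 2 ∣ r := by rw [hr, hs, pow_succ]; exact dvd_mul_left _ _
    have e2 : 2 ∣ J := by
      rw [hJdef]
      apply dvd_pow_self
      have : 0 < 2 ^ (k + 2) := by positivity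
      omega
    exact mul_dvd_mul e1 e2
  have hcop : (n - 1 + r * J).Coprime (2 * r * J) := by
    have e1 : Odd (n - 1 + r * J) := by
      obtain ⟨a, ha⟩ := h4
      obtain ⟨b, hb⟩ := h4r
      rw [hb, ha]
      exact ⟨2 * a - 1 + 2 * b, by omega⟩
    have e2 : 2 * r * J = 2 ^ (s + 1 + (5 * 2 ^ (k + 2) - 1)) := by
      rw [hr, hJdef, ← pow_succ', ← pow_add]
    rw [e2]
    exact Nat.Coprime.pow_right _ (Nat.Coprime.symm (Nat.coprime_two_left.2 e1))
  obtain ⟨p, hp, hyp, hpz, hpc⟩ := hpr (2 * r * J) (n - 1 + r * J) y z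
    (Nat.mul_pos (by omega) hJ1) hq hcop hyz hzn hlen
  -- consequences
  have hp1 : p + 1 + r * r * r * J ≤ n / r := by omega
  have hp2 : r * (p + 1) + r * r * r * r * J ≤ n := by
    have e1 := Nat.mul_le_mul_left r hp1
    have e2 := Nat.mul_div_le n r
    calc r * (p + 1) + r * r * r * r * J = r * (p + 1 + r * r * r * J) := by ring
      _ ≤ n := e1.trans e2
  have hp3 : p + 1 ≤ n := by
    have : p + 1 ≤ r * (p + 1) := Nat.le_mul_of_pos_left _ (by omega)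
    omega
  have hp4 : n ≤ (r + 1) * (p + 1) := by
    have e1 := Nat.lt_mul_div_succ n (show 0 < r + 1 by omega)
    rw [← hy] at e1
    have e2 : (r + 1) * (y + 1) ≤ (r + 1) * (p + 1) := Nat.mul_le_mul_left _ (by omega)
    omega
  -- the length
  have hrJ : 1 ≤ r * J := Nat.mul_pos (by omega) hJ1
  obtain ⟨S, hS⟩ : ∃ S, p + 1 + r * (J * (2 * S + 1)) = n := by
    have e1 : 2 * r * J ∣ (n - 1 + r * J) - p := (Nat.modEq_iff_dvd' (by omega)).1 hpc
    obtain ⟨t, ht⟩ := e1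
    have ht0 : t ≠ 0 := by
      rintro rfl
      omega
    obtain ⟨t', rfl⟩ : ∃ t', t = t' + 1 := ⟨t - 1, by omega⟩
    refine ⟨t', ?_⟩
    have e2 : 2 * r * J * (t' + 1) = r * (J * (2 * t' + 1)) + r * J := by ring
    omega
  obtain ⟨m, hm⟩ := h4
  have hm1 : 1 ≤ m := by omega
  obtain ⟨q4, hq4⟩ : ∃ q4, q4 = 4 ^ (s - 1) := ⟨_, rfl⟩
  have hq40 : 0 < q4 := by rw [hq4]; positivity
  have hq44 : 4 * q4 = r * r := by
    rw [hq4, hr, hs, Nat.add_sub_cancel, ← pow_add]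
    have : (4 : ℕ) = 2 ^ 2 := by norm_num
    rw [this, ← pow_mul, ← pow_add]
    congr 1
    ring
  obtain ⟨Q, hQ⟩ : ∃ Q, Q = (m - 1) / J := ⟨_, rfl⟩
  have hdm := Nat.div_add_mod Q q4
  have hmulle := Nat.mul_div_le Q q4
  obtain ⟨σ, hσ'⟩ : ∃ σ, σ = Q / q4 := ⟨_, rfl⟩
  rw [← hσ'] at hdm hmulle
  have hσ : q4 * σ * J + 1 ≤ m := by
    have e1 : q4 * σ ≤ Q := hmulle
    have e2 : Q * J ≤ m - 1 := by rw [hQ]; exact Nat.div_mul_le_self _ _
    have e3 := Nat.mul_le_mul_right J e1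
    omega
  have hx := arith (x := σ - σ / 2) hr2 hJ1 hq44 hS hp2 hm hσ (Nat.mod_lt Q hq40)
    (by omega)
  have hfin := param (k := k) (s := s) (m := m) (S := S) (p := p) (D := Q % q4)
    (x := σ - σ / 2) (y := σ / 2) (by omega) hm1
    (fun l hl => hPU l (by
      have e1 : S ≤ r * (J * (2 * S + 1)) := by
        calc S ≤ 1 * (1 * (2 * S + 1)) := by omega
          _ ≤ r * (J * (2 * S + 1)) := Nat.mul_le_mul (by omega) (Nat.mul_le_mul hJ1 le_rfl)
      omega)) hp hJdef (by rw [← hr, ← hm]; exact hS) (by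
      have e1 : r * (J * (2 * S + 1)) ≤ r * (p + 1) := by
        have : (r + 1) * (p + 1) = r * (p + 1) + (p + 1) := by ring
        omega
      exact Nat.le_of_mul_le_mul_left e1 (by omega)) (by
      rw [← hQ, ← hq4]
      have e1 : σ - σ / 2 + σ / 2 = σ := by omega
      rw [e1]
      omega) (by omega) (by rw [← hr]; exact hx)
  rw [← hr, ← hm] at hfin
  refine ⟨_, ?_, hfin⟩
  have e1 : ((r * (J * (2 * S + 1)) : ℕ) : ℝ) = n - (p + 1 : ℕ) := by
    have : ((p + 1 + r * (J * (2 * S + 1)) : ℕ) : ℝ) = n := by exact_mod_cast hS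
    push_cast at this ⊢
    linarith
  rw [e1]
  have e2 : ((p + 1 : ℕ) : ℝ) ≤ n / L ^ A := by
    rw [le_div_iff₀ (by positivity)]
    have e3 : ((p + 1 : ℕ) : ℝ) * r ≤ n := by
      have : (p + 1) * r ≤ n := by
        rw [mul_comm]; omega
      exact_mod_cast this
    have e4 : ((p + 1 : ℕ) : ℝ) * L ^ A ≤ (p + 1 : ℕ) * r :=
      mul_le_mul_of_nonneg_left hLr (Nat.cast_nonneg _)
    linarith
  linarith

end Pool.Agent.N328.PH
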