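import Pool.Agent.N328.PH.Lev
import Pool.Agent.N328.PH.Growth
import Pool.Agent.N328.PH.Prime

/-!
# Partial Hadamard matrices with `n - n ^ (4 / 5) * (log n) ^ 2` rows
-/

set_option autoImplicit false

namespace Pool.Agent.N328.PH

open Pool.Agent.H108R3.Had (PUk)

theorem k_pos {k : ℕ} (h : PUk k 2) : 1 ≤ k := by
  by_contra hk
  have hk0 : k = 0 := by omega
  subst hk0
  obtain ⟨W, hW⟩ := h
  have h1 := congrFun (congrFun (hW.left ℤ 1 1 (by norm_num)) 0) 0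
  rw [Matrix.mul_apply, Matrix.smul_apply, Matrix.one_apply_eq] at h1
  simp only [Matrix.transpose_apply, Pool.Agent.H108R3.Had.evM, Matrix.of_apply, Finset.sum_range_succ,
    Finset.sum_range_zero, one_pow, mul_one, zero_add, smul_eq_mul] at h1
  have h2 := hW.sign 0 (by norm_num) 0 0
  have h3 := hW.sign 1 (by norm_num) 0 0
  have h4' : ∀ f : Fin 1 → ℤ, ∑ x, f x = f 0 := fun f => by simp
  have h4 : ∀ f : Fin (2 ^ 0) → ℤ, ∑ x, f x = f 0 := h4'
  rw [h4] at h1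
  simp only [Int.cast_id] at h1
  have h5 : Fintype.card (Fin (2 ^ 0)) = 1 := by simp
  rw [h5] at h1
  rcases h2 with h2 | h2 <;> rcases h3 with h3 | h3 <;> rw [h2, h3] at h1 <;> norm_num at h1

/-- the number of repetitions -/
theorem choose_s {n : ℕ} {L : ℝ} (hL : 128 ≤ L) (hn : L ^ 20 ≤ √(n : ℝ)) :
    ∃ s : ℕ, 2 ^ 22 * L ^ 6 * (2 ^ s : ℝ) ^ 5 ≤ n ∧ L ^ 2 < 2 ^ s ∧
      (n : ℝ) ≤ 2 ^ s * ((n : ℝ) ^ (4 / 5 : ℝ) * L ^ 2) := by
  have hL0 : 0 < L := by linarith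
  have hL1 : 1 ≤ L := by linarith
  have hs1 : 1 ≤ √(n : ℝ) := le_trans (one_le_pow₀ hL1) hn
  have hn0 : (0 : ℝ) < n := by
    rw [← Real.sqrt_pos]; linarith
  have hss : √(n : ℝ) * √(n : ℝ) = n := Real.mul_self_sqrt hn0.le
  obtain ⟨a, ha⟩ : ∃ a : ℝ, a = (n : ℝ) ^ (1 / 5 : ℝ) := ⟨_, rfl⟩
  have ha0 : 0 < a := by rw [ha]; positivity
  have ha5 : a ^ 5 = n := by
    rw [ha, ← Real.rpow_natCast, ← Real.rpow_mul hn0.le]
    norm_num
  have ha4 : (n : ℝ) ^ (4 / 5 : ℝ) = a ^ 4 := by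
    rw [ha, ← Real.rpow_natCast, ← Real.rpow_mul hn0.le]
    norm_num
  obtain ⟨y, hy⟩ : ∃ y : ℝ, y = ((n : ℝ) / (2 ^ 22 * L ^ 6)) ^ (1 / 5 : ℝ) := ⟨_, rfl⟩
  have hq0 : 0 < (n : ℝ) / (2 ^ 22 * L ^ 6) := by positivity
  have hy0 : 0 < y := by rw [hy]; positivity
  have hy5 : y ^ 5 = (n : ℝ) / (2 ^ 22 * L ^ 6) := by
    rw [hy, ← Real.rpow_natCast, ← Real.rpow_mul hq0.le]
    norm_num
  have hL20 : L ^ 40 ≤ n := by
    calc L ^ 40 = L ^ 20 * L ^ 20 := by rw [← pow_add]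
      _ ≤ √n * √n := mul_le_mul hn hn (by positivity) (by positivity)
      _ = n := hss
  have hyL : 2 * L ^ 2 ≤ y := by
    apply le_of_pow_le_pow_left₀ (n := 5) (by norm_num) hy0.le
    rw [hy5, le_div_iff₀ (by positivity)]
    calc (2 * L ^ 2) ^ 5 * (2 ^ 22 * L ^ 6) = 2 ^ 27 * L ^ 16 := by ring
      _ ≤ L ^ 4 * L ^ 16 := by
          apply mul_le_mul_of_nonneg_right _ (by positivity)
          calc (2 : ℝ) ^ 27 ≤ 128 ^ 4 := by norm_num
            _ ≤ L ^ 4 := pow_le_pow_left₀ (by norm_num) hL 4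
      _ = L ^ 20 := by rw [← pow_add]
      _ ≤ L ^ 40 := pow_le_pow_right₀ hL1 (by norm_num)
      _ ≤ n := hL20
  have hL2 : 1 ≤ L ^ 2 := one_le_pow₀ hL1
  obtain ⟨s, hs, hs'⟩ := exists_nat_pow_near (show 1 ≤ y by linarith) (show (1 : ℝ) < 2 by norm_num)
  refine ⟨s, ?_, ?_, ?_⟩
  · have h1 : ((2 : ℝ) ^ s) ^ 5 ≤ y ^ 5 := pow_le_pow_left₀ (by positivity) hs 5
    rw [hy5, le_div_iff₀ (by positivity)] at h1
    linarith
  · rw [pow_succ] at hs'
    linarith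
  · rw [ha4]
    have h1 : 2 * a ≤ y * L ^ 2 := by
      apply le_of_pow_le_pow_left₀ (n := 5) (by norm_num) (by positivity)
      have e1 : (y * L ^ 2) ^ 5 = (n : ℝ) * L ^ 4 / 2 ^ 22 := by
        rw [mul_pow, hy5]
        field_simp
      rw [e1, le_div_iff₀ (by positivity), mul_pow, ha5]
      calc (2 : ℝ) ^ 5 * n * 2 ^ 22 = n * 2 ^ 27 := by ring
        _ ≤ n * L ^ 4 := by
            apply mul_le_mul_of_nonneg_left _ hn0.le
            calc (2 : ℝ) ^ 27 ≤ 128 ^ 4 := by norm_num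
              _ ≤ L ^ 4 := pow_le_pow_left₀ (by norm_num) hL 4
    have h2 : y < 2 ^ s * 2 := by rw [← pow_succ]; exact hs'
    have h3 : a ≤ 2 ^ s * L ^ 2 := by
      have : y * L ^ 2 ≤ (2 ^ s * 2) * L ^ 2 := mul_le_mul_of_nonneg_right h2.le (by positivity)
      linarith
    calc (n : ℝ) = a ^ 4 * a := by rw [← ha5]; ring
      _ ≤ a ^ 4 * (2 ^ s * L ^ 2) := mul_le_mul_of_nonneg_left h3 (by positivity)
      _ = 2 ^ s * (a ^ 4 * L ^ 2) := by ring

/-- partial Hadamard matrices with `n - n ^ (4 / 5) * (log n) ^ 2` rows -/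
theorem main2 : ∃ N0 : ℕ, ∀ n : ℕ, N0 ≤ n → 4 ∣ n →
    ∃ k : ℕ, (n : ℝ) - (n : ℝ) ^ (4 / 5 : ℝ) * Real.log n ^ 2 ≤ k ∧ HasPH k n := by
  obtain ⟨N1, h1⟩ := growth
  obtain ⟨N2, h2⟩ := prime_ap 3
  obtain ⟨N3, h3⟩ := log_pow_le 20
  refine ⟨max (max N1 (N2 * N2)) (max N3 ⌈Real.exp 128⌉₊), fun n hn h4 => ?_⟩
  have hn1 : N1 ≤ n := (le_trans (le_max_left _ _) (le_max_left _ _)).trans hn
  have hn2 : N2 * N2 ≤ n := (le_trans (le_max_right _ _) (le_max_left _ _)).trans hn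
  have hn3 : N3 ≤ n := (le_trans (le_max_left _ _) (le_max_right _ _)).trans hn
  have hn4 : Real.exp 128 ≤ n :=
    (Nat.le_ceil _).trans (by exact_mod_cast (le_trans (le_max_right _ _) (le_max_right _ _)).trans hn)
  have hn0 : (0 : ℝ) < n := lt_of_lt_of_le (Real.exp_pos _) hn4
  have hL : 128 ≤ Real.log n := by
    rw [Real.le_log_iff_exp_le hn0]; exact hn4
  have hn2' : 2 ≤ n := by
    have : (2 : ℝ) ≤ n := by linarith [Real.add_one_le_exp (128 : ℝ)]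
    exact_mod_cast this
  obtain ⟨k, hPU, hJL⟩ := h1 n hn1
  obtain ⟨J, hJdef⟩ : ∃ J : ℕ, J = 2 ^ (5 * 2 ^ (k + 2) - 1) := ⟨_, rfl⟩
  rw [← hJdef] at hJL
  have hk : 1 ≤ k := k_pos (hPU 2 hn2')
  obtain ⟨K, hK⟩ : ∃ K : ℕ, K = 2 ^ k := ⟨_, rfl⟩
  have hKJ : K ≤ J := by
    rw [hK, hJdef]
    apply Nat.pow_le_pow_right (by norm_num)
    have h5 : k < 2 ^ k := Nat.lt_two_pow_self
    have h6 : 2 ^ (k + 2) = 4 * 2 ^ k := by rw [pow_add]; ring
    omega
  have hK2 : 2 ≤ K := by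
    rw [hK]
    calc 2 = 2 ^ 1 := rfl
      _ ≤ 2 ^ k := Nat.pow_le_pow_right (by norm_num) hk
  obtain ⟨L, hLdef⟩ : ∃ L : ℝ, L = Real.log n := ⟨_, rfl⟩
  have hsq := h3 n hn3
  rw [← hLdef] at hL hJL hsq ⊢
  have hL0 : 0 < L := by linarith
  have hKL : (K : ℝ) ≤ L := le_trans (by exact_mod_cast hKJ) hJL
  obtain ⟨s, hs1, hs2, hs3⟩ := choose_s hL hsq
  obtain ⟨r, hr⟩ : ∃ r : ℕ, r = 2 ^ s := ⟨_, rfl⟩
  have hrR : (r : ℝ) = 2 ^ s := by rw [hr]; push_cast; rfl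
  rw [← hrR] at hs1 hs2 hs3
  have hr0 : (0 : ℝ) < r := by rw [hrR]; positivity
  have hr1 : 1 ≤ r := by exact_mod_cast hr0
  have hsk : 2 * k ≤ s := by
    have h5 : ((K * K : ℕ) : ℝ) < r := by
      push_cast
      have : (K : ℝ) * K ≤ L * L := mul_le_mul hKL hKL (by positivity) hL0.le
      nlinarith
    have h6 : K * K < r := by exact_mod_cast h5
    rw [hK, hr, ← pow_add] at h6
    have := (Nat.pow_lt_pow_iff_right (by norm_num)).1 h6
    omega
  have hbig : 2 ^ 22 * K ^ 5 * J * r ^ 5 ≤ n := by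
    have h5 : ((2 ^ 22 * K ^ 5 * J * r ^ 5 : ℕ) : ℝ) ≤ n := by
      have h6 : (K : ℝ) ^ 5 * J ≤ L ^ 6 := by
        calc (K : ℝ) ^ 5 * J ≤ L ^ 5 * L :=
              mul_le_mul (pow_le_pow_left₀ (by positivity) hKL 5) hJL (by positivity) (by positivity)
          _ = L ^ 6 := by ring
      calc ((2 ^ 22 * K ^ 5 * J * r ^ 5 : ℕ) : ℝ) = 2 ^ 22 * ((K : ℝ) ^ 5 * J) * (r : ℝ) ^ 5 := by
            push_cast; ring
        _ ≤ 2 ^ 22 * L ^ 6 * (r : ℝ) ^ 5 := by gcongr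
        _ ≤ n := hs1
    exact_mod_cast h5
  have hJ1 : 1 ≤ J := by rw [hJdef]; exact Nat.one_le_two_pow
  -- the interval for the prime
  obtain ⟨X, hX⟩ : ∃ X, X = n / (16 * K * r * r) := ⟨_, rfl⟩
  have hden : 0 < 16 * K * r * r := by positivity
  have hXa : (16 * K * r * r) * X ≤ n := by rw [hX]; exact Nat.mul_div_le _ _
  have hXb : n < (16 * K * r * r) * (X + 1) := by rw [hX]; exact Nat.lt_mul_div_succ _ hden
  have hss : √(n : ℝ) * √(n : ℝ) = n := Real.mul_self_sqrt hn0.le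
  have hsn0 : 0 < √(n : ℝ) := Real.sqrt_pos.2 hn0
  have hsn1 : 16 ≤ √(n : ℝ) := by
    refine le_trans ?_ hsq
    calc (16 : ℝ) ≤ L := by linarith
      _ = L ^ 1 := (pow_one L).symm
      _ ≤ L ^ 20 := pow_le_pow_right₀ (by linarith) (by norm_num)
  have hXs : √(n : ℝ) ≤ X := by
    have h5 : (2 ^ 11 * (K * r * r)) * (2 ^ 11 * (K * r * r)) ≤ n := by
      refine le_trans ?_ hbig
      calc (2 ^ 11 * (K * r * r)) * (2 ^ 11 * (K * r * r)) = 2 ^ 22 * (K ^ 2 * 1 * r ^ 4) := by ring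
        _ ≤ 2 ^ 22 * (K ^ 5 * J * r ^ 5) := by
            apply Nat.mul_le_mul_left
            apply Nat.mul_le_mul (Nat.mul_le_mul _ hJ1)
            · exact Nat.pow_le_pow_right hr1 (by norm_num)
            · exact Nat.pow_le_pow_right (by omega) (by norm_num)
        _ = 2 ^ 22 * K ^ 5 * J * r ^ 5 := by ring
    have h6 : ((2 ^ 11 * (K * r * r) : ℕ) : ℝ) ≤ √n := by
      apply Real.le_sqrt_of_sq_le
      rw [sq]
      exact_mod_cast h5
    have h7 : (n : ℝ) < ((16 * K * r * r : ℕ) : ℝ) * (X + 1) := by exact_mod_cast hXb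
    have h8 : ((16 * K * r * r : ℕ) : ℝ) * 128 ≤ √n := by
      refine le_trans (le_of_eq ?_) h6
      push_cast
      ring
    have h9 : √(n : ℝ) * 128 < X + 1 := by
      have hX0 : (0 : ℝ) ≤ X := Nat.cast_nonneg _
      by_contra hcon
      have h10 := not_lt.1 hcon
      have h11 : ((16 * K * r * r : ℕ) : ℝ) * ((X : ℝ) + 1) ≤
          ((16 * K * r * r : ℕ) : ℝ) * (√(n : ℝ) * 128) :=
        mul_le_mul_of_nonneg_left h10 (Nat.cast_nonneg _)
      have h12 : ((16 * K * r * r : ℕ) : ℝ) * 128 * √(n : ℝ) ≤ √n * √n :=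
        mul_le_mul_of_nonneg_right h8 hsn0.le
      nlinarith
    linarith
  have hX16 : 16 ≤ X := by
    have : (16 : ℝ) ≤ X := by linarith
    exact_mod_cast this
  have hN2X : N2 ≤ 2 * X := by
    have h5 : (N2 : ℝ) ≤ √n := by
      apply Real.le_sqrt_of_sq_le
      rw [sq]
      exact_mod_cast hn2
    have : (N2 : ℝ) ≤ X := by linarith
    have : N2 ≤ X := by exact_mod_cast this
    omega
  have hlog : L / 2 ≤ Real.log (2 * X : ℕ) := by
    have h5 : Real.log √(n : ℝ) = L / 2 := by rw [Real.log_sqrt hn0.le, hLdef]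
    rw [← h5]
    apply Real.log_le_log hsn0
    push_cast
    linarith
  have hlog3 : 8 * L ^ 2 ≤ Real.log (2 * X : ℕ) ^ 3 := by
    calc 8 * L ^ 2 ≤ (L / 2) ^ 3 := by nlinarith [pow_pos hL0 2]
      _ ≤ _ := pow_le_pow_left₀ (by positivity) hlog 3
  have hL2 : 1 ≤ L ^ 2 := one_le_pow₀ (by linarith)
  have hcop : (n - 1 + K * J).Coprime (2 * K * J) := by
    have h5 : 4 ∣ K * J := by
      apply mul_dvd_mul (a := 2) (c := 2)
      · rw [hK]; exact dvd_pow_self 2 (by omega)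
      · rw [hJdef]
        apply dvd_pow_self
        have : 0 < 2 ^ (k + 2) := by positivity
        omega
    have e1 : Odd (n - 1 + K * J) := by
      obtain ⟨a, ha⟩ := h4
      obtain ⟨b, hb⟩ := h5
      rw [hb, ha]
      exact ⟨2 * a - 1 + 2 * b, by omega⟩
    have e2 : 2 * K * J = 2 ^ (k + 1 + (5 * 2 ^ (k + 2) - 1)) := by
      rw [hK, hJdef, ← pow_succ', ← pow_add]
    rw [e2]
    exact Nat.Coprime.pow_right _ (Nat.Coprime.symm (Nat.coprime_two_left.2 e1))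
  obtain ⟨p, hp, hyp, hpz, hpc⟩ := h2 (2 * X) hN2X (2 * K * J) (n - 1 + K * J) X (2 * X - 1)
    (by have : 0 < 2 * K * J := by positivity
        exact this) (by
      refine le_trans ?_ hlog3
      push_cast
      have : (K : ℝ) * J ≤ L * L := mul_le_mul hKL hJL (by positivity) hL0.le
      nlinarith) hcop (by omega) (by omega) (by
      have e1 : ((2 * X - 1 : ℕ) : ℝ) = 2 * X - 1 := by
        rw [Nat.cast_sub (by omega)]; push_cast; ring
      have hX0 : (16 : ℝ) ≤ X := by exact_mod_cast hX16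
      rw [e1, div_le_iff₀ (by linarith)]
      push_cast
      have h5 : (2 : ℝ) ≤ Real.log (2 * X : ℕ) ^ 3 * (1 / 4) := by linarith
      push_cast at h5
      nlinarith)
  have hKJ0 : 0 < K * J := by positivity
  have hpn : p ≤ n := by
    have h5 : 2 * X ≤ (16 * K * r * r) * X := by
      apply Nat.mul_le_mul_right
      have : 1 ≤ K * r * r := by
        have : 0 < K * r * r := by positivity
        exact this
      calc 2 ≤ 16 * 1 := by norm_num
        _ ≤ 16 * (K * r * r) := Nat.mul_le_mul_left _ this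
        _ = 16 * K * r * r := by ring
    omega
  have hmod : (2 * K * J : ℤ) ∣ (n : ℤ) - (p + 1 : ℕ) - K * J := by
    have h5 := Nat.modEq_iff_dvd.1 hpc
    obtain ⟨t, ht⟩ := h5
    refine ⟨t - 1, ?_⟩
    have e1 : ((n - 1 + K * J : ℕ) : ℤ) = n - 1 + K * J := by
      push_cast [Nat.cast_sub (show 1 ≤ n by omega)]
      ring
    rw [e1] at ht
    push_cast at ht ⊢
    linear_combination ht
  obtain ⟨n₁, hn₁, hrn, hPH⟩ := two_level (n := n) (p := p) hk hsk hPU hJdef hK hr h4 hp hmod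
    (by
      have : (16 * K * r * r) * (X + 1) ≤ (16 * K * r * r) * (p + 1) := Nat.mul_le_mul_left _ (by omega)
      have e1 : 32 * K * r * r * (p + 1) = 2 * ((16 * K * r * r) * (p + 1)) := by ring
      omega)
    (by
      have h5 : (8 * K * r * r) * (p + 1) ≤ (8 * K * r * r) * (2 * X) := Nat.mul_le_mul_left _ (by omega)
      have e1 : (8 * K * r * r) * (2 * X) = (16 * K * r * r) * X := by ring
      omega) hbig
  refine ⟨n - n₁, ?_, hPH⟩
  rw [Nat.cast_sub hn₁]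
  have h5 : (r : ℝ) * n₁ ≤ n := by exact_mod_cast hrn
  have h6 : (r : ℝ) * n₁ ≤ r * ((n : ℝ) ^ (4 / 5 : ℝ) * L ^ 2) := h5.trans hs3
  have h7 := le_of_mul_le_mul_left h6 hr0
  linarith

end Pool.Agent.N328.PH
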