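import Pool.Agent.Y342.SK.Asm
import Pool.Agent.N328.PH.Asm

/-!
# Families of sequences for the arms
-/

set_option autoImplicit false
set_option linter.unusedSectionVars false

namespace Pool.Agent.N328.PH

open Matrix Finset
open Pool.Agent.Y342.SK
open Pool.Agent.H108R3.Had (IsPU PU PUk)

section one

variable {q : ℕ} [NeZero q]

/-- the periodic function of a sequence of length `l` placed at `o + 1, …, o + l` -/
def gS (q l o : ℕ) (X : ℕ → ℤ) (d : ZMod q) : ℤ := fS q l X (d - o)

theorem gS_eq {S l o : ℕ} (hq : q = 2 * S + 1) (ho : o + l ≤ S) (X : ℕ → ℤ) (d : ZMod q) :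
    gS q l o X d = if o + 1 ≤ d.val ∧ d.val ≤ o + l then X (d.val - 1 - o) else 0 := by
  unfold gS fS
  have key : ∀ n ∈ range l, (((n : ZMod q) + 1 = d - o) ↔ n + 1 + o = d.val) := by
    intro n hn
    rw [mem_range] at hn
    have e : ((n : ZMod q) + 1 = d - o) ↔ (((n + 1 + o : ℕ) : ZMod q) = d) := by
      push_cast
      constructor
      · intro h; rw [h]; ring
      · intro h; rw [← h]; ring
    rw [e]
    constructor
    · intro h
      rw [← h, ZMod.val_cast_of_lt (by omega)]
    · intro h
      rw [h, ZMod.natCast_zmod_val]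
  by_cases h : o + 1 ≤ d.val ∧ d.val ≤ o + l
  · rw [if_pos h, Finset.sum_eq_single (d.val - 1 - o)]
    · rw [if_pos ((key _ (mem_range.2 (by omega))).2 (by omega)), mul_one]
    · intro n hn hne
      rw [if_neg, mul_zero]
      intro h'
      have := (key n hn).1 h'
      omega
    · intro h'
      exact absurd (mem_range.2 (by omega)) h'
  · rw [if_neg h]
    refine Finset.sum_eq_zero fun n hn => ?_
    rw [if_neg, mul_zero]
    intro h'
    have h1 := (key n hn).1 h'
    rw [mem_range] at hn
    omega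

theorem gS_corr {l o : ℕ} (X : ℕ → ℤ) (i j : ZMod q) :
    ∑ b : ZMod q, gS q l o X (i - b) * gS q l o X (j - b) =
      ∑ n ∈ range l, ∑ m ∈ range l, (X n * X m) * (if (n : ZMod q) - m = i - j then 1 else 0) := by
  have h := corr (q := q) (S := l) X (i - o) (j - o)
  have e1 : (i - (o : ZMod q)) - (j - o) = i - j := by ring
  rw [e1] at h
  rw [← h]
  refine Finset.sum_congr rfl fun b _ => ?_
  unfold gS
  rw [sub_right_comm i b, sub_right_comm j b]

end one

/-- the sign of a type on the second coordinate -/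
def sgt {r : ℕ} (t : Option (Fin r)) (b : Fin 2) : ℤ :=
  match t with
  | none => 1
  | some _ => if b = 0 then 1 else -1

theorem sgt_sq {r : ℕ} (t : Option (Fin r)) (b : Fin 2) : sgt t b * sgt t b = 1 := by
  rcases t with _ | a
  · rfl
  · unfold sgt
    fin_cases b <;> simp

theorem sgt_sg {r : ℕ} (t : Option (Fin r)) (b : Fin 2) : Sg (sgt t b) := by
  rcases t with _ | a
  · left; rfl
  · unfold sgt
    fin_cases b <;> simp [Sg]

section fam

variable {k r S q : ℕ} [NeZero q]

/-- the functions -/
def Ff (q : ℕ) (W : ℕ → ℕ → Fin (2 ^ k) → ℤ) (o l : Fin 2 → Option (Fin r) → ℕ) (t : Option (Fin r))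
    (a : Fin 2 × Fin 2 × Fin (2 ^ k)) (d : ZMod q) : ℤ :=
  sgt t a.2.1 * gS q (l a.1 t) (o a.1 t) (fun n => W (l a.1 t) n a.2.2) d

theorem fam_of (hq : q = 2 * S + 1) (W : ℕ → ℕ → Fin (2 ^ k) → ℤ)
    (hs : ∀ l ≤ S, ∀ n < l, ∀ a, Sg (W l n a))
    (hW : ∀ l ≤ S, ∀ d : ZMod q, ∑ j, ∑ n ∈ range l, ∑ m ∈ range l, (W l n j * W l m j) *
      (if (n : ZMod q) - m = d then 1 else 0) = if d = 0 then ((2 ^ k * l : ℕ) : ℤ) else 0)
    (o l : Fin 2 → Option (Fin r) → ℕ) (hol : ∀ u t, o u t + l u t ≤ S)
    (hcov : ∀ u s, s < S → ∃ t, (o u t ≤ s ∧ s < o u t + l u t) ∧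
      ∀ t', t' ≠ t → ¬(o u t' ≤ s ∧ s < o u t' + l u t')) :
    Fam (Fin 2 × Fin 2 × Fin (2 ^ k)) S q r (Ff q W o l)
      (fun t => ((2 * 2 ^ k * (l 0 t + l 1 t) : ℕ) : ℤ)) where
  hq := hq
  auto := fun t => by
    ext i j
    rw [Matrix.sum_apply]
    have h1 : ∀ a : Fin 2 × Fin 2 × Fin (2 ^ k),
        (circulant (Ff q W o l t a) * (circulant (Ff q W o l t a))ᵀ) i j =
        ∑ n ∈ range (l a.1 t), ∑ m ∈ range (l a.1 t), (W (l a.1 t) n a.2.2 * W (l a.1 t) m a.2.2) *
          (if (n : ZMod q) - m = i - j then 1 else 0) := by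
      rintro ⟨u, b, a⟩
      rw [Matrix.mul_apply, ← gS_corr (o := o u t) (fun n => W (l u t) n a) i j]
      refine Finset.sum_congr rfl fun β _ => ?_
      simp only [circulant_apply, transpose_apply, Ff]
      rw [mul_mul_mul_comm, sgt_sq, one_mul]
    rw [Finset.sum_congr rfl fun a _ => h1 a, Fintype.sum_prod_type]
    have h2 : ∀ u : Fin 2, ∑ y : Fin 2 × Fin (2 ^ k), (∑ n ∈ range (l u t), ∑ m ∈ range (l u t),
        (W (l u t) n y.2 * W (l u t) m y.2) * (if (n : ZMod q) - m = i - j then 1 else 0)) =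
        2 * (if i - j = 0 then ((2 ^ k * l u t : ℕ) : ℤ) else 0) := by
      intro u
      rw [Fintype.sum_prod_type]
      simp only []
      rw [hW (l u t) (le_trans (Nat.le_add_left _ _) (hol u t)) (i - j), Finset.sum_const,
        Finset.card_univ, Fintype.card_fin, nsmul_eq_mul]
      norm_num
    rw [Finset.sum_congr rfl fun u _ => h2 u, Fin.sum_univ_two, Matrix.smul_apply, Matrix.one_apply,
      smul_eq_mul]
    by_cases hij : i = j
    · rw [if_pos hij, if_pos (sub_eq_zero.2 hij), if_pos (sub_eq_zero.2 hij)]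
      push_cast
      ring
    · rw [if_neg hij, if_neg (fun h => hij (sub_eq_zero.1 h)), if_neg (fun h => hij (sub_eq_zero.1 h))]
      ring
  cross := fun c => by
    ext i j
    rw [Matrix.sum_apply, Matrix.zero_apply, Fintype.sum_prod_type]
    refine Finset.sum_eq_zero fun u _ => ?_
    rw [Fintype.sum_prod_type_right]
    refine Finset.sum_eq_zero fun a _ => ?_
    rw [Fin.sum_univ_two, Matrix.mul_apply, Matrix.mul_apply, ← Finset.sum_add_distrib]
    refine Finset.sum_eq_zero fun β _ => ?_
    simp only [circulant_apply, transpose_apply, Ff, sgt]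
    simp only [if_true, Fin.isValue, one_ne_zero, if_false, one_mul]
    ring
  zero := fun t a d hd => by
    unfold Ff
    rw [gS_eq hq (hol _ _), if_neg, mul_zero]
    have := hol a.1 t
    omega
  cover := fun a d h1 h2 => by
    obtain ⟨t, ht, ht'⟩ := hcov a.1 (d.val - 1) (by omega)
    refine ⟨t, ?_, fun t' h' => ?_⟩
    · unfold Ff
      rw [gS_eq hq (hol _ _), if_pos (by omega)]
      exact (sgt_sg _ _).mul (hs _ (le_trans (Nat.le_add_left _ _) (hol a.1 t)) _ (by omega) _)
    · unfold Ff
      have := ht' t' h'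
      rw [gS_eq hq (hol _ _), if_neg (by omega), mul_zero]

end fam

/-- transport along an equivalence of the arms -/
theorem Fam.congr {κ κ' : Type} [Fintype κ] [Fintype κ'] (e : κ ≃ κ') {S q r : ℕ} [NeZero q]
    {F : Option (Fin r) → κ' → ZMod q → ℤ} {s : Option (Fin r) → ℤ} (h : Fam κ' S q r F s) :
    Fam κ S q r (fun t a => F t (e a)) s where
  hq := h.hq
  auto := fun t => by
    rw [← h.auto t]
    exact Equiv.sum_comp e (fun a => circulant (F t a) * (circulant (F t a))ᵀ)
  cross := fun b => by
    rw [← h.cross b]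
    exact Equiv.sum_comp e (fun a => circulant (F none a) * (circulant (F (some b) a))ᵀ)
  zero := fun t a d hd => h.zero t (e a) d hd
  cover := fun a d h1 h2 => h.cover (e a) d h1 h2

/-- the offsets -/
def off {r : ℕ} (x D : ℕ) (t : Option (Fin r)) : ℕ :=
  match t with
  | none => (r - 1) * x
  | some a => if a.val = 0 then (r - 1) * x + D else (a.val - 1) * x

/-- the lengths -/
def len {r : ℕ} (S x D : ℕ) (t : Option (Fin r)) : ℕ :=
  match t with
  | none => D
  | some a => if a.val = 0 then S - (r - 1) * x - D else x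

theorem off_len {r S x D : ℕ} (h : (r - 1) * x + D ≤ S) (t : Option (Fin r)) :
    off x D t + len S x D t ≤ S := by
  rcases t with _ | a
  · exact h
  · unfold off len
    by_cases ha : a.val = 0
    · simp only [if_pos ha]; omega
    · simp only [if_neg ha]
      have h1 : a.val - 1 + 1 ≤ r - 1 := by have := a.isLt; omega
      have h2 : (a.val - 1 + 1) * x ≤ (r - 1) * x := Nat.mul_le_mul_right _ h1
      rw [add_mul, one_mul] at h2
      omega

theorem off_cover {r S x D : ℕ} [NeZero r] (h : (r - 1) * x + D ≤ S) (s : ℕ) (hs : s < S) :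
    ∃ t : Option (Fin r), (off x D t ≤ s ∧ s < off x D t + len S x D t) ∧
      ∀ t', t' ≠ t → ¬(off x D t' ≤ s ∧ s < off x D t' + len S x D t') := by
  have hr : 0 < r := Nat.pos_of_ne_zero (NeZero.ne r)
  -- facts on the intervals of nonzero types
  have hnz : ∀ a : Fin r, a.val ≠ 0 → (a.val - 1) * x + x ≤ (r - 1) * x := by
    intro a ha
    have h1 : a.val - 1 + 1 ≤ r - 1 := by have := a.isLt; omega
    have h2 : (a.val - 1 + 1) * x ≤ (r - 1) * x := Nat.mul_le_mul_right _ h1
    rw [add_mul, one_mul] at h2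
    exact h2
  by_cases h1 : s < (r - 1) * x
  · have hx : 0 < x := by
      rcases Nat.eq_zero_or_pos x with h' | h'
      · rw [h', mul_zero] at h1; omega
      · exact h'
    have hj : s / x < r - 1 := Nat.div_lt_of_lt_mul (by rwa [mul_comm x])
    have hdm := Nat.div_add_mod s x
    have hmod := Nat.mod_lt s hx
    refine ⟨some ⟨s / x + 1, by omega⟩, ?_, ?_⟩
    · simp only [off, len, Nat.add_eq_zero_iff, one_ne_zero, and_false, if_false, Nat.add_sub_cancel]
      rw [mul_comm x] at hdm
      omega
    · rintro (_ | a) ht'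
      · simp only [off, len]; omega
      · by_cases ha : a.val = 0
        · simp only [off, len, if_pos ha]; omega
        · simp only [off, len, if_neg ha]
          rintro ⟨h2, h3⟩
          apply ht'
          have h4 : s / x = a.val - 1 := by
            apply Nat.div_eq_of_lt_le h2
            rw [add_mul, one_mul]; exact h3
          congr 1
          apply Fin.ext
          change a.val = s / x + 1
          omega
  · by_cases h2 : s < (r - 1) * x + D
    · refine ⟨none, ?_, ?_⟩
      · simp only [off, len]; omega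
      · rintro (_ | a) ht'
        · exact absurd rfl ht'
        · by_cases ha : a.val = 0
          · simp only [off, len, if_pos ha]; omega
          · simp only [off, len, if_neg ha]
            have := hnz a ha
            omega
    · refine ⟨some ⟨0, hr⟩, ?_, ?_⟩
      · simp only [off, len, if_true]; omega
      · rintro (_ | a) ht'
        · simp only [off, len]; omega
        · by_cases ha : a.val = 0
          · exact absurd (by congr 1; exact Fin.ext ha) ht'
          · simp only [off, len, if_neg ha]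
            have := hnz a ha
            omega

/-- families from para-unitary matrices of all lengths up to `S` -/
theorem exists_fam {κ : Type} [Fintype κ] {k r S q : ℕ} [NeZero q] [NeZero r] (hq : q = 2 * S + 1)
    (hκ : Fintype.card κ = 2 ^ (k + 2)) (hPU : ∀ l ≤ S, PUk k l) (x y D : ℕ)
    (hx : (r - 1) * x + D ≤ S) (hy : (r - 1) * y ≤ S) :
    ∃ (F : Option (Fin r) → κ → ZMod q → ℤ) (s : Option (Fin r) → ℤ), Fam κ S q r F s ∧
      s none = 2 ^ (k + 1) * D ∧
      s (some 0) = 2 ^ (k + 1) * (2 * S - (r - 1 : ℕ) * (x + y) - D) ∧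
      ∀ a, a ≠ 0 → s (some a) = 2 ^ (k + 1) * (x + y) := by
  have hex : ∀ l : ℕ, ∃ W : ℕ → Fin (2 ^ k) → ℤ, l ≤ S → (∀ n < l, ∀ a, Sg (W n a)) ∧
      ∀ d : ZMod q, ∑ j, ∑ n ∈ range l, ∑ m ∈ range l, (W n j * W m j) *
      (if (n : ZMod q) - m = d then 1 else 0) = if d = 0 then ((2 ^ k * l : ℕ) : ℤ) else 0 := by
    intro l
    by_cases hl : l ≤ S
    · obtain ⟨W, hW⟩ := hPU l hl
      refine ⟨fun n a => W n ⟨0, by positivity⟩ a, fun _ => ⟨fun n hn a => hW.sign n hn _ _, fun d => ?_⟩⟩
      have := entry (q := q) hW ⟨0, by positivity⟩ d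
      rw [Fintype.card_fin] at this
      exact this
    · exact ⟨fun _ _ => 0, fun h => absurd h hl⟩
  choose W hW using hex
  let o : Fin 2 → Option (Fin r) → ℕ := fun u t => if u = 0 then off x D t else off y 0 t
  let l : Fin 2 → Option (Fin r) → ℕ := fun u t => if u = 0 then len S x D t else len S y 0 t
  have hfam := fam_of (k := k) (r := r) hq W (fun l hl => (hW l hl).1) (fun l hl => (hW l hl).2) o l
    (fun u t => by
      by_cases hu : u = 0
      · simp only [o, l, if_pos hu]; exact off_len hx t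
      · simp only [o, l, if_neg hu]; exact off_len (by omega) t)
    (fun u s hs => by
      by_cases hu : u = 0
      · simp only [o, l, if_pos hu]; exact off_cover hx s hs
      · simp only [o, l, if_neg hu]; exact off_cover (by omega) s hs)
  have hcard : Fintype.card κ = Fintype.card (Fin 2 × Fin 2 × Fin (2 ^ k)) := by
    rw [hκ, Fintype.card_prod, Fintype.card_prod, Fintype.card_fin, Fintype.card_fin, pow_add]
    ring
  refine ⟨_, _, hfam.congr (Fintype.equivOfCardEq hcard), ?_, ?_, ?_⟩
  · simp only [l, len, if_true, Fin.isValue, one_ne_zero, if_false]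
    push_cast
    ring
  · simp only [l, len, if_true, Fin.isValue, one_ne_zero, if_false, Fin.val_zero]
    have e1 : ((S - (r - 1) * x - D : ℕ) : ℤ) = S - (r - 1 : ℕ) * x - D := by
      rw [Nat.cast_sub (by omega), Nat.cast_sub (by omega), Nat.cast_mul]
    have e2 : ((S - (r - 1) * y - 0 : ℕ) : ℤ) = S - (r - 1 : ℕ) * y := by
      rw [Nat.sub_zero, Nat.cast_sub (by omega), Nat.cast_mul]
    rw [Nat.cast_mul, Nat.cast_add, e1, e2]
    push_cast
    ring
  · intro a ha
    have ha' : a.val ≠ 0 := fun h => ha (Fin.ext h)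
    simp only [l, len, if_true, Fin.isValue, one_ne_zero, if_false, if_neg ha']
    push_cast
    ring

end Pool.Agent.N328.PH
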