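import Pool.Agent.N328.PH.Base
import Pool.Agent.N328.PH.Seq
import Pool.Agent.W69.HH.Paley

/-!
# Partial Hadamard matrices with parameters
-/

set_option autoImplicit false
set_option linter.unusedSectionVars false

namespace Pool.Agent.N328.PH

open Matrix Finset
open Pool.Agent.Y342.SK
open Pool.Agent.H108R3.Had (IsPU PU PUk HasHad)

/-- there are `k` orthogonal rows of length `n` with entries `±1` -/
def HasPH (k n : ℕ) : Prop := ∃ M : Matrix (Fin k) (Fin n) ℤ, (∀ i j, M i j = 1 ∨ M i j = -1) ∧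
  M * M.transpose = (n : ℤ) • (1 : Matrix (Fin k) (Fin k) ℤ)

theorem hh_row : ∀ a b : Fin 2, ∑ g, hh a g * hh b g = if a = b then 2 else 0 := by decide

theorem hh_comm (a b : Fin 2) : hh a b = hh b a := by
  fin_cases a <;> fin_cases b <;> rfl

theorem hh_zero : ∀ g : Fin 2, hh 0 g = 1 := by decide

/-- the Sylvester matrix -/
def syl (s : ℕ) : Matrix (Fin (2 ^ s)) (Fin (2 ^ s)) ℤ :=
  Matrix.of fun a g => ∏ i : Fin s, hh (finFunctionFinEquiv.symm a i) (finFunctionFinEquiv.symm g i)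

theorem syl_row (s : ℕ) (a b : Fin (2 ^ s)) :
    ∑ g, syl s a g * syl s b g = if a = b then ((2 ^ s : ℕ) : ℤ) else 0 := by
  have h1 : ∑ g, syl s a g * syl s b g = ∑ g : Fin s → Fin 2,
      ∏ i : Fin s, (hh (finFunctionFinEquiv.symm a i) (g i) * hh (finFunctionFinEquiv.symm b i) (g i)) := by
    rw [← Equiv.sum_comp (finFunctionFinEquiv (m := 2) (n := s)).symm]
    refine Finset.sum_congr rfl fun g _ => ?_
    rw [Finset.prod_mul_distrib]
    rfl
  have h2 := Finset.prod_univ_sum (t := fun _ : Fin s => (univ : Finset (Fin 2)))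
    (f := fun i g => hh (finFunctionFinEquiv.symm a i) g * hh (finFunctionFinEquiv.symm b i) g)
  rw [Fintype.piFinset_univ] at h2
  rw [h1, ← h2]
  simp only [hh_row]
  by_cases hab : a = b
  · subst hab
    simp
  · rw [if_neg hab]
    have hne : finFunctionFinEquiv.symm a ≠ finFunctionFinEquiv.symm b := fun h =>
      hab (finFunctionFinEquiv.symm.injective h)
    obtain ⟨i, hi⟩ := Function.ne_iff.1 hne
    exact Finset.prod_eq_zero (mem_univ i) (if_neg hi)

theorem syl_comm (s : ℕ) (a b : Fin (2 ^ s)) : syl s a b = syl s b a := by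
  unfold syl
  simp only [Matrix.of_apply]
  exact Finset.prod_congr rfl fun i _ => hh_comm _ _

theorem isK_syl (s : ℕ) : IsK (2 ^ s) (syl s) where
  sg := fun a g => by
    unfold syl
    simp only [Matrix.of_apply]
    refine Finset.prod_induction _ Sg (fun _ _ => Sg.mul) (Or.inl rfl) fun i _ => hh_sg _ _
  row := syl_row s
  col := fun g h => by
    rw [← syl_row s g h]
    exact Finset.sum_congr rfl fun a _ => by rw [syl_comm s a g, syl_comm s a h]
  zero := fun g => by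
    unfold syl
    simp only [Matrix.of_apply]
    refine Finset.prod_eq_one fun i _ => ?_
    have : (finFunctionFinEquiv (m := 2) (n := s)).symm 0 i = 0 := by
      apply Fin.ext
      simp [finFunctionFinEquiv]
    rw [this]
    exact hh_zero _

/-- the main construction -/
theorem param {k s m S p : ℕ} (hs : 1 ≤ s) (hm : 1 ≤ m) (hPU : ∀ l ≤ S, PUk k l) (hp : p.Prime)
    {J : ℕ} (hJ : J = 2 ^ (5 * 2 ^ (k + 2) - 1))
    (h0 : p + 1 + 2 ^ s * (J * (2 * S + 1)) = 4 * m) (h1 : J * (2 * S + 1) ≤ p + 1) {D x y : ℕ}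
    (hQ : (m - 1) / J = D + 4 ^ (s - 1) * (x + y)) (hxy : y ≤ x) (hx : (2 ^ s - 1) * x + D ≤ S) :
    HasPH (2 ^ s * (J * (2 * S + 1))) (4 * m) := by
  obtain ⟨ι, κ, i1, i2, i3, i4, c, hι, hκ, hG⟩ := exists_arms (k + 2)
  rw [← hJ] at hι
  have hJ0 : 0 < J := by rw [hJ]; positivity
  obtain ⟨q, hq⟩ : ∃ q, q = 2 * S + 1 := ⟨_, rfl⟩
  have : NeZero q := ⟨by omega⟩
  obtain ⟨G, P, Q, hPQ⟩ := hG ((m - 1) % J) (by rw [hι]; exact Nat.mod_lt _ hJ0)
  have hy : (2 ^ s - 1) * y ≤ S := by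
    have := Nat.mul_le_mul_left (2 ^ s - 1) hxy
    omega
  obtain ⟨F, w, hF, hw1, hw2, hw3⟩ := exists_fam (κ := κ) (k := k) (r := 2 ^ s) hq hκ hPU x y D hx hy
  have hc : c * 2 ^ (k + 1) = J := by
    have h := G.hc
    rw [hκ, hι] at h
    push_cast at h
    rw [pow_succ] at h
    linarith
  have hτ : ∀ a : Fin (2 ^ s), a ≠ 0 → c * w (some a) = J * (x + y) := by
    intro a ha
    rw [hw3 a ha, ← mul_assoc, hc]
  have sys := toSys hPQ hF hτ
  have hcJ : ∀ z : ℤ, c * (2 ^ (k + 1) * z) = J * z := fun z => by rw [← mul_assoc, hc]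
  rw [hw1, hw2, hcJ, hcJ, hι] at sys
  -- the Hadamard matrix
  have hp4 : p % 4 = 3 := by
    obtain ⟨s', rfl⟩ : ∃ s', s = s' + 1 := ⟨s - 1, by omega⟩
    have e : (2 : ℕ) ∣ J := by
      rw [hJ]
      apply dvd_pow_self
      have : 0 < 2 ^ (k + 2) := by positivity
      omega
    obtain ⟨J', hJ'⟩ := e
    have e2 : 2 ^ (s' + 1) * (J * (2 * S + 1)) = 4 * (2 ^ s' * (J' * (2 * S + 1))) := by
      rw [hJ']; ring
    omega
  have : Fact p.Prime := ⟨hp⟩
  obtain ⟨H, hH1, hH2⟩ := Pool.Agent.W69.HH.paley (p := p) hp4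
  have hcard : Fintype.card (ι × ZMod q) ≤ Fintype.card (Fin (p + 1)) := by
    rw [Fintype.card_prod, ZMod.card, Fintype.card_fin, hι, hq]
    exact h1
  obtain ⟨e⟩ := Function.Embedding.nonempty_of_card_le hcard
  have hm1 : (m : ℤ) = 1 + ((m - 1) % J : ℕ) + J * (D + 4 ^ (s - 1) * (x + y)) := by
    have h := Nat.div_add_mod (m - 1) J
    rw [hQ] at h
    have h' : m = 1 + (m - 1) % J + J * (D + 4 ^ (s - 1) * (x + y)) := by omega
    exact_mod_cast h'
  have h4s : ((2 ^ s : ℕ) : ℤ) ^ 2 = 4 * 4 ^ (s - 1) := by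
    obtain ⟨s', rfl⟩ : ∃ s', s = s' + 1 := ⟨s - 1, by omega⟩
    rw [Nat.add_sub_cancel]
    push_cast
    rw [← pow_mul, mul_comm (s' + 1) 2, pow_mul]
    norm_num [pow_succ]
    ring
  have hr1 : ((2 ^ s - 1 : ℕ) : ℤ) = ((2 ^ s : ℕ) : ℤ) - 1 := by
    rw [Nat.cast_sub Nat.one_le_two_pow]; norm_num
  have hfin := big (isK_syl s) sys (γ := Fin (p + 1)) (H.submatrix e id) (fun x c => hH1 _ _) (by
    rw [transpose_submatrix, ← submatrix_mul _ _ e id e Function.bijective_id, hH2]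
    ext i j
    rw [Matrix.submatrix_apply, Matrix.smul_apply, Matrix.smul_apply, Matrix.one_apply,
      Matrix.one_apply]
    have e1 : ((p + 1 : ℕ) : ℤ) = ((2 ^ s : ℕ) : ℤ) * ((J : ℤ) * (x + y) - ((J : ℤ) - 1 - ((m - 1) % J : ℕ) +
        J * (2 * S - (2 ^ s - 1 : ℕ) * (x + y) - D)) - (1 + ((m - 1) % J : ℕ) + J * D)) +
        4 * (1 + ((m - 1) % J : ℕ) + J * D) := by
      have h0' : ((p + 1 : ℕ) : ℤ) = 4 * m - ((2 ^ s : ℕ) : ℤ) * (J * (2 * S + 1)) := by
        rw [← Nat.cast_ofNat (R := ℤ) (n := 4)]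
        have := congrArg (Nat.cast (R := ℤ)) h0
        push_cast at this ⊢
        linarith
      rw [h0', hr1]
      linear_combination 4 * hm1 + (-(J : ℤ) * (x + y)) * h4s
    by_cases hij : i = j
    · rw [if_pos hij, if_pos (congrArg e hij), e1]
    · rw [if_neg hij, if_neg (fun h => hij (e.injective h)), smul_zero, smul_zero])
  obtain ⟨M, hM1, hM2⟩ := hfin
  have c1 : Fintype.card ((ι × ZMod q) × Fin (2 ^ s)) = 2 ^ s * (J * (2 * S + 1)) := by
    rw [Fintype.card_prod, Fintype.card_prod, ZMod.card, Fintype.card_fin, hι, hq]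
    ring
  have c2 : Fintype.card (Fin (p + 1) ⊕ ((ι × ZMod q) × Fin (2 ^ s))) = 4 * m := by
    rw [Fintype.card_sum, c1, Fintype.card_fin]
    exact h0
  let e1 := (Fintype.equivFinOfCardEq c1).symm
  let e2 := (Fintype.equivFinOfCardEq c2).symm
  refine ⟨M.submatrix e1 e2, fun i j => hM1 _ _, ?_⟩
  rw [Matrix.transpose_submatrix, Matrix.submatrix_mul_equiv, hM2]
  have e3 : 4 * (1 + (((m - 1) % J : ℕ) : ℤ) + J * D) + ((2 ^ s : ℕ) : ℤ) ^ 2 * (J * (x + y)) =
      ((4 * m : ℕ) : ℤ) := by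
    rw [Nat.cast_mul]
    linear_combination (-4) * hm1 + ((J : ℤ) * (x + y)) * h4s
  rw [e3]
  ext i j
  rw [Matrix.submatrix_apply, Matrix.smul_apply, Matrix.smul_apply, Matrix.one_apply,
    Matrix.one_apply]
  by_cases hij : i = j
  · rw [if_pos hij, if_pos (congrArg e1 hij)]
  · rw [if_neg hij, if_neg (fun h => hij (e1.injective h))]

end Pool.Agent.N328.PH
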