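import Pool.Agent.N328.PH.Par
import Pool.Agent.H108R3.Had.P7

/-!
# Partial Hadamard matrices with parameters, general number of repetitions, partial heads
-/

set_option autoImplicit false
set_option linter.unusedSectionVars false

namespace Pool.Agent.N328.PH

open Matrix Finset
open Pool.Agent.Y342.SK
open Pool.Agent.H108R3.Had (IsPU PU PUk HasHad)

/-- a Hadamard matrix can be normalised -/
theorem isK_of_had {r : ℕ} [NeZero r] (h : HasHad r) :
    ∃ K : Matrix (Fin r) (Fin r) ℤ, IsK r K := by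
  obtain ⟨H, hs, hH⟩ := h
  have hr : (r : ℚ) ≠ 0 := by exact_mod_cast NeZero.ne r
  have hsq : ∀ a g, H a g * H a g = 1 := by
    intro a g
    rcases hs a g with h | h <;> rw [h] <;> norm_num
  have hT : Hᵀ * H = (r : ℤ) • (1 : Matrix (Fin r) (Fin r) ℤ) := by
    have h1 : (H.map (Int.cast : ℤ → ℚ)) * (Hᵀ.map (Int.cast : ℤ → ℚ)) =
        (r : ℚ) • (1 : Matrix (Fin r) (Fin r) ℚ) := by
      have h0 : (H * Hᵀ).map (Int.cast : ℤ → ℚ) =
          ((r : ℤ) • (1 : Matrix (Fin r) (Fin r) ℤ)).map (Int.cast : ℤ → ℚ) := by rw [hH]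
      rw [Matrix.map_mul_intCast] at h0
      rw [h0]
      ext i j
      simp only [Matrix.map_apply, Matrix.smul_apply, Matrix.one_apply, smul_eq_mul]
      by_cases hij : i = j
      · simp [hij]
      · simp [hij]
    have h2 : (H.map (Int.cast : ℤ → ℚ)) * ((r : ℚ)⁻¹ • (Hᵀ.map (Int.cast : ℤ → ℚ))) = 1 := by
      rw [Matrix.mul_smul, h1, smul_smul, inv_mul_cancel₀ hr, one_smul]
    have h3 := mul_eq_one_comm.1 h2
    have h4 : (Hᵀ.map (Int.cast : ℤ → ℚ)) * (H.map (Int.cast : ℤ → ℚ)) =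
        (r : ℚ) • (1 : Matrix (Fin r) (Fin r) ℚ) := by
      rw [Matrix.smul_mul] at h3
      rw [← h3, smul_smul, mul_inv_cancel₀ hr, one_smul]
    ext i j
    have h5 := congrFun (congrFun h4 i) j
    rw [← Matrix.map_mul_intCast] at h5
    rw [Matrix.map_apply, Matrix.smul_apply, Matrix.one_apply, smul_eq_mul] at h5
    rw [Matrix.smul_apply, Matrix.one_apply, smul_eq_mul]
    by_cases hij : i = j
    · rw [if_pos hij] at h5 ⊢
      exact_mod_cast h5
    · rw [if_neg hij] at h5 ⊢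
      exact_mod_cast h5
  have hrow : ∀ a b, ∑ g, H a g * H b g = if a = b then (r : ℤ) else 0 := by
    intro a b
    have h1 := congrFun (congrFun hH a) b
    rw [Matrix.mul_apply, Matrix.smul_apply, Matrix.one_apply, smul_eq_mul] at h1
    simp only [Matrix.transpose_apply] at h1
    rw [h1]
    by_cases hab : a = b
    · rw [if_pos hab, if_pos hab, mul_one]
    · rw [if_neg hab, if_neg hab, mul_zero]
  have hcol : ∀ g h, ∑ a, H a g * H a h = if g = h then (r : ℤ) else 0 := by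
    intro g h
    have h1 := congrFun (congrFun hT g) h
    rw [Matrix.mul_apply, Matrix.smul_apply, Matrix.one_apply, smul_eq_mul] at h1
    simp only [Matrix.transpose_apply] at h1
    rw [h1]
    by_cases hab : g = h
    · rw [if_pos hab, if_pos hab, mul_one]
    · rw [if_neg hab, if_neg hab, mul_zero]
  refine ⟨Matrix.of fun a g => H a g * H 0 g, ⟨fun a g => ?_, fun a b => ?_, fun g h => ?_, fun g => ?_⟩⟩
  · exact Sg.mul (hs a g) (hs 0 g)
  · rw [← hrow a b]
    refine Finset.sum_congr rfl fun g _ => ?_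
    simp only [Matrix.of_apply]
    linear_combination (H a g * H b g) * hsq 0 g
  · have e : ∀ a, Matrix.of (fun a g => H a g * H 0 g) a g * Matrix.of (fun a g => H a g * H 0 g) a h =
        (H 0 g * H 0 h) * (H a g * H a h) := by
      intro a; simp only [Matrix.of_apply]; ring
    rw [Finset.sum_congr rfl fun a _ => e a, ← Finset.mul_sum, hcol]
    by_cases hgh : g = h
    · subst hgh
      rw [if_pos rfl, hsq, one_mul]
    · rw [if_neg hgh, mul_zero]
  · simp only [Matrix.of_apply]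
    exact hsq 0 g

/-- the main construction -/
theorem param2 {k r m S ν : ℕ} [NeZero r] {K : Matrix (Fin r) (Fin r) ℤ} (hK : IsK r K) {q4 : ℕ}
    (hq4 : 4 * q4 = r * r) (hm : 1 ≤ m) (hPU : ∀ l ≤ S, PUk k l)
    {J : ℕ} (hJ : J = 2 ^ (5 * 2 ^ (k + 2) - 1))
    (h0 : ν + r * (J * (2 * S + 1)) = 4 * m) (hH : HasPH (J * (2 * S + 1)) ν) {D x y : ℕ}
    (hQ : (m - 1) / J = D + q4 * (x + y)) (hxy : y ≤ x) (hx : (r - 1) * x + D ≤ S) :
    HasPH (r * (J * (2 * S + 1))) (4 * m) := by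
  obtain ⟨ι, κ, i1, i2, i3, i4, c, hι, hκ, hG⟩ := exists_arms (k + 2)
  rw [← hJ] at hι
  have hJ0 : 0 < J := by rw [hJ]; positivity
  have hr0 : 1 ≤ r := Nat.pos_of_ne_zero (NeZero.ne r)
  obtain ⟨q, hq⟩ : ∃ q, q = 2 * S + 1 := ⟨_, rfl⟩
  have : NeZero q := ⟨by omega⟩
  obtain ⟨G, P, Q, hPQ⟩ := hG ((m - 1) % J) (by rw [hι]; exact Nat.mod_lt _ hJ0)
  have hy : (r - 1) * y ≤ S := by
    have := Nat.mul_le_mul_left (r - 1) hxy
    omega
  obtain ⟨F, w, hF, hw1, hw2, hw3⟩ := exists_fam (κ := κ) (k := k) (r := r) hq hκ hPU x y D hx hy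
  have hc : c * 2 ^ (k + 1) = J := by
    have h := G.hc
    rw [hκ, hι] at h
    push_cast at h
    rw [pow_succ] at h
    linarith
  have hτ : ∀ a : Fin r, a ≠ 0 → c * w (some a) = J * (x + y) := by
    intro a ha
    rw [hw3 a ha, ← mul_assoc, hc]
  have sys := toSys hPQ hF hτ
  have hcJ : ∀ z : ℤ, c * (2 ^ (k + 1) * z) = J * z := fun z => by rw [← mul_assoc, hc]
  rw [hw1, hw2, hcJ, hcJ, hι] at sys
  -- the head
  obtain ⟨H, hH1, hH2⟩ := hH
  have hcard : Fintype.card (ι × ZMod q) = J * (2 * S + 1) := by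
    rw [Fintype.card_prod, ZMod.card, hι, hq]
  let e := Fintype.equivFinOfCardEq hcard
  have hm1 : (m : ℤ) = 1 + ((m - 1) % J : ℕ) + J * (D + q4 * (x + y)) := by
    have h := Nat.div_add_mod (m - 1) J
    rw [hQ] at h
    have h' : m = 1 + (m - 1) % J + J * (D + q4 * (x + y)) := by omega
    exact_mod_cast h'
  have h4s : (r : ℤ) ^ 2 = 4 * q4 := by
    rw [pow_two]
    exact_mod_cast hq4.symm
  have hr1 : ((r - 1 : ℕ) : ℤ) = (r : ℤ) - 1 := by
    rw [Nat.cast_sub hr0]; norm_num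
  have hfin := big hK sys (γ := Fin ν) (H.submatrix e id) (fun x c => hH1 _ _) (by
    rw [transpose_submatrix, ← submatrix_mul _ _ e id e Function.bijective_id, hH2]
    ext i j
    rw [Matrix.submatrix_apply, Matrix.smul_apply, Matrix.smul_apply, Matrix.one_apply,
      Matrix.one_apply]
    have e1 : (ν : ℤ) = (r : ℤ) * ((J : ℤ) * (x + y) - ((J : ℤ) - 1 - ((m - 1) % J : ℕ) +
        J * (2 * S - (r - 1 : ℕ) * (x + y) - D)) - (1 + ((m - 1) % J : ℕ) + J * D)) +
        4 * (1 + ((m - 1) % J : ℕ) + J * D) := by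
      have h0' : (ν : ℤ) = 4 * m - (r : ℤ) * (J * (2 * S + 1)) := by
        have := congrArg (Nat.cast (R := ℤ)) h0
        push_cast at this ⊢
        linarith
      rw [h0', hr1]
      linear_combination 4 * hm1 + (-(J : ℤ) * (x + y)) * h4s
    by_cases hij : i = j
    · rw [if_pos hij, if_pos (congrArg e hij), e1]
    · rw [if_neg hij, if_neg (fun h => hij (e.injective h)), smul_zero, smul_zero])
  obtain ⟨M, hM1, hM2⟩ := hfin
  have c1 : Fintype.card ((ι × ZMod q) × Fin r) = r * (J * (2 * S + 1)) := by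
    rw [Fintype.card_prod, Fintype.card_prod, ZMod.card, Fintype.card_fin, hι, hq]
    ring
  have c2 : Fintype.card (Fin ν ⊕ ((ι × ZMod q) × Fin r)) = 4 * m := by
    rw [Fintype.card_sum, c1, Fintype.card_fin]
    exact h0
  let e1 := (Fintype.equivFinOfCardEq c1).symm
  let e2 := (Fintype.equivFinOfCardEq c2).symm
  refine ⟨M.submatrix e1 e2, fun i j => hM1 _ _, ?_⟩
  rw [Matrix.transpose_submatrix, Matrix.submatrix_mul_equiv, hM2]
  have e3 : 4 * (1 + (((m - 1) % J : ℕ) : ℤ) + J * D) + (r : ℤ) ^ 2 * (J * (x + y)) =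
      ((4 * m : ℕ) : ℤ) := by
    rw [Nat.cast_mul]
    linear_combination (-4) * hm1 + ((J : ℤ) * (x + y)) * h4s
  rw [e3]
  ext i j
  rw [Matrix.submatrix_apply, Matrix.smul_apply, Matrix.smul_apply, Matrix.one_apply,
    Matrix.one_apply]
  by_cases hij : i = j
  · rw [if_pos hij, if_pos (congrArg e1 hij)]
  · rw [if_neg hij, if_neg (fun h => hij (e1.injective h))]

/-- fewer rows -/
theorem HasPH.mono {k k' n : ℕ} (h : HasPH k n) (hk : k' ≤ k) : HasPH k' n := by
  obtain ⟨M, hM1, hM2⟩ := h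
  refine ⟨M.submatrix (Fin.castLE hk) id, fun i j => hM1 _ _, ?_⟩
  rw [Matrix.transpose_submatrix, ← Matrix.submatrix_mul _ _ _ id _ Function.bijective_id, hM2]
  ext i j
  rw [Matrix.submatrix_apply, Matrix.smul_apply, Matrix.smul_apply, Matrix.one_apply,
    Matrix.one_apply]
  by_cases hij : i = j
  · rw [if_pos hij, if_pos (congrArg _ hij)]
  · rw [if_neg hij, if_neg (fun h => hij (Fin.castLE_injective hk h))]

/-- Paley's matrices -/
theorem hasPH_paley {p : ℕ} (hp : p.Prime) (hp4 : p % 4 = 3) : HasPH (p + 1) (p + 1) := by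
  have : Fact p.Prime := ⟨hp⟩
  exact Pool.Agent.W69.HH.paley (p := p) hp4

/-- the arithmetic of the parameters -/
theorem arith2 {r J S n ν σ D x : ℕ} (hr : 1 ≤ r) (hJ : 1 ≤ J)
    (h0 : ν + r * (J * (2 * S + 1)) = n) (h1 : r * ν + r * r * r * J + 2 * (r * r * J * D) ≤ n)
    (hσ : r * r * J * σ ≤ n) (hx : 2 * x ≤ σ + 1) :
    (r - 1) * x + D ≤ S := by
  obtain ⟨r', rfl⟩ : ∃ r', r = r' + 1 := ⟨r - 1, by omega⟩
  rw [Nat.add_sub_cancel]
  set R : ℤ := (r' : ℤ) + 1 with hR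
  have hR1 : (1 : ℤ) ≤ R := by rw [hR]; omega
  have g0 : (ν : ℤ) + R * (J * (2 * S + 1)) = n := by rw [hR]; exact_mod_cast h0
  have g1 : R * ν + R * R * R * J + 2 * (R * R * J * D) ≤ n := by rw [hR]; exact_mod_cast h1
  have gσ : R * R * J * σ ≤ n := by rw [hR]; exact_mod_cast hσ
  have gx : 2 * (x : ℤ) ≤ σ + 1 := by exact_mod_cast hx
  have gJ : (1 : ℤ) ≤ J := by exact_mod_cast hJ
  have hr' : (0 : ℤ) ≤ r' := by positivity
  have hRJ : (0 : ℤ) < R * R * J := by positivity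
  have e : R * (ν + R * (J * (2 * S + 1))) = R * n := by rw [g0]
  have b1 : 2 * ((r' : ℤ) * x) ≤ r' * (σ + 1) := by nlinarith
  have b3 : R * R * J * (2 * ((r' : ℤ) * x)) ≤ R * R * J * (r' * (σ + 1)) :=
    mul_le_mul_of_nonneg_left b1 hRJ.le
  have b5 : (r' : ℤ) * (R * R * J * σ) ≤ r' * n := mul_le_mul_of_nonneg_left gσ hr'
  have b6 : (r' : ℤ) = R - 1 := by rw [hR]; ring
  have a3 : R * R * J * (2 * (r' * x + D)) ≤ R * R * J * (2 * S) := by
    rw [b6] at b3 b5 ⊢
    nlinarith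
  have a4 := le_of_mul_le_mul_left a3 hRJ
  have : (r' : ℤ) * x + D ≤ S := by linarith
  exact_mod_cast this

end Pool.Agent.N328.PH
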