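import Pool.Agent.N328.PH.Par2

/-!
# Two levels
-/

set_option autoImplicit false

namespace Pool.Agent.N328.PH

open Pool.Agent.H108R3.Had (PUk HasHad)

/-- inversion modulo a power of two -/
theorem inv2 (a e : ℕ) (ha : a % 2 = 1) (w : ℤ) :
    ∃ j : ℕ, j < 2 ^ e ∧ ((2 ^ e : ℕ) : ℤ) ∣ (a : ℤ) * j - w := by
  have : NeZero (2 ^ e) := ⟨by positivity⟩
  have hcop : Nat.Coprime a (2 ^ e) :=
    Nat.Coprime.pow_right e (Nat.odd_iff.2 ha).coprime_two_right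
  have hu : (a : ZMod (2 ^ e)) * (a : ZMod (2 ^ e))⁻¹ = 1 := ZMod.coe_mul_inv_eq_one a hcop
  refine ⟨((w : ZMod (2 ^ e)) * (a : ZMod (2 ^ e))⁻¹).val, ZMod.val_lt _, ?_⟩
  rw [← ZMod.intCast_eq_intCast_iff_dvd_sub]
  push_cast
  rw [ZMod.natCast_zmod_val, mul_left_comm, hu, mul_one]

/-- the number `q'` -/
theorem choose_q {K u : ℕ} (hK : 1 ≤ K) (hu : 2 * K + 1 ≤ u) :
    ∃ q, q % 2 = 1 ∧ K * q + 1 ≤ u ∧ u ≤ K * q + 2 * K := by
  obtain ⟨v, hv⟩ : ∃ v, v = (u - 1) / K := ⟨_, rfl⟩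
  have h1 : K * v ≤ u - 1 := by rw [hv]; exact Nat.mul_div_le _ _
  have h2 : u - 1 < K * (v + 1) := by rw [hv]; exact Nat.lt_mul_div_succ _ (by omega)
  have h3 : 2 ≤ v := by rw [hv, Nat.le_div_iff_mul_le (by omega)]; omega
  rcases Nat.mod_two_eq_zero_or_one v with h | h
  · refine ⟨v - 1, by omega, ?_, ?_⟩
    · have : K * (v - 1) ≤ K * v := Nat.mul_le_mul_left _ (Nat.sub_le _ _)
      omega
    · have e : K * (v - 1) + 2 * K = K * (v + 1) := by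
        obtain ⟨v', rfl⟩ : ∃ v', v = v' + 1 := ⟨v - 1, by omega⟩
        rw [Nat.add_sub_cancel]; ring
      omega
  · refine ⟨v, h, by omega, ?_⟩
    have e : K * (v + 1) = K * v + K := by ring
    omega

/-- a number in an interval and a residue class -/
theorem walk {b lo M : ℕ} (hM : 0 < M) (hb : b ≤ lo) : ∃ j, lo ≤ b + M * j ∧ b + M * j < lo + M := by
  refine ⟨(lo - b + (M - 1)) / M, ?_, ?_⟩
  · have := Nat.lt_mul_div_succ (lo - b + (M - 1)) hM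
    have e : M * ((lo - b + (M - 1)) / M + 1) = M * ((lo - b + (M - 1)) / M) + M := by ring
    omega
  · have := Nat.mul_div_le (lo - b + (M - 1)) M
    omega

/-- the residue `e` -/
theorem choose_e {k K q J n n₂ : ℕ} (hk : 1 ≤ k) (hK : K = 2 ^ k) (hq : q % 2 = 1) (hJ : 1 ≤ J)
    (hmod : (2 * K * J : ℤ) ∣ (n : ℤ) - n₂ - K * J) :
    ∃ e : ℕ, 1 ≤ e ∧ e ≤ K * (K * q) * J ∧ (K * K * J : ℤ) ∣ (n : ℤ) - e ∧
      (2 * (K * q) * J : ℤ) ∣ (e : ℤ) - n₂ - K * q * J := by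
  obtain ⟨k', rfl⟩ : ∃ k', k = k' + 1 := ⟨k - 1, by omega⟩
  have hK2 : K = 2 * 2 ^ k' := by rw [hK, pow_succ]; ring
  have hK0 : 1 ≤ K := by rw [hK]; exact Nat.one_le_two_pow
  have hq0 : 1 ≤ q := by omega
  obtain ⟨T, hT⟩ : ∃ T, T = 2 * (K * q) * J := ⟨_, rfl⟩
  have hT' : (T : ℤ) = 2 * (K * q) * J := by exact_mod_cast hT
  have hT0 : 1 ≤ T := by
    rw [hT]
    exact Nat.mul_pos (Nat.mul_pos (by norm_num) (Nat.mul_pos hK0 hq0)) hJ
  obtain ⟨c0, hc0⟩ : ∃ c0, c0 = (n₂ + K * q * J - 1) % T + 1 := ⟨_, rfl⟩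
  have hKqJ : 1 ≤ K * q * J := Nat.mul_pos (Nat.mul_pos hK0 hq0) hJ
  have hc1 : 1 ≤ c0 := by omega
  have hc2 : c0 ≤ T := by
    have := Nat.mod_lt (n₂ + K * q * J - 1) (show T > 0 by omega)
    omega
  obtain ⟨b, hb⟩ : ∃ b : ℤ, (c0 : ℤ) - n₂ - K * q * J = T * b := by
    have h1 := Nat.div_add_mod (n₂ + K * q * J - 1) T
    refine ⟨-(((n₂ + K * q * J - 1) / T : ℕ) : ℤ), ?_⟩
    have h2 : (c0 : ℤ) + T * ((n₂ + K * q * J - 1) / T : ℕ) = n₂ + K * q * J := by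
      have : c0 + T * ((n₂ + K * q * J - 1) / T) = n₂ + K * q * J := by omega
      exact_mod_cast this
    linear_combination h2
  -- `n - c0` is a multiple of `2 K J`
  obtain ⟨w, hw⟩ : ∃ w : ℤ, (n : ℤ) - c0 = 2 * K * J * w := by
    obtain ⟨a, ha⟩ := hmod
    obtain ⟨h, hh⟩ : ∃ h, q = 2 * h + 1 := ⟨q / 2, by omega⟩
    refine ⟨a - q * b - h, ?_⟩
    have hh' : (q : ℤ) = 2 * h + 1 := by exact_mod_cast hh
    rw [hT'] at hb
    linear_combination ha - hb - (K : ℤ) * J * hh'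
  obtain ⟨j, hj1, a, ha⟩ := inv2 q k' hq w
  have hK2' : (K : ℤ) = 2 * 2 ^ k' := by exact_mod_cast hK2
  refine ⟨c0 + T * j, by omega, ?_, ?_, ?_⟩
  · have h1 : T * (j + 1) ≤ T * 2 ^ k' := Nat.mul_le_mul_left _ hj1
    have h2 : T * 2 ^ k' = K * (K * q) * J := by
      have : T * 2 ^ k' = (2 * 2 ^ k') * (K * q) * J := by rw [hT]; ring
      rw [this, ← hK2]
    have h3 : T * (j + 1) = T * j + T := by ring
    omega
  · refine ⟨-a, ?_⟩
    push_cast at ha ⊢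
    rw [hT']
    linear_combination hw - 2 * (K : ℤ) * J * ha + (K : ℤ) * J * a * hK2'
  · refine ⟨b + j, ?_⟩
    push_cast
    rw [hT'] at hb ⊢
    linear_combination hb

/-- the residue `σ` -/
theorem choose_σ {k s K r q J n e : ℕ} (hK : K = 2 ^ k) (hr : r = 2 ^ s) (hs : 2 * k ≤ s)
    (hq : q % 2 = 1) (he : (K * K * J : ℤ) ∣ (n : ℤ) - e) :
    ∃ μ σ₀ : ℕ, K * K * μ = 2 * r ∧ σ₀ < μ ∧ ∀ j : ℕ,
      (2 * r * J : ℤ) ∣ (n : ℤ) - (e + (K * q) * (K * q) * J * (σ₀ + μ * j : ℕ)) - r * J := by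
  obtain ⟨s', rfl⟩ : ∃ s', s = 2 * k + s' := ⟨s - 2 * k, by omega⟩
  obtain ⟨w, hw⟩ := he
  have hqq : (q * q) % 2 = 1 := by rw [Nat.mul_mod, hq]
  obtain ⟨σ₀, hj1, a, ha⟩ := inv2 (q * q) (s' + 1) hqq (w - 2 ^ s')
  have e1 : (r : ℤ) = K * K * 2 ^ s' := by
    rw [hr, hK, two_mul, pow_add, pow_add]; push_cast; ring
  refine ⟨2 ^ (s' + 1), σ₀, ?_, hj1, fun j => ⟨-a - q * q * j, ?_⟩⟩
  · rw [hr, hK, two_mul, pow_add, pow_add, pow_succ]; ring
  rw [pow_succ] at ha ⊢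
  push_cast at hw ha ⊢
  rw [e1]
  linear_combination hw - (K : ℤ) * K * (J : ℤ) * ha

/-- the estimates -/
theorem sizes {n K J r n₂ q : ℕ} (hK : 2 ≤ K) (hJ : 1 ≤ J) (hr : 4 ≤ r) (hn₂ : 1 ≤ n₂)
    (hX1 : n ≤ 32 * K * r * r * n₂) (hX2 : 8 * K * r * r * n₂ ≤ n)
    (hbig : 2 ^ 22 * K ^ 5 * J * r ^ 5 ≤ n) (hF1 : r * n₂ * (K * q + 1) + r * r * r * r * J ≤ n)
    (hF2 : n < r * r * r * r * J + r * n₂ * (K * q + 2 * K + 1)) :
    q ≤ 32 * r ∧ K * ((K * q) * (K * q) * (K * q)) * J + 2 * r * q * q * J + 1 ≤ n₂ ∧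
      n + r * n₂ ≤ (r + 1) * (K * q * n₂) := by
  have hq : q ≤ 32 * r := by
    have h1 : (K * r * n₂) * q ≤ (K * r * n₂) * (32 * r) := by
      calc (K * r * n₂) * q ≤ r * n₂ * (K * q + 1) := by nlinarith [Nat.zero_le (r * n₂)]
        _ ≤ n := by omega
        _ ≤ 32 * K * r * r * n₂ := hX1
        _ = (K * r * n₂) * (32 * r) := by ring
    exact Nat.le_of_mul_le_mul_left h1 (by positivity)
  have hn : 2 ^ 17 * (K ^ 4 * J * r ^ 3) ≤ n₂ := by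
    have h1 : (32 * K * r ^ 2) * (2 ^ 17 * (K ^ 4 * J * r ^ 3)) ≤ (32 * K * r ^ 2) * n₂ := by
      calc (32 * K * r ^ 2) * (2 ^ 17 * (K ^ 4 * J * r ^ 3)) = 2 ^ 22 * K ^ 5 * J * r ^ 5 := by ring
        _ ≤ n := hbig
        _ ≤ 32 * K * r * r * n₂ := hX1
        _ = (32 * K * r ^ 2) * n₂ := by ring
    exact Nat.le_of_mul_le_mul_left h1 (by positivity)
  refine ⟨hq, ?_, ?_⟩
  · have h1 : q * q * q ≤ (32 * r) * (32 * r) * (32 * r) := Nat.mul_le_mul (Nat.mul_le_mul hq hq) hq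
    have h2 : q * q ≤ (32 * r) * (32 * r) := Nat.mul_le_mul hq hq
    have h3 : K * ((K * q) * (K * q) * (K * q)) * J ≤ 2 ^ 15 * (K ^ 4 * J * r ^ 3) := by
      calc K * ((K * q) * (K * q) * (K * q)) * J = (K ^ 4 * J) * (q * q * q) := by ring
        _ ≤ (K ^ 4 * J) * ((32 * r) * (32 * r) * (32 * r)) := Nat.mul_le_mul_left _ h1
        _ = 2 ^ 15 * (K ^ 4 * J * r ^ 3) := by ring
    have h4 : 2 * r * q * q * J ≤ 2 ^ 11 * (K ^ 4 * J * r ^ 3) := by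
      calc 2 * r * q * q * J = (2 * r * J) * (q * q) := by ring
        _ ≤ (2 * r * J) * ((32 * r) * (32 * r)) := Nat.mul_le_mul_left _ h2
        _ = 2 ^ 11 * (1 * J * r ^ 3) := by ring
        _ ≤ 2 ^ 11 * (K ^ 4 * J * r ^ 3) := by
            have : 1 ≤ K ^ 4 := Nat.one_le_pow _ _ (by omega)
            exact Nat.mul_le_mul_left _ (Nat.mul_le_mul_right _ (Nat.mul_le_mul_right _ this))
    have h5 : 1 ≤ K ^ 4 * J * r ^ 3 := by
      have : 0 < K ^ 4 * J * r ^ 3 := by positivity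
      exact this
    omega
  · -- multiply by `r`
    have hr0 : (0 : ℤ) < r := by positivity
    have g1 : (8 : ℤ) * K * (r * (r * n₂)) ≤ n := by
      have : (8 : ℤ) * K * r * r * n₂ ≤ n := by exact_mod_cast hX2
      linarith
    have g2 : (2 : ℤ) ^ 22 * K ^ 5 * J * r ^ 5 ≤ n := by exact_mod_cast hbig
    have g3 : (n : ℤ) < r * r * r * r * J + r * n₂ * (K * q + 2 * K + 1) := by exact_mod_cast hF2
    have gK : (2 : ℤ) ≤ K := by exact_mod_cast hK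
    have gr : (4 : ℤ) ≤ r := by exact_mod_cast hr
    have gJ : (1 : ℤ) ≤ J := by exact_mod_cast hJ
    have gn : (1 : ℤ) ≤ n₂ := by exact_mod_cast hn₂
    obtain ⟨P, hP⟩ : ∃ P : ℤ, P = r * n₂ := ⟨_, rfl⟩
    rw [← hP] at g1 g3
    have hP0 : 0 < P := by rw [hP]; positivity
    -- the small terms
    have s1 : (r : ℤ) * (r * r * r * r * J) * 32 ≤ n := by
      have e : (r : ℤ) * (r * r * r * r * J) = J * r ^ 5 := by ring
      rw [e]
      have h6 : (32 : ℤ) ≤ 2 ^ 22 * K ^ 5 := by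
        have : (1 : ℤ) ≤ K ^ 5 := one_le_pow₀ (by linarith)
        linarith
      have h7 : (0 : ℤ) ≤ J * r ^ 5 := by positivity
      nlinarith
    have s2 : (r * r * r * r * J : ℤ) ≤ r * (r * r * r * r * J) := by
      have : (0 : ℤ) ≤ r * r * r * r * J := by positivity
      nlinarith
    have s3 : (r : ℤ) * P * (2 * K + 2) * 8 ≤ 3 * n := by
      have : (r : ℤ) * P * (2 * K + 2) ≤ r * P * (3 * K) := by
        apply mul_le_mul_of_nonneg_left _ (by positivity)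
        linarith
      nlinarith
    have s4 : P * (2 * K + 1) * 32 ≤ 3 * n := by
      have h6 : P * (2 * K + 1) ≤ P * (3 * K) := by
        apply mul_le_mul_of_nonneg_left _ hP0.le
        linarith
      have h7 : 4 * (P * (3 * K)) ≤ r * (P * (3 * K)) := by
        apply mul_le_mul_of_nonneg_right gr
        positivity
      nlinarith
    have key : (r : ℤ) * ((n : ℤ) + P) ≤ r * ((r + 1) * (K * q * n₂)) := by
      have e : (r : ℤ) * ((r + 1) * (K * q * n₂)) = (r + 1) * (P * (K * q)) := by rw [hP]; ring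
      rw [e]
      have h8 : (n : ℤ) - r * r * r * r * J - P * (2 * K + 1) ≤ P * (K * q) := by nlinarith
      have h9 : ((r : ℤ) + 1) * ((n : ℤ) - r * r * r * r * J - P * (2 * K + 1)) ≤
          (r + 1) * (P * (K * q)) := mul_le_mul_of_nonneg_left h8 (by positivity)
      nlinarith
    have := le_of_mul_le_mul_left key hr0
    rw [hP] at this
    exact_mod_cast this

end Pool.Agent.N328.PH
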